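import Pool.Agent.P.MP_657a03_nt.CW.Iface

/-! Step ASY. -/

set_option autoImplicit false
set_option linter.unusedSectionVars false

namespace Pool.Agent.P.MP_657a03_nt.CW

open Polynomial
open scoped Classical

theorem p_ASY :
    S_ASY := by
  intro c C q hc hq
  have c0 : (1 : ℝ) ≤ c := by exact_mod_cast hc
  have q2 : (2 : ℝ) ≤ q := by exact_mod_cast hq
  have q0 : (0 : ℝ) < q := by linarith
  have r1 : (1 : ℝ) < (q : ℝ) ^ (1 / (2 * (c : ℝ))) :=
    Real.one_lt_rpow (by linarith) (by positivity)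
  have hK : (0 : ℝ) < 1 / (8 * C * q + 1) := by positivity
  obtain ⟨d0, h0⟩ := Filter.eventually_atTop.1
    ((tendsto_pow_const_div_const_pow_of_one_lt 3 r1).eventually (gt_mem_nhds hK))
  refine ⟨max d0 1, fun d hd => ?_⟩
  have d1 : (1 : ℝ) ≤ d := by exact_mod_cast le_of_max_le_right hd
  have a1 := h0 d (le_of_max_le_left hd)
  rw [div_lt_div_iff₀ (by positivity) (by positivity), one_mul, ← Real.rpow_natCast _ d,
    ← Real.rpow_mul q0.le] at a1
  have a2 : ((d - d / c : ℕ) : ℝ) ≤ 1 + (d - d / c) := by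
    rw [Nat.cast_sub (Nat.div_le_self _ _)]
    have b1 : (d : ℝ) < c * ((d / c : ℕ) + 1) := by
      exact_mod_cast Nat.lt_mul_div_succ d (show 0 < c by omega)
    have b2 : (d : ℝ) / c < (d / c : ℕ) + 1 := by
      rw [div_lt_iff₀ (by linarith)]
      linarith
    linarith
  have a3 : (q : ℝ) ^ (d - d / c) ≤ q * (q : ℝ) ^ ((d : ℝ) - d / c) := by
    rw [← Real.rpow_natCast]
    refine (Real.rpow_le_rpow_of_exponent_le (by linarith) a2).trans (le_of_eq ?_)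
    rw [Real.rpow_add q0, Real.rpow_one]
  have a4 : ((d : ℝ) + 1) ^ 3 ≤ 8 * d ^ 3 := by
    have : ((d : ℝ) + 1) ^ 3 ≤ (2 * d) ^ 3 := pow_le_pow_left₀ (by linarith) (by linarith) 3
    linarith
  have a5 : (C : ℝ) * (d + 1) ^ 3 * q ≤ (q : ℝ) ^ (1 / (2 * (c : ℝ)) * d) := by
    have b1 : (C : ℝ) * (d + 1) ^ 3 * q ≤ C * (8 * d ^ 3) * q := by gcongr
    have b2 : (0 : ℝ) ≤ (d : ℝ) ^ 3 := by positivity
    nlinarith
  have a6 : (q : ℝ) ^ ((1 - 1 / (2 * (c : ℝ))) * d) =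
      (q : ℝ) ^ (1 / (2 * (c : ℝ)) * d) * (q : ℝ) ^ ((d : ℝ) - d / c) := by
    rw [← Real.rpow_add q0]
    congr 1
    field_simp
    ring
  rw [a6]
  push_cast
  calc (C : ℝ) * (d + 1) ^ 3 * q ^ (d - d / c)
      ≤ C * (d + 1) ^ 3 * (q * (q : ℝ) ^ ((d : ℝ) - d / c)) := by gcongr
    _ = C * (d + 1) ^ 3 * q * (q : ℝ) ^ ((d : ℝ) - d / c) := by ring
    _ ≤ _ := by gcongr

end Pool.Agent.P.MP_657a03_nt.CW
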