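import Pool.Agent.P.MP_657a03_nt.CW.Iface

/-! Step BAD. -/

set_option autoImplicit false
set_option linter.unusedSectionVars false

namespace Pool.Agent.P.MP_657a03_nt.CW

open Polynomial
open scoped Classical

theorem p_BAD (hFROB : S_FROB) (hROOT : S_ROOT) (hDIV : S_DIV) (hPSI : S_PSI) (hLOG : S_LOG) (hRES : S_RES) :
    S_BAD := by
  intro F K L _ _ _ _ _ _ _ _ _ _ _ _ _ ι R s D η θ u w P hP hθ hu hw hm hi hd hs hn hreg
  let _ : Algebra F L := (ι.comp (algebraMap F K)).toAlgebra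
  let ιa : K →ₐ[F] L := { ι with commutes' := fun _ => rfl }
  have hι : ∀ a : F[X], aeval (ι θ) a = ι (aeval (θ : K) a) := fun a =>
    aeval_algHom_apply ιa _ a
  have hn' : ‖aeval (ι θ) P‖ < 1 := by rw [hι]; exact hn
  obtain ⟨h1, E, _, _, π, hπ⟩ := hRES F K L ιa R s D P hP hm hi hs (by rw [← hθ]; exact hn')
  have hv : ∀ a : F[X], ((aeval θ a : R) : K) = aeval (θ : K) a := fun a =>
    (aeval_algHom_apply R.val θ a).symm
  have h0 : aeval (π θ) P = 0 := by
    rw [aeval_algHom_apply, hπ, hv]; exact hn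
  obtain ⟨σ0, hσ⟩ := hFROB F K R s D θ P E π hP hθ hm hi hs h0
  obtain ⟨sR, hsR⟩ := hP.exists_act σ0
  obtain ⟨DR, hDR⟩ := hP.exists_der
  choose y hy using fun g => hDIV F K R s D θ P hP hθ hm hi hs (u g)
  have hy' : ∀ g : K ≃ₐ[RatFunc F] K,
      ι (carlitz (θ : K) (P ^ Fintype.card (K ≃ₐ[RatFunc F] K) - 1) (g η)) =
        aeval (ι θ) P * ι (y g) := fun g => by
    have := (map_carlitz R.val θ _ (u g)).symm.trans (congrArg R.val (hy g))
    rw [hι, ← map_mul, ← hu, ← hv]
    exact congrArg ι this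
  have hne : aeval (ι θ) P ≠ 0 := by
    rw [hι, hθ, aeval_theta, _root_.map_ne_zero]
    exact fun e => hi.ne_zero (algebraMap_inj (e.trans (map_zero _).symm))
  have hL := hLOG F L (K ≃ₐ[RatFunc F] K) (ι θ) P (fun a b => ι (y (a * b))) hm hi hd hn' hne
    (fun a b => h1 _) (by simpa only [hι, hy'] using hreg)
  have hdet : π (Matrix.det (Matrix.of fun a b : K ≃ₐ[RatFunc F] K => y (a * b))) = 0 := by
    rw [hπ]
    have := RingHom.map_det (ι.comp R.val.toRingHom)
      (Matrix.of fun a b : K ≃ₐ[RatFunc F] K => y (a * b))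
    exact (congrArg norm this).trans_lt hL
  obtain ⟨r1, r2, -⟩ := hROOT F E (π θ) P hm hi h0
  refine ⟨E, inferInstance, inferInstance, π, σ0, h0, r1, r2, fun g => (hσ _ _ ?_).symm, ?_⟩
  · rw [hu, hu, AlgEquiv.mul_apply]
  · have e : psiM F (π θ) (fun g => π (u g)) (fun g => π (w g)) σ0 P.natDegree =
        aeval (π θ) (derivative P) • (((fr F E) ^ P.natDegree).comp π.toRingHom).mapMatrix
          (Matrix.of fun a b : K ≃ₐ[RatFunc F] K => y (a * b)) := by
      ext a b
      have e1 : w (σ0 * (a * b)) = DR (sR (u (a * b))) :=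
        Subtype.ext (by rw [hw, hDR, hsR, hu, AlgEquiv.mul_apply])
      have e2 := hPSI F R E θ (u (a * b)) (y (a * b)) DR sR π P P.natDegree _
        (Subtype.ext (by rw [hDR, hθ]; exact hP.dX))
        (Subtype.ext (by rw [hsR, hθ, gal_algebraMap])) (by omega) Fintype.card_pos h0
        (fun x => hσ x _ (hsR x)) (hy (a * b))
      rw [← e1] at e2
      refine e2.trans ?_
      change _ = _ * ((fr F E) ^ P.natDegree) (π (y (a * b)))
      rw [RingHom.coe_pow, fr_iter, pw]
    rw [e, Matrix.det_smul, ← RingHom.map_det, RingHom.comp_apply]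
    change _ * ((fr F E) ^ P.natDegree) (π _) = 0
    rw [hdet, map_zero, mul_zero]

end Pool.Agent.P.MP_657a03_nt.CW
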