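import Pool.Agent.P.MP_657a03_nt.CW.Iface

/-! Step CNT. -/

set_option autoImplicit false
set_option linter.unusedSectionVars false

namespace Pool.Agent.P.MP_657a03_nt.CW

open Polynomial
open scoped Classical

theorem p_CNT :
    S_CNT := by
  intro F _ a T ha hT
  rcases T.finite_or_infinite with hf | hf
  · lift T to Finset F[X] using hf
    have hd : ∏ P ∈ T, P ∣ a := by
      refine Finset.prod_dvd_of_coprime (fun P hP Q hQ hne => ?_) fun P hP => (hT P hP).2.2
      obtain ⟨m1, i1, -⟩ := hT P hP
      obtain ⟨m2, i2, -⟩ := hT Q hQ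
      exact i1.coprime_iff_not_dvd.2 fun h =>
        hne (eq_of_monic_of_associated m1 m2 (i1.associated_of_dvd i2 h))
    have h1 := natDegree_le_of_dvd hd ha
    rw [natDegree_prod_of_monic _ _ fun P hP => (hT P hP).1] at h1
    rw [Set.ncard_coe_finset, Finset.card_eq_sum_ones]
    exact (Finset.sum_le_sum fun P hP => (hT P hP).2.1.natDegree_pos).trans h1
  · rw [hf.ncard]
    exact Nat.zero_le _

end Pool.Agent.P.MP_657a03_nt.CW
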