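import Pool.Agent.P.MP_657a03_nt.CW.Iface

/-! Step DEN. -/

set_option autoImplicit false
set_option linter.unusedSectionVars false

namespace Pool.Agent.P.MP_657a03_nt.CW

open Polynomial
open scoped Classical

namespace DENx

theorem mem_range {F K : Type} [Field F] [Fintype F] [Field K] [Algebra F K] {c : K}
    (h : c ^ Fintype.card F = c) : c ∈ Set.range (algebraMap F K) := by
  have e := roots_map_of_injective_of_card_eq_natDegree (p := (X ^ Fintype.card F - X : F[X]))
    (algebraMap F K).injective (by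
      rw [FiniteField.roots_X_pow_card_sub_X,
        FiniteField.X_pow_card_sub_X_natDegree_eq F Fintype.one_lt_card]
      rfl)
  have hm : c ∈ ((X ^ Fintype.card F - X : F[X]).map (algebraMap F K)).roots := by
    rw [Polynomial.map_sub, Polynomial.map_pow, map_X,
      mem_roots (FiniteField.X_pow_card_sub_X_ne_zero K Fintype.one_lt_card), IsRoot.def,
      eval_sub, eval_pow, eval_X, h, sub_self]
  rw [← e] at hm
  obtain ⟨a, -, ha⟩ := Multiset.mem_map.1 hm
  exact ⟨a, ha⟩

theorem fixed {F K : Type} [Field F] [Fintype F] [Field K] [Algebra F K] (h : K[X])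
    (e : h.map (fr F K) = h) : ∃ a : F[X], a.map (algebraMap F K) = h := by
  refine (mem_lifts h).1 ((lifts_iff_coeff_lifts h).2 fun n => mem_range ?_)
  have := congrArg (fun p => p.coeff n) e
  simpa [coeff_map] using this

theorem frac {K Ω : Type} [Field K] [Field Ω] [Algebra K[X] Ω] [IsFractionRing K[X] Ω] (f : Ω) :
    ∃ h w : K[X], w.Monic ∧ IsCoprime h w ∧ f * algebraMap K[X] Ω w = algebraMap K[X] Ω h := by
  obtain ⟨a, b, hab, e⟩ := IsFractionRing.exists_reduced_fraction K[X] f
  have hb : (b : K[X]) ≠ 0 := nonZeroDivisors.coe_ne_zero b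
  have hu : IsUnit (C (b : K[X]).leadingCoeff⁻¹) :=
    isUnit_C.2 (IsUnit.mk0 _ (inv_ne_zero (leadingCoeff_ne_zero.2 hb)))
  refine ⟨a * C (b : K[X]).leadingCoeff⁻¹, b * C (b : K[X]).leadingCoeff⁻¹,
    monic_mul_leadingCoeff_inv hb, (isCoprime_mul_unit_right hu _ _).2 hab.isCoprime, ?_⟩
  rw [map_mul, map_mul, ← mul_assoc, ← e, IsLocalization.mk'_spec]

end DENx

theorem p_DEN :
    S_DEN := by
  intro F K Ω _ _ _ _ _ _ _ τ hτ
  have inj := IsFractionRing.injective K[X] Ω
  refine ⟨DENx.fixed, fun f γ Λ e => ?_, fun f Λ hΛ e => ?_⟩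
  · obtain ⟨h, w, hw, hc, hf⟩ := DENx.frac (K := K) f
    have hf' := congrArg τ hf
    rw [map_mul, hτ, hτ] at hf'
    have k : h.map (fr F K) * w = w.map (fr F K) * (Λ * h - γ * w) := by
      apply inj
      rw [map_mul, map_mul, map_sub, map_mul, map_mul, ← hf, ← hf']
      linear_combination (algebraMap K[X] Ω w * algebraMap K[X] Ω (w.map (fr F K))) * e
    have hc' : IsCoprime (w.map (fr F K)) (h.map (fr F K)) :=
      hc.symm.map (mapRingHom (fr F K))
    have hd : w.map (fr F K) ∣ w := hc'.dvd_of_dvd_mul_left ⟨_, k⟩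
    have ew : w = w.map (fr F K) :=
      eq_of_monic_of_dvd_of_natDegree_le (hw.map _) hw hd (natDegree_map _).ge
    obtain ⟨b, hb⟩ := DENx.fixed w ew.symm
    refine ⟨b, h, ?_, by rw [hb, hf]⟩
    rintro rfl
    exact hw.ne_zero (by rw [← hb, Polynomial.map_zero])
  · obtain ⟨h, w, hw, -, hf⟩ := DENx.frac (K := K) f
    have hf' := congrArg τ hf
    rw [map_mul, hτ, hτ] at hf'
    have k : Λ * h.map (fr F K) * w = h * w.map (fr F K) := by
      apply inj
      rw [map_mul, map_mul, map_mul, ← hf, ← hf']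
      linear_combination (algebraMap K[X] Ω w * algebraMap K[X] Ω (w.map (fr F K))) * e
    by_cases h0 : h = 0
    · rw [h0, map_zero] at hf
      exact (mul_eq_zero.1 hf).resolve_right ((map_ne_zero_iff _ inj).2 hw.ne_zero)
    · have hΛ0 : Λ ≠ 0 := ne_zero_of_natDegree_gt hΛ
      have h1 : h.map (fr F K) ≠ 0 := Polynomial.map_ne_zero h0
      have := congrArg natDegree k
      rw [natDegree_mul (mul_ne_zero hΛ0 h1) hw.ne_zero, natDegree_mul hΛ0 h1,
        natDegree_mul h0 (hw.map _).ne_zero, natDegree_map, natDegree_map] at this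
      omega

end Pool.Agent.P.MP_657a03_nt.CW
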