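import Pool.Agent.P.MP_657a03_nt.CW.Iface

/-! Step DER. -/

set_option autoImplicit false
set_option linter.unusedSectionVars false

namespace Pool.Agent.P.MP_657a03_nt.CW

open Polynomial
open scoped Classical

theorem p_DER :
    S_DER := by
  intro F K _ _ _ _ _ _ _ _
  have := Algebra.FormallyEtale.of_isLocalization (Rₘ := RatFunc F) (nonZeroDivisors F[X])
  have := Algebra.FormallyEtale.of_isSeparable (RatFunc F) K
  have := Algebra.FormallyEtale.comp F[X] (RatFunc F) K
  let d0 : Derivation F F[X] K := (Algebra.linearMap F[X] K).compDer Polynomial.derivative'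
  refine ⟨(d0.liftKaehlerDifferential.liftBaseChange K ∘ₗ
    (KaehlerDifferential.tensorKaehlerEquivOfFormallyEtale F F[X] K).symm.toLinearMap).compDer
    (KaehlerDifferential.D F K), ?_⟩
  change d0.liftKaehlerDifferential.liftBaseChange K
    ((KaehlerDifferential.tensorKaehlerEquivOfFormallyEtale F F[X] K).symm
      (KaehlerDifferential.D F K _)) = 1
  rw [KaehlerDifferential.tensorKaehlerEquivOfFormallyEtale_symm_D_algebraMap]
  simp [d0]

end Pool.Agent.P.MP_657a03_nt.CW
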