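import Pool.Agent.P.MP_657a03_nt.CW.Iface

/-! Step DESC. -/

set_option autoImplicit false
set_option linter.unusedSectionVars false

namespace Pool.Agent.P.MP_657a03_nt.CW

open Polynomial
open scoped Classical

theorem p_DESC :
    S_DESC := by
  intro Ω ι _ Pp Γ h
  have key : ∀ j c : ℕ, ∀ v, Pp v → v.totalDegree = j →
      (v.support.filter fun ν => Finsupp.degree ν = j).card ≤ c → Γ := by
    intro j
    induction j using Nat.strong_induction_on with
    | _ j ihj =>
      intro c
      induction c using Nat.strong_induction_on with
      | _ c ihc =>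
        intro v hv hj hc
        rcases h v hv with hΓ | ⟨μ, w, h1, h2, h3, h4, h5, h6⟩
        · exact hΓ
        rcases lt_or_eq_of_le h4 with hlt | heq
        · exact ihj w.totalDegree (hj ▸ hlt) _ w h3 rfl le_rfl
        · have hμ : μ ∈ v.support.filter fun ν => Finsupp.degree ν = j :=
            Finset.mem_filter.2 ⟨MvPolynomial.mem_support_iff.2 h2, h1.trans hj⟩
          have hsub : (w.support.filter fun ν => Finsupp.degree ν = j) ⊆
              (v.support.filter fun ν => Finsupp.degree ν = j).erase μ := by
            intro ν hν
            obtain ⟨a, b⟩ := Finset.mem_filter.1 hν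
            have a' := MvPolynomial.mem_support_iff.1 a
            refine Finset.mem_erase.2 ⟨fun e => a' (e ▸ h5), Finset.mem_filter.2 ⟨?_, b⟩⟩
            exact MvPolynomial.mem_support_iff.2 fun e => a' (h6 ν (b.trans hj.symm) e)
          have hlt := (Finset.card_le_card hsub).trans_lt (Finset.card_erase_lt_of_mem hμ)
          exact ihc _ (hlt.trans_le hc) w h3 (heq.trans hj) le_rfl
  exact fun v hv => key _ _ v hv rfl le_rfl

end Pool.Agent.P.MP_657a03_nt.CW
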