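import Pool.Agent.P.MP_657a03_nt.CW.Iface

/-! Step DIV. -/

set_option autoImplicit false
set_option linter.unusedSectionVars false

namespace Pool.Agent.P.MP_657a03_nt.CW

open Polynomial
open scoped Classical

theorem p_DIV (hFROB : S_FROB) (hRAD : S_RAD) (hKILL : S_KILL) :
    S_DIV := by
  intro F K _ _ _ _ _ _ _ _ _ _ R s D θ P hR hθ hm hP hs x
  refine hRAD F K R s D θ P hR hθ hP hs _ fun I hI hPI => ?_
  obtain ⟨E, _, _, π, hπ⟩ := exists_resHom F R I
  have h0 : aeval (π θ) P = 0 := by rw [aeval_algHom_apply, hπ]; exact hPI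
  obtain ⟨σ, hσ⟩ := hFROB F K R s D θ P E π hR hθ hm hP hs h0
  obtain ⟨σR, hσR⟩ := hR.exists_act σ
  have key : ∀ i : ℕ, π (σR^[i] x) = pw (Fintype.card F) (π x) (P.natDegree * i) ∧
      (σR^[i] x : K) = (σ ^ i) x := fun i => by
    induction i with
    | zero => simp
    | succ i ih =>
      rw [Function.iterate_succ_apply', hσ _ _ (hσR _), ih.1, ← pw_add, hσR, ih.2, pow_succ']
      exact ⟨rfl, rfl⟩
  obtain ⟨k1, k2⟩ := key (Fintype.card (K ≃ₐ[RatFunc F] K))
  rw [pow_card_eq_one] at k2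
  rw [show σR^[Fintype.card (K ≃ₐ[RatFunc F] K)] x = x from Subtype.ext k2] at k1
  rw [← hπ, map_carlitz]
  exact hKILL F E _ _ P _ hm hP h0 Fintype.card_pos k1.symm

end Pool.Agent.P.MP_657a03_nt.CW
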