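import Pool.Agent.P.MP_657a03_nt.CW.Iface

/-! Step ENT. -/

set_option autoImplicit false
set_option linter.unusedSectionVars false

namespace Pool.Agent.P.MP_657a03_nt.CW

open Polynomial
open scoped Classical

namespace ENTx

theorem eval_fin {E : Type} [CommRing E] {c : E[X]} {κ : ℕ} (h : c.natDegree ≤ κ) (x : E) :
    ∑ i : Fin (κ + 1), x ^ (i : ℕ) * c.coeff i = c.eval x := by
  rw [eval_eq_sum_range' (Nat.lt_succ_of_le h),
    Fin.sum_univ_eq_sum_range (fun i => x ^ i * c.coeff i)]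
  exact Finset.sum_congr rfl fun i _ => mul_comm _ _

theorem row_prod (F : Type) {E G : Type} [Field F] [Fintype F] [Field E] [Algebra F E]
    [Fintype G] (θ : E) (u w : G → E) (e r n : ℕ) (μ : G ⊕ G →₀ ℕ) (hμ : Finsupp.degree μ ≤ n)
    (hP : Pd (Fintype.card F) θ r ≠ 0) (i : ℕ) :
    ent (Fintype.card F) θ u w e r n μ i = pw (Fintype.card F) θ r ^ i *
      (Pd (Fintype.card F) θ r ^ n * μ.prod fun j k => row F θ u w e r j ^ k) := by
  have hb : ∑ g, μ (Sum.inr g) ≤ n := by
    rw [Finsupp.degree_eq_sum, Fintype.sum_sum_type] at hμ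
    omega
  obtain ⟨m, hm⟩ := Nat.exists_eq_add_of_le hb
  have hm' : n - ∑ g, μ (Sum.inr g) = m := by omega
  rw [ent, hm', Finsupp.prod_fintype _ _ (fun _ => pow_zero _), Fintype.prod_sum_type]
  simp only [row, Sum.elim_inl, Sum.elim_inr, div_pow, Finset.prod_div_distrib,
    Finset.prod_pow_eq_pow_sum]
  rw [hm, pow_add]
  have := pow_ne_zero (∑ g, μ (Sum.inr g)) hP
  field_simp

end ENTx

theorem p_ENT :
    S_ENT := by
  intro F E G _ _ _ _ _ θ u w e n κ S hS
  refine ⟨fun r v hP hv => ?_, fun μ0 v hv => ?_, fun z => ?_⟩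
  · rw [ev, eval₂Hom_eq_sum _ _ (fun μ h => (hS μ).2 h) hv.1, Finset.mul_sum,
      ← Finset.sum_coe_sort S, Fintype.sum_prod_type]
    refine Finset.sum_congr rfl fun μ _ => ?_
    rw [coe_evalRingHom, ← ENTx.eval_fin (hv.2 μ), Finset.sum_mul, Finset.mul_sum]
    refine Finset.sum_congr rfl fun i _ => ?_
    rw [ENTx.row_prod F θ u w e r n μ ((hS μ).1 μ.2) hP]
    ring
  · rw [Fintype.sum_prod_type, Finset.sum_eq_single μ0, ← ENTx.eval_fin (hv.2 μ0)]
    · simp
    · intro μ _ h
      simp [h]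
    · simp
  · have hc : ∀ μ : G ⊕ G →₀ ℕ, MvPolynomial.coeff μ (∑ ν : S, MvPolynomial.monomial ν.1
        (∑ i : Fin (κ + 1), monomial (i : ℕ) (z (ν, i)) : E[X])) =
        if h : μ ∈ S then ∑ i : Fin (κ + 1), monomial (i : ℕ) (z (⟨μ, h⟩, i)) else 0 := by
      intro μ
      rw [MvPolynomial.coeff_sum]
      split_ifs with h
      · rw [Finset.sum_eq_single ⟨μ, h⟩]
        · rw [MvPolynomial.coeff_monomial, if_pos rfl]
        · intro ν _ hν
          rw [MvPolynomial.coeff_monomial, if_neg fun e' => hν (Subtype.ext e')]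
        · simp
      · refine Finset.sum_eq_zero fun ν _ => ?_
        rw [MvPolynomial.coeff_monomial, if_neg fun (e' : ν.1 = μ) => h (e' ▸ ν.2)]
    refine ⟨∑ ν : S, MvPolynomial.monomial ν.1
        (∑ i : Fin (κ + 1), monomial (i : ℕ) (z (ν, i)) : E[X]),
      ⟨totalDegree_le_iff.2 fun μ h => ?_, fun μ => ?_⟩, fun j => ?_⟩
    rotate_left
    · rw [hc]
      split_ifs with h
      · exact natDegree_sum_le_of_forall_le _ _ fun i _ =>
          (natDegree_monomial_le _).trans (Nat.lt_succ_iff.1 i.2)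
      · simp
    · rw [hc, dif_pos j.1.2, finsetSum_coeff, Finset.sum_eq_single j.2]
      · simp
      · intro i _ hi
        rw [coeff_monomial, if_neg fun e' => hi (Fin.ext e')]
      · simp
    · rw [hc] at h
      by_contra h'
      exact h (dif_neg fun hμ => h' ((hS μ).1 hμ))

end Pool.Agent.P.MP_657a03_nt.CW
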