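import Pool.Agent.P.MP_657a03_nt.CW.Iface

/-! Step EV. -/

set_option autoImplicit false
set_option linter.unusedSectionVars false

namespace Pool.Agent.P.MP_657a03_nt.CW

open scoped Classical

namespace EVx

open MvPolynomial

variable {Ω ι : Type} [Field Ω]

theorem pd (τ : Ω →+* Ω) (l : Ω) (u : ι → Ω) (g : ι) (w : MvPolynomial ι Ω) :
    pderiv g (Tm τ (fun _ => l) u w) = C l * Tm τ (fun _ => l) u (pderiv g w) := by
  induction w using MvPolynomial.induction_on with
  | C a => simp only [Tm_C, pderiv_C, map_zero, mul_zero]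
  | add a b ha hb => simp only [map_add, ha, hb, mul_add]
  | mul_X a i ha =>
    rw [map_mul, pderiv_mul, pderiv_mul, ha, Tm_X, map_add, map_add, pderiv_C_mul, pderiv_C,
      map_mul, map_mul, Tm_X]
    by_cases e : i = g
    · rw [e, pderiv_X_self, map_one]
      ring
    · rw [pderiv_X_of_ne e, map_zero]
      ring

theorem deg_pd (g : ι) (v : MvPolynomial ι Ω) (D : ℕ) (h : v.totalDegree ≤ D + 1) :
    (pderiv g v).totalDegree ≤ D := by
  refine totalDegree_le_iff.2 fun μ hμ => ?_
  rw [coeff_pderiv] at hμ
  have := totalDegree_le_iff.1 h _ (left_ne_zero_of_mul hμ)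
  rw [map_add, Finsupp.degree_single] at this
  omega

theorem tm_expand (p : ℕ) [Fact p.Prime] [CharP Ω p] (τ : Ω →+* Ω) (l : Ω) (u : ι → Ω)
    (w : MvPolynomial ι Ω) : Tm τ (fun _ => l) u (expand p w) =
      expand p (Tm τ (fun _ => l ^ p) (fun i => u i ^ p) w) := by
  induction w using MvPolynomial.induction_on with
  | C a => simp only [expand_C, Tm_C]
  | add a b ha hb => simp only [map_add, ha, hb]
  | mul_X a i ha =>
    rw [map_mul, map_mul, map_mul, map_mul, ha, expand_X, map_pow, Tm_X, Tm_X, add_pow_char,
      map_add, map_mul, expand_C, expand_C, expand_X, mul_pow, map_pow, map_pow]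

theorem hd_pow [Fintype ι] {p : ℕ} (hp : 1 ≤ p) {τ : Ω →+* Ω} {l : Ω} {u : ι → Ω}
    (h : HD p τ l u) : HD p τ (l ^ p) fun i => u i ^ p := by
  refine ⟨pow_ne_zero _ h.ne, fun j f hj e => ?_, fun a c f hc e => ?_⟩
  · rw [← pow_mul] at e
    exact h.h1 _ f (Nat.mul_pos hp hj) e
  · simp only [← pow_mul, ← pow_succ'] at e
    exact h.h2 (a + 1) c f hc e

end EVx

open EVx MvPolynomial in
theorem p_EV (hTRI : S_TRI) (hEXP : S_EXP) :
    S_EV := by
  intro Ω ι _ _ p hp _ τ
  have p2 : 2 ≤ p := hp.out.two_le
  have key : ∀ (D : ℕ) (l : Ω) (u : ι → Ω), HD p τ l u → ∀ (v : MvPolynomial ι Ω) (κ : Ω),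
      v.totalDegree ≤ D → Tm τ (fun _ => l) u v = C κ * v → ∃ c, v = C c := by
    intro D
    induction D with
    | zero => exact fun l u _ v κ hv _ => ⟨_, totalDegree_eq_zero_iff_eq_C.1 (by omega)⟩
    | succ D ih =>
      intro l u h v κ hv e
      have a1 : ∀ g, C l * Tm τ (fun _ => l) u (pderiv g v) = C κ * pderiv g v := fun g => by
        rw [← pd, e, pderiv_C_mul]
      have a2 : ∀ g, ∃ c, pderiv g v = C c := fun g =>
        ih l u h _ (l⁻¹ * κ) (deg_pd g v D hv) (by
          rw [map_mul, mul_assoc, ← a1, ← mul_assoc, ← map_mul, inv_mul_cancel₀ h.ne, map_one,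
            one_mul])
      choose c hc using a2
      have a3 : ∀ g, l * τ (c g) = κ * c g := fun g => by
        have := a1 g
        rw [hc, Tm_C, ← map_mul, ← map_mul] at this
        exact C_injective _ _ this
      obtain ⟨w, hw⟩ := hEXP Ω ι p (v - ∑ g, C (c g) * X g) fun i => by
        rw [map_sub, map_sum, hc, Finset.sum_eq_single i (fun g _ hg => by
          rw [pderiv_C_mul, pderiv_X_of_ne hg, mul_zero]) (fun a => absurd (Finset.mem_univ i) a),
          pderiv_C_mul, pderiv_X_self, mul_one, sub_self]
      have hv' : v = expand p w + ∑ g, C (c g) * X g := by rw [← hw, sub_add_cancel]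
      have a4 : Tm τ (fun _ => l ^ p) (fun i => u i ^ p) w + C (∑ g, τ (c g) * u g) =
          C κ * w := by
        refine expand_injective (n := p) (by omega) ?_
        rw [map_add, map_mul, expand_C, expand_C, ← tm_expand]
        rw [hv', map_add, map_sum, mul_add, Finset.mul_sum] at e
        have a5 : ∀ g, Tm τ (fun _ => l) u (C (c g) * X g) =
            C κ * (C (c g) * X g) + C (τ (c g) * u g) := fun g => by
          rw [map_mul, Tm_C, Tm_X, ← mul_assoc, ← map_mul, ← a3, map_mul, map_mul]
          ring
        simp only [a5, Finset.sum_add_distrib] at e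
        rw [map_sum]
        linear_combination e
      by_cases z : ∀ g, c g = 0
      · simp only [z, map_zero, zero_mul, Finset.sum_const_zero, add_zero] at a4 hv'
        have a6 : w.totalDegree ≤ D := by
          rw [hv', totalDegree_expand] at hv
          by_contra k
          have : (D + 1) * 2 ≤ w.totalDegree * p := Nat.mul_le_mul (by omega) p2
          omega
        obtain ⟨c', rfl⟩ := ih _ _ (hd_pow (by omega) h) w κ a6 a4
        exact ⟨c', by rw [hv', expand_C]⟩
      · exfalso
        obtain ⟨g0, hg⟩ := not_forall.1 z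
        have t0 : τ (c g0) ≠ 0 := (map_ne_zero τ).2 hg
        have hl := h.ne
        have hκ : κ = l * τ (c g0) / c g0 := by rw [a3, mul_div_cancel_right₀ _ hg]
        by_cases j0 : w.totalDegree = 0
        · rw [totalDegree_eq_zero_iff_eq_C.1 j0, Tm_C, ← map_add, ← map_mul] at a4
          have a7 := C_injective _ _ a4
          generalize coeff 0 w = f at a7
          have a8 : ∀ g, τ (c g) = τ (c g0) * (c g / c g0) := fun g => by
            refine mul_left_cancel₀ hl ?_
            rw [a3, hκ]
            field_simp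
          have := h.h2 0 (fun g => c g / c g0) (f / c g0)
            (fun g => by rw [map_div₀, a8 g, mul_div_cancel_left₀ _ t0]) (by
              refine mul_left_cancel₀ t0 ?_
              simp only [pow_zero, pow_one]
              rw [mul_add, map_div₀, mul_div_cancel₀ _ t0, Finset.mul_sum]
              simp only [← mul_assoc, ← a8]
              rw [a7, hκ]
              field_simp) g0
          rw [div_self hg] at this
          exact one_ne_zero this
        · obtain ⟨μ, h1, h2⟩ := exists_top (v := w) (fun k => j0 (by rw [k, totalDegree_zero]))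
          have a7 := congrArg (coeff μ) a4
          have m0 : (0 : ι →₀ ℕ) ≠ μ := fun k => j0 (by rw [← h1, ← k, map_zero])
          rw [coeff_add, coeff_C, if_neg m0, add_zero, coeff_C_mul,
            (hTRI Ω Ω ι τ _ _ w _ le_rfl).2 μ h1, Finsupp.prod, Finset.prod_pow_eq_pow_sum,
            ← Finsupp.degree_apply, h1, ← pow_mul] at a7
          have a8 : 2 * 1 ≤ p * w.totalDegree := Nat.mul_le_mul p2 (by omega)
          obtain ⟨j, hj⟩ : ∃ j, p * w.totalDegree = j + 1 := ⟨p * w.totalDegree - 1, by omega⟩
          rw [hj, hκ] at a7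
          refine div_ne_zero h2 hg (h.h1 j (coeff μ w / c g0) (by omega) ?_)
          rw [map_div₀]
          field_simp
          field_simp at a7
          refine mul_left_cancel₀ hl ?_
          linear_combination a7
  exact fun l u h v κ e => key _ l u h v κ le_rfl e

end Pool.Agent.P.MP_657a03_nt.CW
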