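import Pool.Agent.P.MP_657a03_nt.CW.Iface

/-! Step EXP. -/

set_option autoImplicit false
set_option linter.unusedSectionVars false

namespace Pool.Agent.P.MP_657a03_nt.CW

open Polynomial
open scoped Classical

theorem p_EXP :
    S_EXP := by
  intro Ω ι _ p hp _ v hv
  have key : ∀ μ ∈ v.support, ∀ i, p ∣ μ i := by
    intro μ hμ i
    by_cases h0 : μ i = 0
    · rw [h0]; exact dvd_zero p
    · have e : (μ - Finsupp.single i 1) + Finsupp.single i 1 = μ := by
        refine tsub_add_cancel_of_le ?_
        rw [Finsupp.single_le_iff]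
        omega
      have h := MvPolynomial.coeff_pderiv (i := i) v (μ - Finsupp.single i 1)
      rw [hv i, MvPolynomial.coeff_zero, e] at h
      have hc : MvPolynomial.coeff μ v ≠ 0 := MvPolynomial.mem_support_iff.1 hμ
      have h2 := (mul_eq_zero.1 h.symm).resolve_left hc
      have h3 : (μ - Finsupp.single i 1 : ι →₀ ℕ) i + 1 = μ i := by
        simp only [Finsupp.coe_tsub, Pi.sub_apply, Finsupp.single_eq_same]
        omega
      rw [← CharP.cast_eq_zero_iff Ω p, ← h3]
      push_cast
      exact h2
  refine ⟨∑ μ ∈ v.support, MvPolynomial.monomial (μ.mapRange (· / p) (Nat.zero_div p))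
    (MvPolynomial.coeff μ v), ?_⟩
  rw [map_sum]
  conv_lhs => rw [v.as_sum]
  refine Finset.sum_congr rfl fun μ hμ => ?_
  rw [MvPolynomial.expand_monomial]
  congr 2
  ext i
  simp only [Finsupp.smul_apply, Finsupp.mapRange_apply, smul_eq_mul]
  exact (Nat.mul_div_cancel' (key μ hμ i)).symm

end Pool.Agent.P.MP_657a03_nt.CW
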