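import Pool.Agent.P.MP_657a03_nt.CW.Iface

/-! Step FROB. -/

set_option autoImplicit false
set_option linter.unusedSectionVars false

namespace Pool.Agent.P.MP_657a03_nt.CW

open Polynomial
open scoped Classical

namespace FROBx

theorem abstract (A L K B E : Type) [CommRing A] [IsDomain A] [CommRing B] [Field L] [Field K]
    [Field E] [Algebra A L] [IsFractionRing A L] [Algebra A B] [Algebra B K] [Algebra L K]
    [Algebra A K] [IsScalarTower A L K] [IsScalarTower A B K] [IsIntegrallyClosed A]
    [IsNoetherianRing A] [IsIntegralClosure B A K] [FiniteDimensional L K] [IsGalois L K]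
    (φ : B →+* E) (hfin : Finite (A ⧸ (RingHom.ker φ).under A)) :
    ∃ σ : K ≃ₐ[L] K, ∀ x y : B, algebraMap B K y = σ (algebraMap B K x) →
      φ y = φ x ^ Nat.card (A ⧸ (RingHom.ker φ).under A) := by
  have : IsDomain B := (IsIntegralClosure.algebraMap_injective B A K).isDomain
  have : IsFractionRing B K := IsIntegralClosure.isFractionRing_of_finite_extension A L K B
  have : Module.Finite A B := IsIntegralClosure.finite A L K B
  have hinv : Algebra.IsInvariant A B (B ≃ₐ[A] B) := Algebra.isInvariant_of_isGalois' A L K B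
  have : Finite (B ≃ₐ[A] B) := Finite.of_equiv _ (galRestrict A L K B).toEquiv
  have : (RingHom.ker φ).IsPrime := RingHom.ker_isPrime φ
  have : Finite (B ⧸ RingHom.ker φ) := by
    have : Module.Finite (A ⧸ (RingHom.ker φ).under A) (B ⧸ RingHom.ker φ) :=
      Module.Finite.of_restrictScalars_finite A _ _
    exact Module.finite_of_finite (A ⧸ (RingHom.ker φ).under A)
  obtain ⟨τ, hτ⟩ := IsArithFrobAt.exists_of_isInvariant A (B ≃ₐ[A] B) (RingHom.ker φ)
  refine ⟨(galRestrict A L K B).symm τ, fun x y hy => ?_⟩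
  rw [galRestrict_symm_algebraMap_apply] at hy
  have hy' : y = τ x := IsIntegralClosure.algebraMap_injective B A K hy
  have h := hτ x
  rw [RingHom.mem_ker, map_sub, map_pow, sub_eq_zero] at h
  rw [hy']
  exact h

theorem card_quot (F : Type) [Field F] [Fintype F] (P : F[X]) (hP : P.Monic) :
    Finite (F[X] ⧸ Ideal.span {P}) ∧
      Nat.card (F[X] ⧸ Ideal.span {P}) = Fintype.card F ^ P.natDegree := by
  have : Module.Finite F (F[X] ⧸ Ideal.span {P}) := (AdjoinRoot.powerBasis hP.ne_zero).finite
  refine ⟨Module.finite_of_finite F, ?_⟩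
  rw [Module.natCard_eq_pow_finrank (K := F), finrank_quotient_span_eq_natDegree,
    Nat.card_eq_fintype_card]

end FROBx

theorem p_FROB (hROOT : S_ROOT) :
    S_FROB := by
  intro F K _ _ _ _ _ _ _ _ _ _ R s D θ P E _ _ π hp hθ hP hirr hs hPθ
  let j : integralClosure F[X] K →+* R :=
    ((integralClosure F[X] K).val : integralClosure F[X] K →+* K).codRestrict R.toSubring
      (fun x => hp.mem_of_isIntegral x.2)
  have hj : ∀ x, (j x : K) = x := fun _ => rfl
  let φ : integralClosure F[X] K →+* E := (π : R →+* E).comp j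
  have hφ : ∀ a : F[X], φ (algebraMap F[X] _ a) = aeval (π θ) a := by
    intro a
    have h1 : j (algebraMap F[X] _ a) = aeval θ a := by
      apply Subtype.ext
      rw [hj]
      have := aeval_algHom_apply R.val θ a
      simp only [Subalgebra.coe_val] at this
      rw [← this, hθ, aeval_theta]
      rfl
    change π (j _) = _
    rw [h1, aeval_algHom_apply]
  obtain ⟨-, -, -, -, hdvd⟩ := hROOT F E (π θ) P hP hirr hPθ
  have hund : (RingHom.ker φ).under F[X] = Ideal.span {P} := by
    ext a
    rw [Ideal.under_def, Ideal.mem_comap, RingHom.mem_ker, hφ, Ideal.mem_span_singleton]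
    refine ⟨hdvd a, ?_⟩
    rintro ⟨b, rfl⟩
    rw [map_mul, hPθ, zero_mul]
  obtain ⟨hf, hc⟩ := FROBx.card_quot F P hP
  obtain ⟨σ, hσ⟩ := FROBx.abstract F[X] (RatFunc F) K (integralClosure F[X] K) E φ
    (by rw [hund]; exact hf)
  rw [hund, hc] at hσ
  refine ⟨σ, fun x y hy => ?_⟩
  obtain ⟨H, hH⟩ := (hp.mem x).1 x.2
  have hH' : IsIntegral F[X] (algebraMap F[X] K s ^ H * (y : K)) := by
    have := hH.map ((σ : K →ₐ[RatFunc F] K).restrictScalars F[X])
    rw [hy]
    simpa [gal_algebraMap] using this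
  have hps : aeval (π θ) s ≠ 0 := fun h => hs (hdvd s h)
  have hfix : aeval (π θ) s = aeval (π θ) s ^ Fintype.card F ^ P.natDegree := by
    have := hσ (algebraMap F[X] _ s) (algebraMap F[X] _ s) (gal_algebraMap σ s).symm
    rwa [hφ] at this
  have hsplit : ∀ (z : R) (hz : IsIntegral F[X] (algebraMap F[X] K s ^ H * (z : K))),
      φ ⟨_, hz⟩ = aeval (π θ) s ^ H * π z := by
    intro z hz
    have h1 : j ⟨_, hz⟩ = j (algebraMap F[X] _ s) ^ H * z := by
      apply Subtype.ext
      rw [hj]
      push_cast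
      rw [hj]
      rfl
    rw [← hφ]
    change π (j _) = π (j _) ^ H * π z
    rw [h1, map_mul, map_pow]
  have h := hσ ⟨_, hH⟩ ⟨_, hH'⟩ (by
    change algebraMap F[X] K s ^ H * (y : K) = σ (algebraMap F[X] K s ^ H * (x : K))
    rw [map_mul, map_pow, gal_algebraMap, hy])
  rw [hsplit, hsplit, mul_pow, ← pow_mul, mul_comm H, pow_mul, ← hfix] at h
  exact mul_left_cancel₀ (pow_ne_zero H hps) h

end Pool.Agent.P.MP_657a03_nt.CW
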