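import Pool.Agent.P.MP_657a03_nt.CW.Iface

/-! Step GLOB. -/

set_option autoImplicit false
set_option linter.unusedSectionVars false

namespace Pool.Agent.P.MP_657a03_nt.CW

open Polynomial
open scoped Classical

namespace GLOBx

theorem arith (n M M0 d : ℕ) (hM : M ≤ M0)
    (hd : ((M0 + 1) * n + 2) * (M + (M + 1) * M * n + 1) ≤ d) :
    1 ≤ d / ((M0 + 1) * n + 2) ∧ d - d / ((M0 + 1) * n + 2) + d / ((M0 + 1) * n + 2) = d ∧
      M + (M + 1) * (n * (d / ((M0 + 1) * n + 2)) + M * n) ≤ d - d / ((M0 + 1) * n + 2) := by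
  have hc : 0 < (M0 + 1) * n + 2 := by omega
  have h1 : M + (M + 1) * M * n + 1 ≤ d / ((M0 + 1) * n + 2) := by
    rw [Nat.le_div_iff_mul_le hc, mul_comm]; exact hd
  have h2 : d / ((M0 + 1) * n + 2) * ((M0 + 1) * n + 2) ≤ d := Nat.div_mul_le_self _ _
  have h3 : d / ((M0 + 1) * n + 2) ≤ d := Nat.div_le_self _ _
  generalize d / ((M0 + 1) * n + 2) = k at h1 h2 h3 ⊢
  refine ⟨by omega, by omega, ?_⟩
  have h4 : (M + 1) * (n * k) ≤ k * ((M0 + 1) * n) := by
    calc (M + 1) * (n * k) = k * ((M + 1) * n) := by ring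
      _ ≤ k * ((M0 + 1) * n) := by gcongr
  have h5 : (M + 1) * (n * k + M * n) = (M + 1) * (n * k) + (M + 1) * M * n := by ring
  have h6 : k * ((M0 + 1) * n + 2) = k * ((M0 + 1) * n) + 2 * k := by ring
  omega

theorem bound (n M k e d Q : ℕ) (hk : k ≤ d) (he : e ≤ d) :
    (n * k + 2 * n) * ((e + 1) * Q) * (M * (n * k + 1) + 1) ≤
      3 * n * (M * n + M + 1) * (d + 1) ^ 3 * Q := by
  have h1 : n * k + 2 * n ≤ 3 * n * (d + 1) := by
    have : n * k ≤ n * d := Nat.mul_le_mul_left _ hk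
    nlinarith [Nat.zero_le (n * d)]
  have h2 : M * (n * k + 1) + 1 ≤ (M * n + M + 1) * (d + 1) := by
    have : M * (n * k) ≤ M * (n * d) := Nat.mul_le_mul_left _ (Nat.mul_le_mul_left _ hk)
    nlinarith [Nat.zero_le (M * d), Nat.zero_le (M * n), Nat.zero_le d]
  calc (n * k + 2 * n) * ((e + 1) * Q) * (M * (n * k + 1) + 1)
      ≤ (3 * n * (d + 1)) * ((d + 1) * Q) * ((M * n + M + 1) * (d + 1)) := by gcongr
    _ = 3 * n * (M * n + M + 1) * (d + 1) ^ 3 * Q := by ring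

theorem pw_ne {F K : Type} [Field F] [Fintype F] [Field K] [Algebra F K] [Algebra F[X] K]
    [Algebra (RatFunc F) K] [IsScalarTower F[X] (RatFunc F) K] (j : ℕ) (hj : 0 < j) :
    pw (Fintype.card F) (algebraMap F[X] K X) j ≠ algebraMap F[X] K X := by
  intro h
  rw [pw, ← map_pow] at h
  have h1 := congrArg natDegree (algebraMap_inj (F := F) (K := K) h)
  rw [natDegree_X_pow, natDegree_X] at h1
  have h2 : 1 < Fintype.card F ^ j := Nat.one_lt_pow hj.ne' Fintype.one_lt_card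
  omega

theorem kill {F K E : Type} [Field F] [Field K] [Algebra F K] [Algebra F[X] K]
    [IsScalarTower F F[X] K] [Field E] [Algebra F E] (R : Subalgebra F K) (θ Δ : R)
    (hθ : (θ : K) = algebraMap F[X] K X) (a : F[X]) (g : F[X][X])
    (h : algebraMap F[X] K a = (Δ : K) * aeval (Δ : K) g) (π : R →ₐ[F] E) (hπ : π Δ = 0) :
    aeval (π θ) a = 0 := by
  have hval : ∀ b : F[X], R.val (aeval θ b) = algebraMap F[X] K b := by
    intro b
    rw [← aeval_algHom_apply, ← aeval_theta, ← hθ]; rfl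
  have h1 : aeval θ a = Δ * g.eval₂ (aeval θ : F[X] →ₐ[F] R).toRingHom Δ := by
    apply Subtype.ext
    have h2 : R.val (g.eval₂ (aeval θ : F[X] →ₐ[F] R).toRingHom Δ) = aeval (Δ : K) g := by
      have h3 := hom_eval₂ g (aeval θ : F[X] →ₐ[F] R).toRingHom R.val.toRingHom Δ
      have h4 : R.val.toRingHom.comp (aeval θ : F[X] →ₐ[F] R).toRingHom = algebraMap F[X] K :=
        RingHom.ext hval
      rw [h4] at h3
      exact h3
    change R.val (aeval θ a) = R.val (Δ * _)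
    rw [map_mul, h2, hval, h]; rfl
  rw [aeval_algHom_apply, h1, map_mul, hπ, zero_mul]

end GLOBx

theorem p_GLOB (hSET : S_SET) (hCORE : S_CORE) (hHT : S_HT) (hROOT : S_ROOT) :
    S_GLOB := by
  intro n
  refine ⟨((n + 1) ^ (n + n) + 1) * n + 2, by omega, ?_⟩
  intro F K G _ _ _ _ _ _ _ _ _ _ _ R θ u w hn hθ hind
  obtain ⟨S, hS, hSc⟩ := hSET (G ⊕ G) n
  rw [Fintype.card_sum, hn] at hSc
  let Z : Finset R := insert 1 (insert θ (Finset.univ.image u ∪ Finset.univ.image w))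
  let V : Submodule F R := Submodule.span F (Z : Set R)
  obtain ⟨cH, hcH⟩ := hHT F K (Z.image fun x : R => (x : K))
  have hVmap : V.map R.val.toLinearMap =
      Submodule.span F ((Z.image fun x : R => (x : K) : Finset K) : Set K) := by
    rw [Submodule.map_span, Finset.coe_image]; rfl
  have h1V : (1 : R) ∈ V := Submodule.subset_span (by simp [Z])
  have hθV : θ ∈ V := Submodule.subset_span (by simp [Z])
  have huV : ∀ g, u g ∈ V := fun g => Submodule.subset_span (by simp [Z])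
  have hwV : ∀ g, w g ∈ V := fun g => Submodule.subset_span (by simp [Z])
  have hpw : ∀ j, 0 < j → pw (Fintype.card F) (θ : K) j ≠ θ := by
    intro j hj
    rw [hθ]; exact GLOBx.pw_ne j hj
  refine ⟨n * cH * (3 * n * (S.card * n + S.card + 1)),
    (((n + 1) ^ (n + n) + 1) * n + 2) * (S.card + (S.card + 1) * S.card * n + 1), ?_⟩
  intro d hd
  obtain ⟨hk1, hek, hle⟩ := GLOBx.arith n S.card _ d hSc hd
  have hkd : d / (((n + 1) ^ (n + n) + 1) * n + 2) ≤ d := Nat.div_le_self _ _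
  generalize d / (((n + 1) ^ (n + n) + 1) * n + 2) = k at hk1 hek hle hkd ⊢
  have key : ∀ σ0 : G, ∃ a : F[X], a ≠ 0 ∧
      a.natDegree ≤ cH * (3 * n * (S.card * n + S.card + 1) * (d + 1) ^ 3 *
        Fintype.card F ^ (d - k)) ∧
      ∀ (E : Type) [Field E] [Algebra F E] (π : R →ₐ[F] E),
        Exc F (π θ) (fun g => π (u g)) (fun g => π (w g)) σ0 d → aeval (π θ) a = 0 := by
    intro σ0
    obtain ⟨Δ, hΔV, hΔ0, hΔ⟩ := hCORE F K G R θ u w V σ0 (d - k) k S hind hpw
      (by rw [hn]; exact hS) hk1 (by rw [hn]; exact hle) h1V hθV huV hwV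
    rw [hn] at hΔV
    have hΔK := Submodule.mem_map_of_mem (f := R.val.toLinearMap) hΔV
    rw [Submodule.map_pow, hVmap] at hΔK
    obtain ⟨a, g, ha0, hdeg, hag⟩ := hcH _ (Δ : K) hΔK (fun h => hΔ0 (Subtype.ext h))
    refine ⟨a, ha0, hdeg.trans (Nat.mul_le_mul_left _
      (GLOBx.bound n S.card k (d - k) d _ hkd (Nat.sub_le _ _))), ?_⟩
    intro E _ _ π hE
    exact GLOBx.kill R θ Δ hθ a g hag π (hΔ E π (by rw [hek]; exact hE))
  choose a ha0 hadeg hakill using key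
  refine ⟨∏ σ0, a σ0, Finset.prod_ne_zero_iff.2 fun σ0 _ => ha0 σ0, ?_, ?_⟩
  · refine (natDegree_prod_le _ _).trans ?_
    refine (Finset.sum_le_card_nsmul _ _ _ fun σ0 _ => hadeg σ0).trans ?_
    rw [Finset.card_univ, hn, smul_eq_mul]
    exact le_of_eq (by ring)
  · intro P E _ _ π σ0 hP hirr hroot hE
    exact ((hROOT F E (π θ) P hP hirr hroot).2.2.2.2 _ (hakill σ0 E π hE)).trans
      (Finset.dvd_prod_of_mem _ (Finset.mem_univ σ0))

end Pool.Agent.P.MP_657a03_nt.CW
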