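import Pool.Agent.P.MP_657a03_nt.CW.Iface

/-! Step HB. -/

set_option autoImplicit false
set_option linter.unusedSectionVars false

namespace Pool.Agent.P.MP_657a03_nt.CW

open Polynomial
open scoped Classical

namespace HBx

variable {F R : Type} [CommRing F] [CommRing R] [Algebra F R] {V : Submodule F R}

theorem mul' {a b : ℕ} {x y : R} (hx : x ∈ V ^ a) (hy : y ∈ V ^ b) : x * y ∈ V ^ (a + b) := by
  rw [pow_add]
  exact Submodule.mul_mem_mul hx hy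

theorem pow' {a : ℕ} {x : R} (hx : x ∈ V ^ a) (k : ℕ) : x ^ k ∈ V ^ (a * k) := by
  rw [pow_mul]
  exact Submodule.pow_mem_pow _ hx k

theorem one' (h1 : (1 : R) ∈ V) (a : ℕ) : (1 : R) ∈ V ^ a := by
  simpa using Submodule.pow_mem_pow _ h1 a

theorem mono (h1 : (1 : R) ∈ V) {a b : ℕ} (h : a ≤ b) {x : R} (hx : x ∈ V ^ a) : x ∈ V ^ b := by
  obtain ⟨c, rfl⟩ := Nat.exists_eq_add_of_le h
  simpa using mul' hx (one' h1 c)

theorem pw' {x : R} (hx : x ∈ V) (q j : ℕ) : pw q x j ∈ V ^ (q ^ j) :=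
  Submodule.pow_mem_pow _ hx _

theorem hn' (h1 : (1 : R) ∈ V) {q : ℕ} (hq : 1 ≤ q) {θ u t : R} (hθ : θ ∈ V) (hu : u ∈ V)
    (e : ℕ) (ht : t ∈ V ^ (q ^ e)) (l : ℕ) (hl : l ≤ e) :
    hn (pw q θ) (pw q u) t l ∈ V ^ (l * q ^ e) := by
  induction l with
  | zero => simp
  | succ l ih =>
    have a : q ^ l ≤ q ^ e := Nat.pow_le_pow_right hq (by omega)
    rw [hn_succ, add_mul, one_mul]
    exact add_mem (mul' (ih (by omega)) (sub_mem ht (mono h1 a (pw' hθ q l))))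
      (mono h1 (by omega) (pw' hu q l))

theorem Pd' (h1 : (1 : R) ∈ V) {q : ℕ} (hq : 1 ≤ q) {θ : R} (hθ : θ ∈ V) (r : ℕ) :
    Pd q θ r ∈ V ^ (r * q ^ r) := by
  induction r with
  | zero => exact one' h1 _
  | succ r ih =>
    have a : 1 ≤ q ^ (r + 1) := Nat.one_le_pow _ _ hq
    have b : θ ∈ V ^ (q ^ (r + 1)) := mono h1 a (by simpa using hθ)
    have c := mul' (sub_mem (pw' hθ q (r + 1)) b) (pow' ih q)
    rw [show q ^ (r + 1) + r * q ^ r * q = (r + 1) * q ^ (r + 1) by ring] at c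
    exact c

theorem Bn' (h1 : (1 : R) ∈ V) {q : ℕ} (hq : 1 ≤ q) {θ u w : R} (hθ : θ ∈ V) (hu : u ∈ V)
    (hw : w ∈ V) (r : ℕ) : Bn q θ u w r ∈ V ^ ((r + 1) * q ^ r) := by
  induction r with
  | zero => simpa [Bn] using hw
  | succ r ih =>
    have a : 1 ≤ q ^ (r + 1) := Nat.one_le_pow _ _ hq
    have b : u ∈ V ^ (q ^ (r + 1)) := mono h1 a (by simpa using hu)
    have c := mul' b (pow' (Pd' h1 hq hθ r) q)
    have d := pow' ih q
    rw [show q ^ (r + 1) + r * q ^ r * q = (r + 1) * q ^ (r + 1) by ring] at c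
    rw [show (r + 1) * q ^ r * q = (r + 1) * q ^ (r + 1) by ring] at d
    exact mono h1 (Nat.mul_le_mul_right _ (Nat.le_succ _)) (sub_mem d c)

theorem prod' (h1 : (1 : R) ∈ V) {G : Type} (s : Finset G) {h : ℕ} (a : G → R) (m : G → ℕ)
    (ha : ∀ g, a g ∈ V ^ h) : ∏ g ∈ s, a g ^ m g ∈ V ^ (h * ∑ g ∈ s, m g) := by
  induction s using Finset.induction_on with
  | empty => simpa using one' h1 0
  | insert g s hg ih =>
    rw [Finset.prod_insert hg, Finset.sum_insert hg, mul_add]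
    exact mul' (pow' (ha g) _) ih

end HBx

open HBx in
theorem p_HB :
    S_HB := by
  intro F R G _ _ _ _ V q θ u w e r n κ μ i hq h1 hθ hu hw hr hμ hi
  have a0 : q ^ r ≤ q ^ e := Nat.pow_le_pow_right hq hr
  have a1 : pw q θ r ∈ V ^ (q ^ e) := mono h1 a0 (pw' hθ q r)
  have b1 : pw q θ r ∈ V ^ ((e + 1) * q ^ e) :=
    mono h1 (Nat.le_mul_of_pos_left _ (Nat.succ_pos e)) a1
  have b2 : ∀ g, nn q θ (u g) e r ∈ V ^ ((e + 1) * q ^ e) := fun g =>
    mono h1 (Nat.mul_le_mul_right _ (Nat.le_succ _)) (hn' h1 hq hθ (hu g) e a1 e le_rfl)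
  have b3 : ∀ g, Bn q θ (u g) (w g) r ∈ V ^ ((e + 1) * q ^ e) := fun g =>
    mono h1 (Nat.mul_le_mul (by omega) a0) (Bn' h1 hq hθ (hu g) (hw g) r)
  have b4 : Pd q θ r ∈ V ^ ((e + 1) * q ^ e) :=
    mono h1 (Nat.mul_le_mul (by omega) a0) (Pd' h1 hq hθ r)
  rw [Finsupp.degree_eq_sum, Fintype.sum_sum_type] at hμ
  have c := mul' (mul' (mul' (pow' b1 i) (prod' h1 Finset.univ _ (fun g => μ (Sum.inl g)) b2))
    (prod' h1 Finset.univ _ (fun g => μ (Sum.inr g)) b3)) (pow' b4 (n - ∑ g, μ (Sum.inr g)))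
  refine mono h1 ?_ c
  rw [← mul_add, ← mul_add, ← mul_add, mul_comm]
  exact Nat.mul_le_mul_right _ (by omega)

end Pool.Agent.P.MP_657a03_nt.CW
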