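import Pool.Agent.P.MP_657a03_nt.CW.Iface

/-! Step HH. -/

set_option autoImplicit false
set_option linter.unusedSectionVars false

namespace Pool.Agent.P.MP_657a03_nt.CW

open Polynomial
open scoped Classical

theorem p_HH (hTOR : S_TOR) (hINDP : S_INDP) (hDEN : S_DEN) :
    S_HH := by
  intro F K G Ω _ _ _ _ _ _ _ _ p _ _ τ θ u hτ hI
  obtain ⟨d1, d2, d3⟩ := hDEN F K Ω τ hτ
  have inj : Function.Injective (algebraMap K[X] Ω) := IsFractionRing.injective K[X] Ω
  have fix : ∀ b : F[X], τ (algebraMap K[X] Ω (b.map (algebraMap F K))) =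
      algebraMap K[X] Ω (b.map (algebraMap F K)) := fun b => by
    rw [hτ, Polynomial.map_map]
    congr 2
    ext c
    simp [fr_algebraMap]
  have nz : ∀ b : F[X], b ≠ 0 → algebraMap K[X] Ω (b.map (algebraMap F K)) ≠ 0 := fun b hb =>
    (map_ne_zero_iff _ inj).2 (Polynomial.map_ne_zero hb)
  refine ⟨(map_ne_zero_iff _ inj).2 (X_sub_C_ne_zero θ), fun j f hj h => ?_,
    fun n c f hc h => ?_⟩
  · refine d3 f ((X - C θ) ^ j) ?_ (by rw [map_pow]; exact h)
    rw [natDegree_pow, natDegree_X_sub_C]; omega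
  · have k : ∀ i, ∃ a b : F[X], b ≠ 0 ∧ c i * algebraMap K[X] Ω (b.map (algebraMap F K)) =
        algebraMap K[X] Ω (a.map (algebraMap F K)) := fun i => by
      obtain ⟨b, g, hb, e⟩ := d2 (c i) 0 1 (by simp [hc i])
      obtain ⟨a, rfl⟩ := d1 g (inj (by rw [← hτ, ← e, map_mul, hc, fix]))
      exact ⟨a, b, hb, e⟩
    choose a b hb e using k
    have hB : ∏ i, b i ≠ 0 := Finset.prod_ne_zero_iff.2 fun i _ => hb i
    have e' : ∀ i, c i * algebraMap K[X] Ω ((∏ i, b i).map (algebraMap F K)) =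
        algebraMap K[X] Ω ((a i * ∏ j ∈ Finset.univ.erase i, b j).map (algebraMap F K)) :=
      fun i => by
        rw [← Finset.mul_prod_erase _ _ (Finset.mem_univ i), Polynomial.map_mul, map_mul,
          ← mul_assoc, e, Polynomial.map_mul, map_mul]
    generalize ∏ i, b i = B at hB e'
    obtain ⟨A, hA⟩ : ∃ A : G → F[X], ∀ i, c i * algebraMap K[X] Ω (B.map (algebraMap F K)) =
      algebraMap K[X] Ω ((A i).map (algebraMap F K)) := ⟨_, e'⟩
    have h1 : τ (f * algebraMap K[X] Ω (B.map (algebraMap F K))) +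
        algebraMap K[X] Ω (∑ i, (A i).map (algebraMap F K) * C (u i ^ p ^ n)) =
        algebraMap K[X] Ω ((X - C θ) ^ p ^ n) *
          (f * algebraMap K[X] Ω (B.map (algebraMap F K))) := by
      rw [map_mul, fix, map_pow, ← mul_assoc, ← h, add_mul, map_sum, Finset.sum_mul]
      congr 1
      refine Finset.sum_congr rfl fun i _ => ?_
      rw [map_mul, ← hA, C_pow, map_pow]; ring
    obtain ⟨b', g, hb', eg⟩ := d2 _ _ _ h1
    haveI : CharP K p := charP_of_injective_algebraMap (algebraMap F K).injective p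
    have h2 := hTOR F K G (θ ^ p ^ n) (fun i => u i ^ p ^ n) (p ^ n) (fun i => b' * A i) g
      (hINDP F K G p θ u hI n) (Nat.one_le_pow _ _ (Fact.out : p.Prime).pos) (inj (by
        rw [map_add, ← hτ, C_pow, ← sub_pow_char_pow, map_mul, ← eg, map_mul τ, fix,
          ← mul_assoc, ← h1, add_mul, map_sum, map_sum, Finset.sum_mul]
        congr 1
        refine Finset.sum_congr rfl fun i _ => ?_
        rw [Polynomial.map_mul, map_mul, map_mul, map_mul]; ring))
    intro i
    have h3 : A i = 0 := (mul_eq_zero.1 (congrFun h2 i)).resolve_left hb'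
    have h4 := hA i
    rw [h3, Polynomial.map_zero, map_zero] at h4
    exact (mul_eq_zero.1 h4).resolve_right (nz B hB)

end Pool.Agent.P.MP_657a03_nt.CW
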