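import Pool.Agent.P.MP_657a03_nt.CW.Iface

/-! Step HT. -/

set_option autoImplicit false
set_option linter.unusedSectionVars false

namespace Pool.Agent.P.MP_657a03_nt.CW

open Polynomial
open scoped Classical

namespace HTx

variable {F K : Type} [Field F] [Field K] [Algebra F K] [Algebra F[X] K] [IsScalarTower F F[X] K]
  [Algebra (RatFunc F) K] [IsScalarTower F[X] (RatFunc F) K] {ι : Type} [Fintype ι]
  [DecidableEq ι]

/-- The matrix of `s ^ H * x` has polynomial entries of degree at most `d * H`. -/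
def Good (L : K →ₐ[RatFunc F] Matrix ι ι (RatFunc F)) (s : F[X]) (d H : ℕ) (x : K) : Prop :=
  ∃ M : Matrix ι ι F[X], (∀ i j, (M i j).natDegree ≤ d * H) ∧
    M.map (algebraMap F[X] (RatFunc F)) = L (algebraMap F[X] K s ^ H * x)

variable (L : K →ₐ[RatFunc F] Matrix ι ι (RatFunc F)) (s : F[X]) (d : ℕ)

theorem L_poly (p : F[X]) (x : K) :
    L (algebraMap F[X] K p * x) = algebraMap F[X] (RatFunc F) p • L x := by
  rw [IsScalarTower.algebraMap_apply F[X] (RatFunc F) K, ← Algebra.smul_def, map_smul]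

theorem good_zero (H : ℕ) : Good L s d H 0 := by
  refine ⟨0, fun i j => by simp, ?_⟩
  simp

theorem good_add (H : ℕ) (x y : K) (hx : Good L s d H x) (hy : Good L s d H y) :
    Good L s d H (x + y) := by
  obtain ⟨M, hM, eM⟩ := hx
  obtain ⟨N, hN, eN⟩ := hy
  refine ⟨M + N, fun i j => ?_, ?_⟩
  · rw [Matrix.add_apply]
    exact (natDegree_add_le _ _).trans (max_le (hM i j) (hN i j))
  · rw [Matrix.map_add _ (map_add _), eM, eN, mul_add, map_add]

theorem good_smul (H : ℕ) (c : F) (x : K) (hx : Good L s d H x) : Good L s d H (c • x) := by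
  obtain ⟨M, hM, eM⟩ := hx
  refine ⟨(C c : F[X]) • M, fun i j => ?_, ?_⟩
  · rw [Matrix.smul_apply, smul_eq_mul]
    exact (natDegree_C_mul_le _ _).trans (hM i j)
  · have h1 : algebraMap F[X] K s ^ H * (c • x) =
        algebraMap F[X] K (C c) * (algebraMap F[X] K s ^ H * x) := by
      rw [Algebra.smul_def, IsScalarTower.algebraMap_apply F F[X] K, Polynomial.algebraMap_eq]
      ring
    rw [h1, L_poly, ← eM]
    ext i j
    simp [Matrix.map_apply]

theorem good_one : Good L s d 0 1 := by
  refine ⟨1, fun i j => ?_, ?_⟩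
  · rw [Matrix.one_apply]
    split_ifs <;> simp
  · rw [Matrix.map_one _ (map_zero _) (map_one _)]
    simp

theorem good_mul (H H' : ℕ) (x y : K) (hx : Good L s d H x) (hy : Good L s d H' y) :
    Good L s d (H + H') (x * y) := by
  obtain ⟨M, hM, eM⟩ := hx
  obtain ⟨N, hN, eN⟩ := hy
  refine ⟨M * N, fun i j => ?_, ?_⟩
  · rw [Matrix.mul_apply]
    refine natDegree_sum_le_of_forall_le _ _ fun l _ => ?_
    refine natDegree_mul_le.trans ?_
    have := hM i l
    have := hN l j
    rw [mul_add]
    omega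
  · rw [Matrix.map_mul, eM, eN, ← map_mul]
    congr 1
    ring

theorem good_span (Z : Set K) (hZ : ∀ z ∈ Z, Good L s d 1 z) (x : K)
    (hx : x ∈ Submodule.span F Z) : Good L s d 1 x := by
  induction hx using Submodule.span_induction with
  | mem z hz => exact hZ z hz
  | zero => exact good_zero L s d 1
  | add x y _ _ hx hy => exact good_add L s d 1 x y hx hy
  | smul c x _ hx => exact good_smul L s d 1 c x hx

theorem good_pow (V : Submodule F K) (hV : ∀ z ∈ V, Good L s d 1 z) (H : ℕ) :
    ∀ x ∈ V ^ H, Good L s d H x := by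
  induction H with
  | zero =>
    intro x hx
    rw [pow_zero, Submodule.mem_one] at hx
    obtain ⟨c, rfl⟩ := hx
    rw [Algebra.algebraMap_eq_smul_one]
    exact good_smul L s d 0 c 1 (good_one L s d)
  | succ H ih =>
    intro x hx
    rw [pow_succ] at hx
    refine Submodule.mul_induction_on hx (fun m hm n hn => ?_) (fun x y hx hy => ?_)
    · exact good_mul L s d H 1 m n (ih m hm) (hV n hn)
    · exact good_add L s d _ x y hx hy

theorem exists_good (Z : Finset K) :
    ∃ (s : F[X]) (d : ℕ), s ≠ 0 ∧ ∀ z ∈ Z, Good L s d 1 z := by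
  obtain ⟨b, hb⟩ := IsLocalization.exist_integer_multiples (nonZeroDivisors F[X])
    (Z ×ˢ (Finset.univ : Finset (ι × ι))) (fun t : K × ι × ι => L t.1 t.2.1 t.2.2)
  have hb' : ∀ t : K × ι × ι, ∃ p : F[X], t ∈ Z ×ˢ (Finset.univ : Finset (ι × ι)) →
      algebraMap F[X] (RatFunc F) p = (b : F[X]) • L t.1 t.2.1 t.2.2 := by
    intro t
    by_cases ht : t ∈ Z ×ˢ (Finset.univ : Finset (ι × ι))
    · obtain ⟨p, hp⟩ := hb t ht
      exact ⟨p, fun _ => hp⟩
    · exact ⟨0, fun h => absurd h ht⟩
  choose P hP using hb'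
  refine ⟨b, (Z ×ˢ (Finset.univ : Finset (ι × ι))).sup fun t => (P t).natDegree,
    nonZeroDivisors.ne_zero b.2, fun z hz => ⟨Matrix.of fun i j => P (z, i, j), fun i j => ?_, ?_⟩⟩
  · rw [mul_one]
    exact Finset.le_sup (f := fun t => (P t).natDegree)
      (b := (z, i, j)) (by simp [hz])
  · rw [pow_one, L_poly]
    ext i j
    rw [Matrix.map_apply, Matrix.of_apply, hP (z, i, j) (by simp [hz]), Matrix.smul_apply,
      Algebra.smul_def, smul_eq_mul]

theorem det_deg (M : Matrix ι ι F[X]) (e : ℕ) (hM : ∀ i j, (M i j).natDegree ≤ e) :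
    M.det.natDegree ≤ Fintype.card ι * e := by
  rw [Matrix.det_apply]
  refine natDegree_sum_le_of_forall_le _ _ fun σ _ => ?_
  refine (natDegree_smul_le _ _).trans ?_
  refine (natDegree_prod_le _ _).trans ?_
  refine (Finset.sum_le_sum fun i _ => hM (σ i) i).trans ?_
  simp

theorem final (hL : Function.Injective L) (hs : s ≠ 0) (H : ℕ) (x : K) (hx : Good L s d H x)
    (h0 : x ≠ 0) : ∃ (a : F[X]) (g : F[X][X]), a ≠ 0 ∧ a.natDegree ≤ (Fintype.card ι * d) * H ∧
      algebraMap F[X] K a = x * aeval x g := by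
  obtain ⟨M, hM, eM⟩ := hx
  have hinj : Function.Injective (algebraMap F[X] K) := by
    rw [IsScalarTower.algebraMap_eq F[X] (RatFunc F) K, RingHom.coe_comp]
    exact (algebraMap (RatFunc F) K).injective.comp (IsFractionRing.injective F[X] (RatFunc F))
  set y : K := algebraMap F[X] K s ^ H * x with hy
  have hy0 : y ≠ 0 :=
    mul_ne_zero (pow_ne_zero _ (by simpa using (map_ne_zero_iff _ hinj).2 hs)) h0
  have hdet : M.det ≠ 0 := by
    intro h
    have h1 : IsUnit (L y) := (IsUnit.mk0 y hy0).map L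
    rw [Matrix.isUnit_iff_isUnit_det, ← eM] at h1
    have h2 : (M.map (algebraMap F[X] (RatFunc F))).det = algebraMap F[X] (RatFunc F) M.det :=
      ((algebraMap F[X] (RatFunc F)).map_det M).symm
    rw [h2, h, map_zero] at h1
    exact not_isUnit_zero h1
  have hch : aeval y M.charpoly = 0 := by
    apply hL
    have h1 := aeval_algHom_apply (L.restrictScalars F[X]) y M.charpoly
    have h2 := aeval_algHom_apply
      ((Algebra.ofId F[X] (RatFunc F)).mapMatrix (m := ι)) M M.charpoly
    rw [Matrix.aeval_self_charpoly, map_zero] at h2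
    have h3 : (Algebra.ofId F[X] (RatFunc F)).mapMatrix (m := ι) M =
        (L.restrictScalars F[X]) y := eM
    rw [h3, h1] at h2
    rw [map_zero]
    exact h2
  have hsign := Matrix.det_eq_sign_charpoly_coeff M
  refine ⟨M.charpoly.coeff 0, - C (s ^ H) * (divX M.charpoly).comp (C (s ^ H) * X), ?_, ?_, ?_⟩
  · intro h
    rw [h, mul_zero] at hsign
    exact hdet hsign
  · have h1 : M.charpoly.coeff 0 = (-1) ^ Fintype.card ι * M.det := by
      rw [hsign, ← mul_assoc, ← mul_pow]
      simp
    rw [h1]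
    refine natDegree_mul_le.trans ?_
    have h2 : ((-1 : F[X]) ^ Fintype.card ι).natDegree = 0 := by
      simp [natDegree_pow]
    rw [h2, zero_add, mul_assoc]
    exact det_deg M _ hM
  · have h1 := congrArg (aeval y) (divX_mul_X_add M.charpoly)
    rw [hch, map_add, map_mul, aeval_X, aeval_C] at h1
    have h2 : aeval x (C (s ^ H) * X : F[X][X]) = y := by
      rw [map_mul, aeval_C, aeval_X, map_pow]
    rw [map_mul, map_neg, aeval_C, aeval_comp, h2, map_pow]
    have h3 : x * (-algebraMap F[X] K s ^ H * aeval y (divX M.charpoly)) =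
        - (aeval y (divX M.charpoly) * y) := by
      rw [hy]; ring
    rw [h3]
    exact eq_neg_of_add_eq_zero_right h1

end HTx

theorem p_HT :
    S_HT := by
  intro F K _ _ _ _ _ _ _ _ Z
  let b := Module.finBasis (RatFunc F) K
  let L := Algebra.leftMulMatrix b
  obtain ⟨s, d, hs, hZ⟩ := HTx.exists_good L Z
  refine ⟨Fintype.card (Fin (Module.finrank (RatFunc F) K)) * d, fun H Δ hΔ h0 => ?_⟩
  exact HTx.final L s d (Algebra.leftMulMatrix_injective b) hs H Δ
    (HTx.good_pow L s d _ (HTx.good_span L s d _ fun z hz => hZ z hz) H Δ hΔ) h0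

end Pool.Agent.P.MP_657a03_nt.CW
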