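import Pool.Agent.P.MP_657a03_nt.CW.Iface

/-! Step KILL. -/

set_option autoImplicit false
set_option linter.unusedSectionVars false

namespace Pool.Agent.P.MP_657a03_nt.CW

open Polynomial
open scoped Classical

namespace KILLx

variable {F E : Type} [Field F] [Fintype F] [Field E] [Algebra F E]

theorem pw_eq (x : E) (j : ℕ) : pw (Fintype.card F) x j = (fr F E ^ j) x := by
  rw [RingHom.coe_pow, fr_iter, pw]

theorem pw_smul (c : F) (x : E) (j : ℕ) :
    pw (Fintype.card F) (c • x) j = algebraMap F E c * pw (Fintype.card F) x j := by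
  induction j with
  | zero => rw [pw_zero, pw_zero, Algebra.smul_def]
  | succ j ih => rw [pw_succ, ih, mul_pow, fr_algebraMap, pw_succ]

theorem pw_plus (x y : E) (j : ℕ) :
    pw (Fintype.card F) (x + y) j = pw (Fintype.card F) x j + pw (Fintype.card F) y j := by
  simp only [pw_eq, map_add]

theorem pw_step (θ x : E) (j : ℕ) : pw (Fintype.card F) (θ * x + x ^ Fintype.card F) j =
    pw (Fintype.card F) θ j * pw (Fintype.card F) x j + pw (Fintype.card F) x (j + 1) := by
  rw [pw_succ]
  simp only [pw_eq, map_add, map_mul, map_pow]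

theorem top (θ y : E) (l : ℕ) :
    (NP F θ y (l + 1)).natDegree ≤ l ∧ (NP F θ y (l + 1)).coeff l = y := by
  induction l with
  | zero => simp [NP, hn_succ]
  | succ l ih =>
    have e : NP F θ y (l + 1 + 1) = NP F θ y (l + 1) * (X - C (pw (Fintype.card F) θ (l + 1))) +
      C (pw (Fintype.card F) y (l + 1)) := rfl
    rw [e, natDegree_add_C, coeff_add, coeff_mul_X_sub_C, ih.2, coeff_C_succ,
      coeff_eq_zero_of_natDegree_lt (Nat.lt_succ_of_le ih.1)]
    exact ⟨natDegree_mul_le.trans (by rw [natDegree_X_sub_C]; omega), by simp⟩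

theorem key (θ : E) (l : ℕ) (hθ : pw (Fintype.card F) θ l = θ) (G : F[X]) :
    ∀ x : E, pw (Fintype.card F) x l = x →
      PP F θ l - 1 ∣ NP F θ (carlitz θ G x) l - G.map (algebraMap F E) * NP F θ x l := by
  induction G using Polynomial.induction_on with
  | C c =>
    intro x _
    have : NP F θ (c • x) l = C (algebraMap F E c) * NP F θ x l := by
      simp only [NP, pw_smul, C_mul]
      exact hn_mul_u _ _ _ _ _
    rw [carlitz_C, this, map_C, sub_self]
    exact dvd_zero _
  | add G G' h h' =>
    intro x hx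
    have : ∀ y z : E, NP F θ (y + z) l = NP F θ y l + NP F θ z l := fun y z => by
      simp only [NP, pw_plus, C_add]
      exact hn_add_u _ _ _ _ _
    rw [carlitz_add, this, Polynomial.map_add, add_mul, add_sub_add_comm]
    exact dvd_add (h x hx) (h' x hx)
  | monomial i c ih =>
    intro x hx
    have h1 : NP F θ (θ * x + x ^ Fintype.card F) l = X * NP F θ x l - C x * PP F θ l + C x := by
      have := hn_step (fun j => C (pw (Fintype.card F) θ j))
        (fun j => C (pw (Fintype.card F) x j)) X l
      simp only [pw_zero, hx] at this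
      simp only [NP, pw_step, C_add, C_mul]
      exact this
    have h2 := ih (θ * x + x ^ Fintype.card F) (by rw [pw_step, pw_succ, hx, hθ])
    rw [pow_succ, ← mul_assoc, carlitz_mul, carlitz_X, Polynomial.map_mul _ (q := X), map_X]
    rw [h1] at h2
    generalize (C c * X ^ i).map (algebraMap F E) = A at h2 ⊢
    convert dvd_sub h2 (dvd_mul_left (PP F θ l - 1) (A * C x)) using 1
    ring

end KILLx

theorem p_KILL (hROOT : S_ROOT) :
    S_KILL := by
  intro F E _ _ _ _ θ a P n hm hi h0 hn ha
  obtain ⟨h1, -, h2, -⟩ := hROOT F E θ P hm hi h0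
  have h3 : ∀ k, pw (Fintype.card F) θ (P.natDegree * k) = θ ∧
      PP F θ (P.natDegree * k) = P.map (algebraMap F E) ^ k := fun k => by
    induction k with
    | zero => simp [PP]
    | succ k ih =>
      refine ⟨by rw [Nat.mul_succ, pw_add, ih.1, h1], ?_⟩
      rw [pow_succ, ← ih.2, h2, Nat.mul_succ]
      simp only [PP, pr, Finset.prod_range_add, pw_add, ih.1]
  have h4 := KILLx.key θ _ (h3 n).1 (P ^ n - 1) a ha
  rw [Polynomial.map_sub, Polynomial.map_pow, Polynomial.map_one, ← (h3 n).2] at h4
  have h5 := (dvd_sub_left (dvd_mul_right _ _)).1 h4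
  have h6 : (PP F θ (P.natDegree * n) - 1).natDegree = P.natDegree * n := by
    rw [← C_1, natDegree_sub_C, (h3 n).2, natDegree_pow, natDegree_map, mul_comm]
  obtain ⟨l, hl⟩ : ∃ l, P.natDegree * n = l + 1 :=
    ⟨_, (Nat.succ_pred_eq_of_pos (Nat.mul_pos hi.natDegree_pos hn)).symm⟩
  rw [hl] at h5 h6
  obtain ⟨h7, h8⟩ := KILLx.top (F := F) θ (carlitz θ (P ^ n - 1) a) l
  rw [← h8, eq_zero_of_dvd_of_natDegree_lt h5 (by omega), coeff_zero]

end Pool.Agent.P.MP_657a03_nt.CW
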