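import Pool.Agent.P.MP_657a03_nt.CW.Iface

/-! Step LOG. -/

set_option autoImplicit false
set_option linter.unusedSectionVars false

namespace Pool.Agent.P.MP_657a03_nt.CW

open Polynomial
open scoped Classical

open IsUltrametricDist in
/-- Pairs of congruent integers. -/
def LOGx.cg (L : Type) [NormedField L] [IsUltrametricDist L] : Subring (L × L) where
  carrier := {p | ‖p.1‖ ≤ 1 ∧ ‖p.2‖ ≤ 1 ∧ ‖p.1 - p.2‖ < 1}
  one_mem' := by simp
  zero_mem' := by simp
  neg_mem' := fun {a} h => by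
    simpa only [Set.mem_ofPred_eq, Prod.fst_neg, Prod.snd_neg, norm_neg, neg_sub_neg,
      norm_sub_rev a.2] using h
  add_mem' := fun {a b} h k => ⟨(norm_add_le_max _ _).trans (max_le h.1 k.1),
    (norm_add_le_max _ _).trans (max_le h.2.1 k.2.1), by
      rw [Prod.fst_add, Prod.snd_add, add_sub_add_comm]
      exact (norm_add_le_max _ _).trans_lt (max_lt h.2.2 k.2.2)⟩
  mul_mem' := fun {a b} h k => ⟨(norm_mul_le _ _).trans (mul_le_one₀ h.1 (norm_nonneg _) k.1),
    (norm_mul_le _ _).trans (mul_le_one₀ h.2.1 (norm_nonneg _) k.2.1), by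
      rw [show (a * b).1 - (a * b).2 = a.1 * (b.1 - b.2) + (a.1 - a.2) * b.2 by simp; ring]
      refine (norm_add_le_max _ _).trans_lt (max_lt ?_ ?_) <;> rw [norm_mul]
      exacts [mul_lt_one_of_nonneg_of_lt_one_right h.1 (norm_nonneg _) k.2.2,
        mul_lt_one_of_nonneg_of_lt_one_left (norm_nonneg _) h.2.2 k.2.1]⟩

theorem p_LOG (hNRM : S_NRM) (hLOG1 : S_LOG1) :
    S_LOG := by
  intro F L G _ _ _ _ _ _ _ _ θ P y hm hi hd h1 h0 hy h
  obtain ⟨-, n2, n3, n4⟩ := hNRM F L θ P hm hi h1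
  have hQ := n2 (P ^ Fintype.card G - 1) fun e => hi.not_isUnit <| isUnit_of_dvd_one <|
    (dvd_sub_right (dvd_pow_self P Fintype.card_ne_zero)).1 e
  set z : G → G → L := fun σ τ =>
    (aeval θ P)⁻¹ * clog (Fintype.card F) θ (aeval θ P * y σ τ) with hz
  have hc : Matrix.det (Matrix.of fun σ τ => (y σ τ, z σ τ)) ∈ LOGx.cg L := by
    rw [Matrix.det_apply']
    refine sum_mem fun π _ => mul_mem (intCast_mem _ _) (prod_mem fun i _ => ?_)
    have e := hLOG1 L _ θ _ _ Fintype.one_lt_card h0 h1 (hy (π i) i) n3 (n4 hd)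
    refine ⟨hy _ _, ?_, (norm_sub_rev _ _).trans_lt e⟩
    have := IsUltrametricDist.norm_add_le_max (z (π i) i - y (π i) i) (y (π i) i)
    rw [sub_add_cancel] at this
    exact this.trans (max_le e.le (hy _ _))
  obtain ⟨c1, -, c2⟩ := hc
  rw [show ∀ a : L × L, a.1 = RingHom.fst L L a from fun _ => rfl, RingHom.map_det] at c1 c2
  rw [show ∀ a : L × L, a.2 = RingHom.snd L L a from fun _ => rfl, RingHom.map_det] at c2
  change ‖Matrix.det (Matrix.of y)‖ ≤ 1 at c1
  change ‖Matrix.det (Matrix.of y) - Matrix.det (Matrix.of z)‖ < 1 at c2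
  refine c1.lt_of_ne fun e => h ?_
  have e2 : ‖Matrix.det (Matrix.of z)‖ = 1 := by
    have := IsUltrametricDist.norm_add_eq_max_of_norm_ne_norm (x := Matrix.det (Matrix.of y))
      (y := -(Matrix.det (Matrix.of y) - Matrix.det (Matrix.of z)))
      (by rw [norm_neg, e]; exact c2.ne')
    rwa [norm_neg, e, max_eq_left c2.le, neg_sub, add_sub_cancel] at this
  rw [regOf, ← Matrix.det_smul, show (aeval θ P)⁻¹ • (Matrix.of fun σ τ =>
      (aeval θ (P ^ Fintype.card G - 1))⁻¹ * clog (Fintype.card F) θ (aeval θ P * y σ τ)) =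
      (aeval θ (P ^ Fintype.card G - 1))⁻¹ • Matrix.of z from
    Matrix.ext fun _ _ => mul_left_comm _ _ _, Matrix.det_smul, norm_mul, norm_pow, norm_inv, hQ, e2]
  simp

end Pool.Agent.P.MP_657a03_nt.CW
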