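import Pool.Agent.P.MP_657a03_nt.CW.Iface

/-! Step LOG1. -/

set_option autoImplicit false
set_option linter.unusedSectionVars false

namespace Pool.Agent.P.MP_657a03_nt.CW

open Polynomial
open scoped Classical

namespace LOG1x

theorem two_mul_le (q i : ℕ) (hq : 2 ≤ q) : 2 * (i + 1) ≤ q ^ (i + 1) := by
  have h1 : i + 1 ≤ 2 ^ i := Nat.lt_two_pow_self
  calc 2 * (i + 1) ≤ 2 * 2 ^ i := by omega
    _ = 2 ^ (i + 1) := by ring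
    _ ≤ q ^ (i + 1) := Nat.pow_le_pow_left hq _

theorem term_le {L : Type} [NormedField L] (q : ℕ) (θ P y : L) (hq : 2 ≤ q) (hP : P ≠ 0)
    (hP1 : ‖P‖ < 1) (hy : ‖y‖ ≤ 1) (h : ∀ j, ‖P‖ ≤ ‖θ - θ ^ q ^ (j + 1)‖)
    (h0 : ‖θ - θ ^ q ^ (0 + 1)‖ = 1) (i : ℕ) :
    ‖(P * y) ^ q ^ (i + 1) / ∏ j ∈ Finset.range (i + 1), (θ - θ ^ q ^ (j + 1))‖ ≤
      ‖P‖ ^ 2 * ‖P‖ ^ i := by
  have hp : 0 < ‖P‖ := norm_pos_iff.2 hP
  have hl : ‖P‖ ^ i ≤ ‖∏ j ∈ Finset.range (i + 1), (θ - θ ^ q ^ (j + 1))‖ := by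
    rw [Finset.prod_range_succ', norm_mul, h0, mul_one, norm_prod]
    calc ‖P‖ ^ i = ∏ _j ∈ Finset.range i, ‖P‖ := by simp
      _ ≤ _ := Finset.prod_le_prod (fun _ _ => hp.le) fun j _ => h (j + 1)
  have hn : ‖(P * y) ^ q ^ (i + 1)‖ ≤ ‖P‖ ^ (2 * (i + 1)) := by
    rw [norm_pow, norm_mul]
    calc (‖P‖ * ‖y‖) ^ q ^ (i + 1) ≤ ‖P‖ ^ q ^ (i + 1) :=
          pow_le_pow_left₀ (by positivity) (mul_le_of_le_one_right hp.le hy) _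
      _ ≤ _ := pow_le_pow_of_le_one hp.le hP1.le (two_mul_le q i hq)
  rw [norm_div, div_le_iff₀ ((pow_pos hp i).trans_le hl)]
  calc _ ≤ ‖P‖ ^ (2 * (i + 1)) := hn
    _ = ‖P‖ ^ 2 * ‖P‖ ^ i * ‖P‖ ^ i := by ring
    _ ≤ _ := mul_le_mul_of_nonneg_left hl (by positivity)

end LOG1x

theorem p_LOG1 :
    S_LOG1 := by
  intro L _ _ _ q θ P y hq hP hP1 hy h h0
  have hp : 0 < ‖P‖ := norm_pos_iff.2 hP
  have ht := LOG1x.term_le q θ P y hq hP hP1 hy h h0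
  have hs : Summable fun i : ℕ =>
      (P * y) ^ q ^ i / ∏ j ∈ Finset.range i, (θ - θ ^ q ^ (j + 1)) :=
    (summable_nat_add_iff 1).1 (Summable.of_norm_bounded
      ((summable_geometric_of_lt_one hp.le hP1).mul_left (‖P‖ ^ 2)) ht)
  have hb : ‖∑' i : ℕ, (P * y) ^ q ^ (i + 1) /
      ∏ j ∈ Finset.range (i + 1), (θ - θ ^ q ^ (j + 1))‖ ≤ ‖P‖ ^ 2 :=
    IsUltrametricDist.norm_tsum_le_of_forall_le_of_nonneg (by positivity) fun i =>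
      (ht i).trans (mul_le_of_le_one_right (by positivity) (pow_le_one₀ hp.le hP1.le))
  rw [clog, hs.tsum_eq_zero_add]
  simp only [pow_zero, pow_one, Finset.range_zero, Finset.prod_empty, div_one]
  rw [mul_add, ← mul_assoc, inv_mul_cancel₀ hP, one_mul, add_sub_cancel_left, norm_mul, norm_inv,
    inv_mul_lt_iff₀ hp]
  exact hb.trans_lt (by nlinarith)

end Pool.Agent.P.MP_657a03_nt.CW
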