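import Pool.Agent.P.MP_657a03_nt.CW.Iface

/-! Step MAIN. -/

set_option autoImplicit false
set_option linter.unusedSectionVars false

namespace Pool.Agent.P.MP_657a03_nt.CW

open Polynomial
open scoped Classical

theorem p_MAIN (hGLOB : S_GLOB) (hPACK : S_PACK) (hBAD : S_BAD) (hCNT : S_CNT) (hASY : S_ASY) :
    S_MAIN := by
  intro n
  obtain ⟨c, hc, hG⟩ := hGLOB n
  have hc0 : (0 : ℝ) < c := by exact_mod_cast hc
  refine ⟨1 / (2 * (c : ℝ)), by positivity, ?_⟩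
  intro F K _ _ _ _ _ _ _ _ hn θ η hθ hind
  let : Algebra F[X] K :=
    ((algebraMap (RatFunc F) K).comp (algebraMap F[X] (RatFunc F))).toAlgebra
  have : IsScalarTower F[X] (RatFunc F) K := IsScalarTower.of_algebraMap_eq fun _ => rfl
  have : IsScalarTower F F[X] K := IsScalarTower.of_algebraMap_eq fun x => by
    rw [IsScalarTower.algebraMap_apply F (RatFunc F) K,
      IsScalarTower.algebraMap_apply F F[X] (RatFunc F)]
    rfl
  have hθX : θ = algebraMap F[X] K X := by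
    rw [hθ, IsScalarTower.algebraMap_apply F[X] (RatFunc F) K, RatFunc.algebraMap_X]
  have hcard : Fintype.card (K ≃ₐ[RatFunc F] K) = n := by
    rw [← hn, ← IsGalois.card_aut_eq_finrank, Nat.card_eq_fintype_card]
  obtain ⟨R, s, D, hP, hη⟩ := hPACK F K η
  let θR : R := ⟨θ, hθX ▸ hP.algebraMap_mem X⟩
  let u : (K ≃ₐ[RatFunc F] K) → R := fun g => ⟨g η, hP.gal_mem g hη⟩
  let w : (K ≃ₐ[RatFunc F] K) → R := fun g => ⟨D (g η), hP.dmem _ (hP.gal_mem g hη)⟩
  obtain ⟨C, d1, hC⟩ := hG F K (K ≃ₐ[RatFunc F] K) R θR u w hcard hθX hind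
  have hq : 2 ≤ Fintype.card F := Fintype.one_lt_card
  obtain ⟨d2, hd2⟩ := hASY c (C + s.natDegree) (Fintype.card F) hc hq
  refine ⟨max 2 (max d1 d2), fun d hd => ?_⟩
  obtain ⟨a, ha, hdeg, hdiv⟩ := hC d (by omega)
  refine le_trans ?_ (hd2 d (by omega))
  have hpos : 1 ≤ (d + 1) ^ 3 * Fintype.card F ^ (d - d / c) := Nat.succ_le_of_lt (by positivity)
  have hle : (s * a).natDegree ≤
      (C + s.natDegree) * (d + 1) ^ 3 * Fintype.card F ^ (d - d / c) := by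
    refine natDegree_mul_le.trans ?_
    rw [mul_assoc] at hdeg ⊢
    nlinarith
  refine Nat.cast_le.2 (le_trans (hCNT F (s * a) _ (mul_ne_zero hP.ne ha) ?_) hle)
  rintro P ⟨hm, hi, hPd, L, _, _, _, ι, h1, h2⟩
  refine ⟨hm, hi, ?_⟩
  by_cases hs : P ∣ s
  · exact hs.mul_right a
  obtain ⟨E, _, _, π, σ0, hπ, hE⟩ := hBAD F K L ι R s D η θR u w P hP hθX (fun _ => rfl)
    (fun _ => rfl) hm hi (by omega) hs h1 (by rw [regOf, hcard]; exact h2)
  exact (hdiv P E π σ0 hm hi hπ (hPd ▸ hE)).mul_left s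

end Pool.Agent.P.MP_657a03_nt.CW
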