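import Pool.Agent.P.MP_657a03_nt.CW.Iface

/-! Step NRM. -/

set_option autoImplicit false
set_option linter.unusedSectionVars false

namespace Pool.Agent.P.MP_657a03_nt.CW

open Polynomial
open scoped Classical

namespace NRMx

variable {F L : Type} [Field F] [Fintype F] [NormedField L] [IsUltrametricDist L] [Algebra F L]

theorem norm_const (c : F) : ‖algebraMap F L c‖ ≤ 1 := by
  by_contra h
  push Not at h
  have h1 : (algebraMap F L c) ^ Fintype.card F = algebraMap F L c := by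
    rw [← map_pow, FiniteField.pow_card]
  have h2 : ‖algebraMap F L c‖ ^ Fintype.card F = ‖algebraMap F L c‖ := by
    rw [← norm_pow, h1]
  have h3 : ‖algebraMap F L c‖ ^ 1 < ‖algebraMap F L c‖ ^ Fintype.card F :=
    pow_lt_pow_right₀ h Fintype.one_lt_card
  rw [h2, pow_one] at h3
  exact lt_irrefl _ h3

theorem norm_theta (θ : L) (P : F[X]) (hm : P.Monic) (hi : Irreducible P)
    (h : ‖aeval θ P‖ < 1) : ‖θ‖ ≤ 1 := by
  by_contra hθ
  push Not at hθ
  have hd : 0 < P.natDegree := hi.natDegree_pos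
  have hs : aeval θ P = θ ^ P.natDegree
      + ∑ i ∈ Finset.range P.natDegree, algebraMap F L (P.coeff i) * θ ^ i := by
    conv_lhs => rw [hm.as_sum]
    simp [map_sum]
  have hlow : ‖∑ i ∈ Finset.range P.natDegree, algebraMap F L (P.coeff i) * θ ^ i‖
      ≤ ‖θ‖ ^ (P.natDegree - 1) := by
    apply IsUltrametricDist.norm_sum_le_of_forall_le_of_nonneg (by positivity)
    intro i hi'
    rw [norm_mul, norm_pow]
    have hi2 : i ≤ P.natDegree - 1 := by
      have := Finset.mem_range.mp hi'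
      omega
    calc ‖algebraMap F L (P.coeff i)‖ * ‖θ‖ ^ i ≤ 1 * ‖θ‖ ^ i :=
          mul_le_mul_of_nonneg_right (norm_const _) (by positivity)
      _ = ‖θ‖ ^ i := one_mul _
      _ ≤ ‖θ‖ ^ (P.natDegree - 1) := pow_le_pow_right₀ hθ.le hi2
  have hlt : ‖θ‖ ^ (P.natDegree - 1) < ‖θ‖ ^ P.natDegree :=
    pow_lt_pow_right₀ hθ (by omega)
  have hne : ‖θ ^ P.natDegree‖
      ≠ ‖∑ i ∈ Finset.range P.natDegree, algebraMap F L (P.coeff i) * θ ^ i‖ := by
    rw [norm_pow]
    exact (lt_of_le_of_lt hlow hlt).ne'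
  have heq := IsUltrametricDist.norm_add_eq_max_of_norm_ne_norm hne
  rw [← hs] at heq
  have h1 : (1 : ℝ) ≤ ‖θ‖ ^ P.natDegree := one_le_pow₀ hθ.le
  have h2 : ‖θ ^ P.natDegree‖ ≤ ‖aeval θ P‖ := by
    rw [heq]
    exact le_max_left _ _
  rw [norm_pow] at h2
  linarith

theorem norm_aeval (θ : L) (hθ : ‖θ‖ ≤ 1) (a : F[X]) : ‖aeval θ a‖ ≤ 1 := by
  rw [aeval_eq_sum_range]
  apply IsUltrametricDist.norm_sum_le_of_forall_le_of_nonneg zero_le_one
  intro i _
  rw [Algebra.smul_def, norm_mul, norm_pow]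
  exact mul_le_one₀ (norm_const _) (by positivity) (pow_le_one₀ (norm_nonneg _) hθ)

theorem norm_unit (θ : L) (hθ : ‖θ‖ ≤ 1) (P : F[X]) (hi : Irreducible P)
    (h : ‖aeval θ P‖ < 1) (a : F[X]) (ha : ¬ P ∣ a) : ‖aeval θ a‖ = 1 := by
  refine le_antisymm (norm_aeval θ hθ a) ?_
  by_contra hlt
  push Not at hlt
  obtain ⟨u, v, huv⟩ := (hi.coprime_iff_not_dvd).2 ha
  have h1 : aeval θ u * aeval θ P + aeval θ v * aeval θ a = 1 := by
    rw [← map_mul, ← map_mul, ← map_add, huv, map_one]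
  have h2 := IsUltrametricDist.norm_add_le_max (aeval θ u * aeval θ P) (aeval θ v * aeval θ a)
  rw [h1, norm_one, norm_mul, norm_mul] at h2
  have h3 : ‖aeval θ u‖ * ‖aeval θ P‖ < 1 :=
    lt_of_le_of_lt (mul_le_of_le_one_left (norm_nonneg _) (norm_aeval θ hθ u)) h
  have h4 : ‖aeval θ v‖ * ‖aeval θ a‖ < 1 :=
    lt_of_le_of_lt (mul_le_of_le_one_left (norm_nonneg _) (norm_aeval θ hθ v)) hlt
  exact absurd (lt_of_le_of_lt h2 (max_lt h3 h4)) (lt_irrefl _)

end NRMx

theorem p_NRM :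
    S_NRM := by
  intro F L _ _ _ _ _ θ P hm hi h
  have hθ := NRMx.norm_theta θ P hm hi h
  refine ⟨NRMx.norm_aeval θ hθ, NRMx.norm_unit θ hθ P hi h, ?_, ?_⟩
  · intro j
    have hg : θ - θ ^ Fintype.card F ^ (j + 1)
        = aeval θ (X - X ^ Fintype.card F ^ (j + 1) : F[X]) := by simp
    rw [hg]
    by_cases hd : P ∣ (X - X ^ Fintype.card F ^ (j + 1) : F[X])
    · obtain ⟨g, hg1⟩ := hd
      have hn : ¬ P ∣ g := by
        intro hPg
        have hder : derivative (X - X ^ Fintype.card F ^ (j + 1) : F[X]) = 1 := by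
          have hq : ((Fintype.card F ^ (j + 1) : ℕ) : F) = 0 := by
            rw [Nat.cast_pow, FiniteField.cast_card_eq_zero, zero_pow (Nat.succ_ne_zero j)]
          rw [derivative_sub, derivative_X, derivative_X_pow, hq]
          simp
        rw [hg1, derivative_mul] at hder
        have h1 : P ∣ 1 := by
          rw [← hder]
          exact dvd_add (Dvd.dvd.mul_left hPg _) (Dvd.intro _ rfl)
        exact hi.not_isUnit (isUnit_of_dvd_one h1)
      rw [hg1, map_mul, norm_mul, NRMx.norm_unit θ hθ P hi h g hn, mul_one]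
    · rw [NRMx.norm_unit θ hθ P hi h _ hd]
      exact h.le
  · intro h2
    have hg : θ - θ ^ Fintype.card F ^ (0 + 1)
        = aeval θ (X - X ^ Fintype.card F ^ (0 + 1) : F[X]) := by simp
    rw [hg]
    apply NRMx.norm_unit θ hθ P hi h
    intro hd
    have hd' : P ∣ (X ^ Nat.card F ^ 1 - X : F[X]) := by
      rw [Nat.card_eq_fintype_card]
      have := hd.neg_right
      rwa [neg_sub, zero_add] at this
    have h3 := (hi.natDegree_dvd_iff_dvd_X_pow_card_pow_sub_X).2 hd'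
    have := Nat.le_of_dvd one_pos h3
    omega

end Pool.Agent.P.MP_657a03_nt.CW
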