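import Pool.Agent.P.MP_657a03_nt.CW.Iface

/-! Step ONE. -/

set_option autoImplicit false
set_option linter.unusedSectionVars false

namespace Pool.Agent.P.MP_657a03_nt.CW

open Polynomial
open scoped Classical

theorem p_ONE (hSTA : S_STA) (hSTB : S_STB) (hSTAB : S_STAB) :
    S_ONE := by
  intro Ω ι ι' _ _ p _ _ τ l u l' u' ρ n S v hD h1 hc hS hv hne
  obtain ⟨U, hU1, hU2, hU3⟩ := hSTAB Ω ι' τ l' u' n S v hS hv
  have a1 : (1 : MvPolynomial ι Ω) ∈ U.map ρ.toLinearMap := by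
    refine hSTA Ω ι p τ l u _ (ρ v) hD ?_ ⟨v, hU1, rfl⟩ hne
    rintro _ ⟨w, hw, rfl⟩
    exact ⟨_, hU2 w hw, hc w⟩
  obtain ⟨x, hx, ex⟩ := a1
  have ex' : ρ x = 1 := ex
  have a2 : (1 : MvPolynomial ι' Ω) ∈ U := by
    refine hSTB Ω ι' τ l' u' U (LinearMap.ker ρ.toLinearMap) (x - 1) h1 hU2 ?_ ?_ ?_ ?_
    · intro w hw
      have hw' : ρ w = 0 := hw
      change ρ _ = 0
      rw [hc, hw', map_zero]
    · intro c hw
      have hw' : ρ (MvPolynomial.C c) = 0 := hw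
      rw [← MvPolynomial.algebraMap_eq, AlgHom.commutes, MvPolynomial.algebraMap_eq] at hw'
      exact MvPolynomial.C_eq_zero.1 hw'
    · change ρ _ = 0
      rw [map_sub, ex', map_one, sub_self]
    · rwa [add_sub_cancel]
  obtain ⟨a, ha⟩ := (Submodule.mem_span_range_iff_exists_fun Ω).1 (hU3 a2)
  exact ⟨a, by simpa only [MvPolynomial.smul_eq_C_mul] using ha.symm⟩

end Pool.Agent.P.MP_657a03_nt.CW
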