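import Pool.Agent.P.MP_657a03_nt.CW.Iface

/-! Step PACK. -/

set_option autoImplicit false
set_option linter.unusedSectionVars false

namespace Pool.Agent.P.MP_657a03_nt.CW

open Polynomial
open scoped Classical

theorem p_PACK (hDER : S_DER) :
    S_PACK := by
  intro F K _ _ _ _ _ _ _ _ _ η
  obtain ⟨D, hD⟩ := hDER F K
  have hfin : Module.Finite F[X] (integralClosure F[X] K) :=
    IsIntegralClosure.finite F[X] (RatFunc F) K _
  obtain ⟨G, hG⟩ := hfin.fg_top
  obtain ⟨s, hs, hi⟩ := exists_integral_multiples F[X] (RatFunc F) (L := K)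
    (insert η (G.image fun x : integralClosure F[X] K => D x))
  have hA : ∀ a : F[X], D (algebraMap F[X] K a) = algebraMap F[X] K (derivative a) := fun a => by
    rw [← aeval_theta (F := F) a, Derivation.map_aeval, hD, aeval_theta, smul_eq_mul, mul_one]
  have ia : ∀ a : F[X], IsIntegral F[X] (algebraMap F[X] K a) := fun _ => isIntegral_algebraMap
  have dint : ∀ x, IsIntegral F[X] x → IsIntegral F[X] (algebraMap F[X] K s * D x) := by
    intro x hx
    have : ∀ y : integralClosure F[X] K, y ∈ Submodule.span F[X] (G : Set (integralClosure F[X] K)) →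
        IsIntegral F[X] (algebraMap F[X] K s * D y) := fun y hy => by
      induction hy using Submodule.span_induction with
      | mem y hy =>
        rw [← Algebra.smul_def]
        exact hi _ (Finset.mem_insert_of_mem (Finset.mem_image_of_mem _ hy))
      | zero => simpa using isIntegral_zero
      | add y z _ _ hy hz =>
        rw [Subalgebra.coe_add, map_add, mul_add]; exact hy.add hz
      | smul a y _ hy =>
        have e : algebraMap F[X] K s * D ((a • y : integralClosure F[X] K) : K) =
            algebraMap F[X] K a * (algebraMap F[X] K s * D y) +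
              algebraMap F[X] K s * (y * algebraMap F[X] K (derivative a)) := by
          rw [Subalgebra.coe_smul, Algebra.smul_def, D.leibniz, hA, smul_eq_mul, smul_eq_mul]
          ring
        rw [e]
        exact ((ia a).mul hy).add ((ia s).mul (IsIntegral.mul y.2 (ia _)))
    exact this ⟨x, hx⟩ (hG ▸ Submodule.mem_top)
  let R : Subalgebra F K :=
    { carrier := {x | ∃ H : ℕ, IsIntegral F[X] (algebraMap F[X] K s ^ H * x)}
      mul_mem' := by
        rintro x y ⟨H, hH⟩ ⟨H', hH'⟩
        refine ⟨H + H', ?_⟩
        rw [pow_add, mul_mul_mul_comm]; exact hH.mul hH'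
      add_mem' := by
        rintro x y ⟨H, hH⟩ ⟨H', hH'⟩
        refine ⟨H + H', ?_⟩
        have e : algebraMap F[X] K s ^ (H + H') * (x + y) =
            algebraMap F[X] K s ^ H' * (algebraMap F[X] K s ^ H * x) +
              algebraMap F[X] K s ^ H * (algebraMap F[X] K s ^ H' * y) := by ring
        rw [e]
        exact (((ia s).pow _).mul hH).add (((ia s).pow _).mul hH')
      algebraMap_mem' := fun c => ⟨0, by
        rw [pow_zero, one_mul, IsScalarTower.algebraMap_apply F F[X] K]; exact ia _⟩ }
  refine ⟨R, s, D, ⟨hs, fun _ => Iff.rfl, hD, dint, ?_⟩, 1, ?_⟩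
  · rintro x ⟨H, hH⟩
    refine ⟨H + 1, ?_⟩
    have e : algebraMap F[X] K s ^ (H + 1) * D x =
        algebraMap F[X] K s * D (algebraMap F[X] K s ^ H * x) -
          algebraMap F[X] K (H * derivative s) * (algebraMap F[X] K s ^ H * x) := by
      rw [D.leibniz, D.leibniz_pow, hA, map_mul, map_natCast]
      cases H with
      | zero => simp
      | succ H => simp only [smul_eq_mul, nsmul_eq_mul, Nat.add_sub_cancel]; ring
    rw [e]
    exact (dint _ hH).sub ((ia _).mul hH)
  · rw [pow_one, ← Algebra.smul_def]
    exact hi _ (Finset.mem_insert_self _ _)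

end Pool.Agent.P.MP_657a03_nt.CW
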