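import Pool.Agent.P.MP_657a03_nt.CW.Iface

/-! Step RAD. -/

set_option autoImplicit false
set_option linter.unusedSectionVars false

namespace Pool.Agent.P.MP_657a03_nt.CW

open Polynomial
open scoped Classical

namespace RADx

/-- An element with a derivative that is prime to it generates a radical ideal. -/
theorem rad {O : Type} [CommRing O] [IsDedekindDomain O] (d : O → O) (p : O)
    (hm : ∀ a b, d (a * b) = a * d b + b * d a) (ha : ∀ a b, d (a + b) = d a + d b)
    (hp : IsCoprime p (d p)) (x : O) (m : ℕ) (h : p ∣ x ^ m) : p ∣ x := by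
  have hs : Squarefree (Ideal.span {p}) := by
    intro I hI
    by_contra hu
    obtain ⟨Q, hQ, hle⟩ := Ideal.exists_le_maximal I fun e => hu (Ideal.isUnit_iff.2 e)
    have h1 : p ∈ Q * Q :=
      Ideal.mul_mono hle hle (Ideal.le_of_dvd hI (Ideal.mem_span_singleton_self p))
    have h2 : d p ∈ Q := Submodule.mul_induction_on (C := fun z => d z ∈ Q) h1
      (fun a a' b b' => hm a b ▸ add_mem (Q.mul_mem_right _ a') (Q.mul_mem_right _ b'))
      fun a b a' b' => ha a b ▸ add_mem a' b'
    obtain ⟨u, v, e⟩ := hp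
    exact hQ.ne_top ((Ideal.eq_top_iff_one _).2
      (e ▸ add_mem (Q.mul_mem_left _ (Ideal.mul_le_right h1)) (Q.mul_mem_left _ h2)))
  rw [← Ideal.span_singleton_le_span_singleton, ← Ideal.dvd_iff_le] at h ⊢
  exact hs.isRadical m _ (by rwa [Ideal.span_singleton_pow])

end RADx

theorem p_RAD :
    S_RAD := by
  intro F K _ _ _ _ _ _ _ _ _ _ R s D θ P h hθ hP hs x hx
  have hD : IsDedekindDomain (integralClosure F[X] K) :=
    IsIntegralClosure.isDedekindDomain F[X] (RatFunc F) K _
  let d : integralClosure F[X] K → integralClosure F[X] K := fun z => ⟨_, h.dint z z.2⟩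
  have hd : d (algebraMap F[X] _ P) = algebraMap F[X] _ (s * derivative P) := by
    refine Subtype.ext ?_
    change algebraMap F[X] K s * D (algebraMap F[X] K P) = algebraMap F[X] K (s * derivative P)
    rw [← aeval_theta P, Derivation.comp_aeval_eq, h.dX, aeval_theta, smul_eq_mul, mul_one, map_mul]
  have key := RADx.rad d (algebraMap F[X] _ P)
    (fun a b => Subtype.ext (by
      change _ * D ((a : K) * b) = (a : K) * (_ * D b) + b * (_ * D a)
      rw [D.leibniz, smul_eq_mul, smul_eq_mul]; ring))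
    (fun a b => Subtype.ext (by
      change _ * D ((a : K) + b) = _ * D a + _ * D b
      rw [map_add, mul_add]))
    (by
      rw [hd]
      exact ((hP.coprime_iff_not_dvd.2 hs).mul_right
        (PerfectField.separable_of_irreducible hP)).map _)
  have hθP : ((aeval θ P : R) : K) = algebraMap F[X] K P := by
    rw [← aeval_theta, ← hθ]
    exact (aeval_algHom_apply R.val θ P).symm
  have hr : x ∈ (Ideal.span {aeval θ P}).radical := by
    rw [Ideal.radical_eq_sInf, Ideal.mem_sInf]
    intro I hI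
    exact hx _ hI.2 (hI.1 (Ideal.mem_span_singleton_self _))
  obtain ⟨m, hm⟩ := hr
  obtain ⟨y, hy⟩ := Ideal.mem_span_singleton.1 hm
  have hy' : (x : K) ^ m = algebraMap F[X] K P * y := by
    rw [← hθP]; exact_mod_cast congrArg Subtype.val hy
  obtain ⟨H, hH⟩ := (h.mem x).1 x.2
  obtain ⟨H', hH'⟩ := (h.mem y).1 y.2
  obtain ⟨z, hz⟩ := key (algebraMap F[X] _ s ^ H' * ⟨_, hH⟩) (m + 1)
    ⟨⟨_, hH'⟩ * algebraMap F[X] _ s ^ ((H' + H) * m) * ⟨_, hH⟩, Subtype.ext (by
      change (algebraMap F[X] K s ^ H' * (algebraMap F[X] K s ^ H * x)) ^ (m + 1) =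
        algebraMap F[X] K P * (algebraMap F[X] K s ^ H' * y * algebraMap F[X] K s ^ ((H' + H) * m) *
          (algebraMap F[X] K s ^ H * x))
      rw [mul_pow, mul_pow, pow_succ (x : K), hy']; ring)⟩
  have hz' : algebraMap F[X] K s ^ H' * (algebraMap F[X] K s ^ H * x) =
      algebraMap F[X] K P * z := congrArg Subtype.val hz
  have h0 : algebraMap F[X] K s ≠ 0 := fun e => h.ne (algebraMap_inj (e.trans (map_zero _).symm))
  refine ⟨⟨z / algebraMap F[X] K s ^ (H' + H), (h.mem _).2 ⟨H' + H, ?_⟩⟩, Subtype.ext ?_⟩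
  · rw [mul_div_cancel₀ _ (pow_ne_zero _ h0)]
    exact z.2
  · change (x : K) = ((aeval θ P : R) : K) * (z / algebraMap F[X] K s ^ (H' + H))
    rw [hθP, ← mul_div_assoc, ← hz', eq_div_iff (pow_ne_zero _ h0)]
    ring

end Pool.Agent.P.MP_657a03_nt.CW
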