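import Pool.Agent.P.MP_657a03_nt.CW.Iface

/-! Step RES. -/

set_option autoImplicit false
set_option linter.unusedSectionVars false

namespace Pool.Agent.P.MP_657a03_nt.CW

open Polynomial
open scoped Classical

namespace RESx

theorem norm_le_of_int {A L : Type} [CommRing A] [NormedField L] [IsUltrametricDist L]
    (φ : A →+* L) (hφ : ∀ a, ‖φ a‖ ≤ 1) {z : L} {p : A[X]} (hp : p.Monic)
    (hz : p.eval₂ φ z = 0) : ‖z‖ ≤ 1 := by
  by_contra c
  have c1 : 1 < ‖z‖ := not_le.1 c
  rw [hp.as_sum, eval₂_add, eval₂_pow, eval₂_X, eval₂_finsetSum] at hz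
  have e : z ^ p.natDegree =
      -∑ i ∈ Finset.range p.natDegree, eval₂ φ z (C (p.coeff i) * X ^ i) :=
    eq_neg_of_add_eq_zero_left hz
  rcases Nat.eq_zero_or_pos p.natDegree with h0 | h0
  · rw [h0] at e
    simp at e
  have h1 : ‖∑ i ∈ Finset.range p.natDegree, eval₂ φ z (C (p.coeff i) * X ^ i)‖ ≤
      ‖z‖ ^ (p.natDegree - 1) := by
    refine IsUltrametricDist.norm_sum_le_of_forall_le_of_nonneg (by positivity) fun i hi => ?_
    rw [eval₂_mul, eval₂_C, eval₂_pow, eval₂_X, norm_mul, norm_pow]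
    have := Finset.mem_range.1 hi
    calc ‖φ (p.coeff i)‖ * ‖z‖ ^ i ≤ 1 * ‖z‖ ^ (p.natDegree - 1) :=
          mul_le_mul (hφ _) (pow_le_pow_right₀ c1.le (by omega)) (by positivity) zero_le_one
      _ = _ := one_mul _
  rw [← norm_neg, ← e, norm_pow] at h1
  exact absurd h1 (not_le.2 (pow_lt_pow_right₀ c1 (by omega)))

end RESx

theorem p_RES (hNRM : S_NRM) :
    S_RES := by
  intro F K L _ _ _ _ _ _ _ _ _ ι R s D P hR hP hI hs ht
  obtain ⟨n1, n2, -, -⟩ := hNRM F L (ι (algebraMap F[X] K X)) P hP hI ht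
  have e : ∀ a : F[X], ι (algebraMap F[X] K a) = aeval (ι (algebraMap F[X] K X)) a := fun a => by
    rw [aeval_algHom_apply, aeval_theta]
  have h1 : ∀ x : R, ‖ι x‖ ≤ 1 := fun x => by
    obtain ⟨H, p, hp, hz⟩ := (hR.mem x).1 x.2
    have h2 : ‖ι (algebraMap F[X] K s ^ H * x)‖ ≤ 1 := by
      refine RESx.norm_le_of_int ((ι : K →+* L).comp (algebraMap F[X] K)) (fun a => ?_) hp ?_
      · change ‖ι (algebraMap F[X] K a)‖ ≤ 1
        rw [e]
        exact n1 a
      · have := congrArg (ι : K →+* L) hz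
        rwa [map_zero, hom_eval₂] at this
    rwa [map_mul, map_pow, norm_mul, norm_pow, e, n2 s hs, one_pow, one_mul] at h2
  let I : Ideal R :=
    { carrier := {x | ‖ι x‖ < 1}
      add_mem' := fun {a b} ha hb => by
        change ‖ι ((a : K) + b)‖ < 1
        rw [map_add]
        exact (IsUltrametricDist.norm_add_le_max _ _).trans_lt (max_lt ha hb)
      zero_mem' := by
        change ‖ι (0 : K)‖ < 1
        simp
      smul_mem' := fun c a ha => by
        change ‖ι ((c : K) * a)‖ < 1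
        rw [map_mul, norm_mul]
        exact mul_lt_one_of_nonneg_of_lt_one_right (h1 c) (norm_nonneg _) ha }
  have hI' : I.IsPrime := by
    refine ⟨fun h => ?_, fun {a b} h => ?_⟩
    · have : (1 : R) ∈ I := h ▸ Submodule.mem_top
      change ‖ι (1 : K)‖ < 1 at this
      simp at this
    · change ‖ι ((a : K) * b)‖ < 1 at h
      rw [map_mul, norm_mul] at h
      by_contra c
      rw [not_or] at c
      have c1 : 1 ≤ ‖ι a‖ := not_lt.1 c.1
      have c2 : 1 ≤ ‖ι b‖ := not_lt.1 c.2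
      exact absurd h (not_lt.2 (one_le_mul_of_one_le_of_one_le c1 c2))
  obtain ⟨E, i1, i2, π, hπ⟩ := exists_resHom F R I
  exact ⟨h1, E, i1, i2, π, hπ⟩

end Pool.Agent.P.MP_657a03_nt.CW
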