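import Pool.Agent.P.MP_657a03_nt.CW.Iface

/-! Step RHO. -/

set_option autoImplicit false
set_option linter.unusedSectionVars false

namespace Pool.Agent.P.MP_657a03_nt.CW

open Polynomial
open scoped Classical

theorem p_RHO (hTRI : S_TRI) :
    S_RHO := by
  intro F E G _ _ _ _ θ u e n v g0 he hv h0 hz
  have hP : (PP F θ e).eval θ = 0 := by
    rw [eval_PP]
    exact pr_eq_zero _ _ (j := 0) he (pw_zero _ _)
  let Φ : MvPolynomial G E[X] →+* MvPolynomial (G ⊕ G) E :=
    MvPolynomial.eval₂Hom (MvPolynomial.C.comp (evalRingHom θ)) fun g => MvPolynomial.X (Sum.inr g)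
  have key : Φ.comp (rho F θ u e : MvPolynomial (G ⊕ G) E[X] →+* MvPolynomial G E[X]) =
      Tm (evalRingHom θ) (Sum.elim (fun _ => 0) fun _ => 1)
        (Sum.elim (fun g => (NP F θ (u g) e).eval θ) fun _ => 0) := by
    refine MvPolynomial.ringHom_ext (fun c => ?_) fun i => ?_
    · simp [Φ, rho]
    · rcases i with g | g <;> simp [Φ, rho, hP]
  have h1 := (hTRI E[X] E (G ⊕ G) (evalRingHom θ) (Sum.elim (fun _ => 0) fun _ => 1)
    (Sum.elim (fun g => (NP F θ (u g) e).eval θ) fun _ => 0) v n hv).2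
      (Finsupp.single (Sum.inr g0) n) (Finsupp.degree_single _ _)
  rw [← key, RingHom.comp_apply, RingHom.coe_coe, hz, map_zero, MvPolynomial.coeff_zero,
    Finsupp.prod_single_index (by simp)] at h1
  exact h0 (by simpa using h1.symm)

end Pool.Agent.P.MP_657a03_nt.CW
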