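import Pool.Agent.P.MP_657a03_nt.CW.Iface

/-! Step ROOT. -/

set_option autoImplicit false
set_option linter.unusedSectionVars false

namespace Pool.Agent.P.MP_657a03_nt.CW

open Polynomial
open scoped Classical

theorem p_ROOT :
    S_ROOT := by
  intro F E _ _ _ _ θ P mo ir h0
  have e := minpoly.eq_of_irreducible_of_monic ir h0 mo
  have dv : ∀ a : F[X], aeval θ a = 0 → P ∣ a := fun a h => e ▸ minpoly.dvd F θ h
  have key : ∀ j, pw (Fintype.card F) θ j = θ ↔ P.natDegree ∣ j := fun j => by
    rw [ir.natDegree_dvd_iff_dvd_X_pow_card_pow_sub_X, Nat.card_eq_fintype_card]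
    refine ⟨fun h => dv _ (by simpa [sub_eq_zero, pw] using h), fun h => ?_⟩
    simpa [sub_eq_zero, pw] using aeval_eq_zero_of_dvd_aeval_eq_zero h h0
  have ne : ∀ j, 0 < j → j < P.natDegree → pw (Fintype.card F) θ j ≠ θ := fun j a b h =>
    absurd (Nat.le_of_dvd a ((key j).1 h)) (by omega)
  have lt : ∀ i j, i < j → j < P.natDegree →
      pw (Fintype.card F) θ j ≠ pw (Fintype.card F) θ i := fun i j a b h => by
    obtain ⟨k, rfl⟩ := Nat.exists_eq_add_of_lt a
    refine ne (k + 1) (by omega) (by omega) ((fr F E).injective.iterate i ?_)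
    rw [fr_iter, fr_iter]
    exact (pw_add _ θ (k + 1) i).symm.trans (by rw [add_comm, ← add_assoc]; exact h)
  refine ⟨(key _).2 dvd_rfl, ne, ?_,
    (PerfectField.separable_of_irreducible ir).aeval_derivative_ne_zero h0, dv⟩
  have pp : PP F θ P.natDegree =
      ∏ j ∈ Finset.range P.natDegree, (X - C (pw (Fintype.card F) θ j)) := rfl
  rw [pp]
  refine eq_of_monic_of_dvd_of_natDegree_le (monic_prod_X_sub_C _ _) (mo.map _)
    (Finset.prod_dvd_of_coprime (fun i hi j hj n => ?_) fun j _ => ?_) ?_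
  · refine isCoprime_X_sub_C_of_isUnit_sub (sub_ne_zero.2 ?_).isUnit
    rcases lt_or_gt_of_ne n with c | c
    · exact (lt i j c (Finset.mem_range.1 hj)).symm
    · exact lt j i c (Finset.mem_range.1 hi)
  · rw [dvd_iff_isRoot, IsRoot, eval_map_algebraMap]
    have := aeval_algHom_apply (FiniteField.frobeniusAlgHom F E ^ j) θ P
    rwa [h0, map_zero, AlgHom.coe_pow, FiniteField.coe_frobeniusAlgHom, pow_iterate] at this
  · rw [natDegree_map, natDegree_finsetProd_X_sub_C_eq_card, Finset.card_range]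

end Pool.Agent.P.MP_657a03_nt.CW
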