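import Pool.Agent.P.MP_657a03_nt.CW.Iface

/-! Step ROWE. -/

set_option autoImplicit false
set_option linter.unusedSectionVars false

namespace Pool.Agent.P.MP_657a03_nt.CW

open Polynomial
open scoped Classical

namespace ROWEx

theorem deg_hn {E : Type} [Field E] (x u : ℕ → E) (k : ℕ) :
    (hn (fun j => C (x j)) (fun j => C (u j)) (X : E[X]) k).natDegree ≤ k := by
  induction k with
  | zero => simp
  | succ k ih =>
    exact natDegree_add_le_of_degree_le
      (natDegree_mul_le.trans (add_le_add ih (natDegree_X_sub_C_le _))) (by simp)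

theorem deg_pr {E : Type} [Field E] (x : ℕ → E) (k : ℕ) :
    (pr (fun j => C (x j)) (X : E[X]) k).natDegree ≤ k := by
  induction k with
  | zero => simp
  | succ k ih =>
    rw [pr_succ]
    exact natDegree_mul_le.trans (add_le_add ih (natDegree_X_sub_C_le _))

theorem bd_det {E ι G : Type} [CommRing E] [Fintype G] {k : ℕ}
    (M : Matrix G G (MvPolynomial ι E[X])) (h : ∀ s t, Bd 1 k (M s t)) :
    Bd (Fintype.card G) (Fintype.card G * k) M.det := by
  rw [Matrix.det_apply]
  refine Bd.sum _ _ fun σ _ => ?_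
  have a := Bd.prod Finset.univ (fun i => M (σ i) i) (fun _ => 1) (fun _ => k) fun i _ => h _ _
  simp only [Finset.sum_const, Finset.card_univ, smul_eq_mul, mul_one] at a
  rcases Int.units_eq_one_or (Equiv.Perm.sign σ) with e | e
  · rwa [e, one_smul]
  · rw [e, Units.neg_smul, one_smul]
    exact a.neg

end ROWEx

theorem p_ROWE (hTW : S_TW) (hTOP : S_TOP) :
    S_ROWE := by
  intro F E G _ _ _ _ _ _ θ u w σ0 e k hk hx
  set q := Fintype.card F with hq
  let W := PP F (pw q θ e) k
  let Q := fun g => NP F (pw q θ e) (pw q (u g) e) k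
  let l : G → MvPolynomial (G ⊕ G) E[X] := fun g => MvPolynomial.C (Q g) +
    MvPolynomial.C W * MvPolynomial.X (Sum.inl g) - MvPolynomial.X (Sum.inr (σ0 * g))
  have hT : ∀ g, T2 F θ u e (l g) = MvPolynomial.C (X - C θ) * l g := fun g => by
    have a := map_PP_mul F (pw q θ e) k
    have b := map_NP F (pw q θ e) (pw q (u g) e) k
    rw [← pw_add, hx.per] at a b
    rw [← pw_add, hx.frob] at b
    have a' := congrArg (MvPolynomial.C (σ := G ⊕ G)) a
    have b' := congrArg (MvPolynomial.C (σ := G ⊕ G)) b
    simp only [map_add, map_sub, map_mul] at a' b'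
    simp only [l, T2, map_add, map_sub, map_mul, Tm_C, Tm_X, Sum.elim_inl, Sum.elim_inr,
      coe_mapRingHom, W, Q, ← hq]
    linear_combination b' + MvPolynomial.X (Sum.inl g) * a'
  have hv : T2 F θ u e (Matrix.of fun s t => l (s * t)).det =
      MvPolynomial.C (X - C θ) ^ Fintype.card G * (Matrix.of fun s t => l (s * t)).det := by
    rw [RingHom.map_det, ← Matrix.det_smul]
    congr 1
    ext1 s t
    exact hT _
  refine ⟨(Matrix.of fun s t => l (s * t)).det, ROWEx.bd_det _ fun s t => ?_, fun r => ?_, ?_⟩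
  · exact (((Bd.C (ROWEx.deg_hn _ _ k)).mono zero_le_one le_rfl).add
      ((Bd.C (ROWEx.deg_pr _ k)).mul (Bd.X _))).sub ((Bd.X _).mono le_rfl k.zero_le)
  · induction r with
    | zero =>
      intro _
      rw [RingHom.map_det, ← hx.det]
      congr 1
      ext1 s t
      simp only [psiM, RingHom.mapMatrix_apply, Matrix.map_apply, Matrix.of_apply, l, ev, map_add,
        map_sub, map_mul, MvPolynomial.eval₂Hom_C, MvPolynomial.eval₂Hom_X', row, Sum.elim_inl,
        Sum.elim_inr, coe_evalRingHom, W, Q, eval_NP, eval_PP, nn, Bn, Pd, pw_zero, div_one,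
        hn_add, pw_add, ← hq]
      ring
    | succ r ih =>
      intro hr
      have a := (hTW F E G θ u w e).1 r hr (fun j c c' => hx.ne j c (by omega))
        (Matrix.of fun s t => l (s * t)).det
      rw [ih (by omega), zero_pow Fintype.card_ne_zero, hv, map_mul, map_pow] at a
      refine (mul_eq_zero.1 a).resolve_left (pow_ne_zero _ ?_)
      simpa [ev, sub_eq_zero] using hx.ne (r + 1) r.succ_pos (by omega)
  · intro h0
    have a := congrArg (eval θ) (hTOP E[X] G Q W σ0)
    rw [eval_pow, eval_one] at a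
    rw [h0, zero_pow two_ne_zero] at a
    exact zero_ne_one a

end Pool.Agent.P.MP_657a03_nt.CW
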