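import Pool.Agent.P.MP_657a03_nt.CW.Iface

/-! Step SET. -/

set_option autoImplicit false
set_option linter.unusedSectionVars false

namespace Pool.Agent.P.MP_657a03_nt.CW

open Polynomial
open scoped Classical

theorem p_SET :
    S_SET := by
  intro ι _ n
  refine ⟨(Finsupp.finite_of_degree_le (σ := ι) n).toFinset, fun μ => by simp, ?_⟩
  have h := Finset.card_le_card_of_injOn (s := (Finsupp.finite_of_degree_le (σ := ι) n).toFinset)
    (t := Fintype.piFinset fun _ : ι => Finset.range (n + 1)) (fun μ => (μ : ι → ℕ))
    (fun μ hμ => by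
      have h1 : Finsupp.degree μ ≤ n := by simpa using hμ
      exact Finset.mem_coe.2 (Fintype.mem_piFinset.2 fun i =>
        Finset.mem_range.2 (Nat.lt_succ_of_le ((Finsupp.le_degree i μ).trans h1))))
    fun _ _ _ _ e => DFunLike.coe_injective e
  simpa using h

end Pool.Agent.P.MP_657a03_nt.CW
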