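import Pool.Agent.P.MP_657a03_nt.CW.Iface

/-! Step STA. -/

set_option autoImplicit false
set_option linter.unusedSectionVars false

namespace Pool.Agent.P.MP_657a03_nt.CW

open Polynomial
open scoped Classical

theorem p_STA (hTRI : S_TRI) (hDESC : S_DESC) (hEV : S_EV) :
    S_STA := by
  intro Ω ι _ _ p _ _ τ l u U v hHD hU hv hv0
  refine hDESC Ω ι (fun w => w ∈ U ∧ w ≠ 0) ((1 : MvPolynomial ι Ω) ∈ U) ?_ v ⟨hv, hv0⟩
  rintro w ⟨hw, hw0⟩
  obtain ⟨μ, hμ, hf⟩ := exists_top hw0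
  obtain ⟨hdeg, htop⟩ := hTRI Ω Ω ι τ (fun _ => l) u w w.totalDegree le_rfl
  obtain ⟨κ, hκ⟩ : ∃ κ : Ω, κ * MvPolynomial.coeff μ w =
      (μ.prod fun _ k => l ^ k) * τ (MvPolynomial.coeff μ w) :=
    ⟨(μ.prod fun _ k => l ^ k) * τ (MvPolynomial.coeff μ w) / MvPolynomial.coeff μ w,
      div_mul_cancel₀ _ hf⟩
  have hmem : Tm τ (fun _ => l) u w - MvPolynomial.C κ * w ∈ U := by
    refine U.sub_mem (hU w hw) ?_
    rw [← MvPolynomial.smul_eq_C_mul]
    exact U.smul_mem _ hw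
  by_cases h0 : Tm τ (fun _ => l) u w - MvPolynomial.C κ * w = 0
  · left
    obtain ⟨c, hc⟩ := hEV Ω ι p τ l u hHD w κ (sub_eq_zero.1 h0)
    have hc0 : c ≠ 0 := by
      rintro rfl
      exact hw0 (by rw [hc, map_zero])
    have h1 : (1 : MvPolynomial ι Ω) = c⁻¹ • w := by
      rw [MvPolynomial.smul_eq_C_mul, hc, ← map_mul, inv_mul_cancel₀ hc0, map_one]
    rw [h1]
    exact U.smul_mem _ hw
  · right
    refine ⟨μ, Tm τ (fun _ => l) u w - MvPolynomial.C κ * w, hμ, hf, ⟨hmem, h0⟩, ?_, ?_, ?_⟩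
    · refine (MvPolynomial.totalDegree_sub _ _).trans (max_le hdeg ?_)
      refine (MvPolynomial.totalDegree_mul _ _).trans ?_
      rw [MvPolynomial.totalDegree_C, zero_add]
    · rw [MvPolynomial.coeff_sub, MvPolynomial.coeff_C_mul, htop μ hμ, hκ, sub_self]
    · intro ν hν h
      rw [MvPolynomial.coeff_sub, MvPolynomial.coeff_C_mul, htop ν hν, h, map_zero, mul_zero,
        mul_zero, sub_zero]

end Pool.Agent.P.MP_657a03_nt.CW
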