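import Pool.Agent.P.MP_657a03_nt.CW.Iface

/-! Step STAB. -/

set_option autoImplicit false
set_option linter.unusedSectionVars false

namespace Pool.Agent.P.MP_657a03_nt.CW

open Polynomial
open scoped Classical

namespace STABx

theorem dep {K V : Type} [Field K] [AddCommGroup V] [Module K V] (W : Submodule K V)
    [Module.Finite K W] (x : ℕ → V) (hx : ∀ i, x i ∈ W) :
    ∃ s ≤ Module.finrank K W, x s ∈ Submodule.span K (x '' {i | i < s}) := by
  by_contra h
  push Not at h
  have le : ∀ s, Submodule.span K (x '' {i | i < s}) ≤ W := fun s =>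
    Submodule.span_le.2 (by rintro _ ⟨i, -, rfl⟩; exact hx i)
  have key : ∀ s ≤ Module.finrank K W + 1,
      s ≤ Module.finrank K (Submodule.span K (x '' {i | i < s})) := by
    intro s
    induction s with
    | zero => intro _; exact Nat.zero_le _
    | succ s ih =>
      intro hs
      have : Module.Finite K (Submodule.span K (x '' {i | i < s + 1})) :=
        Submodule.finiteDimensional_of_le (le _)
      have lt : Submodule.span K (x '' {i | i < s}) < Submodule.span K (x '' {i | i < s + 1}) := by
        refine lt_of_le_of_ne (Submodule.span_mono (Set.image_mono fun i (hi : i < s) =>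
          Nat.lt_succ_of_lt hi)) fun e => h s (by omega) ?_
        rw [e]
        exact Submodule.subset_span ⟨s, Nat.lt_succ_self s, rfl⟩
      have := Submodule.finrank_lt_finrank_of_lt lt
      have := ih (by omega)
      omega
  have h1 := key _ le_rfl
  have h2 := Submodule.finrank_mono (le (Module.finrank K W + 1))
  omega

end STABx

theorem p_STAB (hTRI : S_TRI) :
    S_STAB := by
  intro Ω ι _ τ l u n S v hS hv
  let B : Finset (MvPolynomial ι Ω) := S.image fun μ => MvPolynomial.monomial μ (1 : Ω)
  have hd : ∀ i, ((Tm τ l u)^[i] v).totalDegree ≤ n := fun i => by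
    induction i with
    | zero => exact hv
    | succ i ih =>
      rw [Function.iterate_succ_apply']
      exact (hTRI _ _ _ τ l u _ n ih).1
  have hW : ∀ i, (Tm τ l u)^[i] v ∈ Submodule.span Ω (B : Set (MvPolynomial ι Ω)) := fun i => by
    rw [((Tm τ l u)^[i] v).as_sum]
    refine Submodule.sum_mem _ fun μ hμ => ?_
    have e : ∀ c : Ω, MvPolynomial.monomial μ c = c • MvPolynomial.monomial μ (1 : Ω) := fun c => by
      rw [MvPolynomial.smul_monomial, smul_eq_mul, mul_one]
    rw [e]
    refine Submodule.smul_mem _ _ (Submodule.subset_span (Finset.mem_coe.2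
      (Finset.mem_image_of_mem _ (hS μ ?_))))
    exact (MvPolynomial.le_totalDegree hμ).trans (hd i)
  obtain ⟨s, hs, hx⟩ := STABx.dep _ _ hW
  have hs' : s ≤ S.card :=
    hs.trans ((finrank_span_finset_le_card B).trans Finset.card_image_le)
  have gen : ∀ i ≤ s, (Tm τ l u)^[i] v ∈
      Submodule.span Ω ((fun i => (Tm τ l u)^[i] v) '' {i | i < s}) := fun i hi => by
    rcases hi.lt_or_eq with h | rfl
    · exact Submodule.subset_span ⟨i, h, rfl⟩
    · exact hx
  refine ⟨_, gen 0 (Nat.zero_le s), fun w hw => ?_, Submodule.span_mono ?_⟩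
  · induction hw using Submodule.span_induction with
    | mem w hw =>
      obtain ⟨i, hi, rfl⟩ := hw
      have := gen (i + 1) hi
      rwa [Function.iterate_succ_apply'] at this
    | zero => rw [map_zero]; exact Submodule.zero_mem _
    | add a b _ _ ha hb => rw [map_add]; exact Submodule.add_mem _ ha hb
    | smul c a _ ha =>
      rw [MvPolynomial.smul_eq_C_mul, map_mul, Tm_C, ← MvPolynomial.smul_eq_C_mul]
      exact Submodule.smul_mem _ _ ha
  · rintro _ ⟨i, hi, rfl⟩
    exact ⟨⟨i, lt_of_lt_of_le hi hs'⟩, rfl⟩

end Pool.Agent.P.MP_657a03_nt.CW
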