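import Pool.Agent.P.MP_657a03_nt.CW.Iface

/-! Step STB. -/

set_option autoImplicit false
set_option linter.unusedSectionVars false

namespace Pool.Agent.P.MP_657a03_nt.CW

open Polynomial
open scoped Classical

theorem p_STB (hTRI : S_TRI) (hDESC : S_DESC) :
    S_STB := by
  intro Ω ι _ τ l u U J w h1 hU hJ hC hwJ hwU
  refine hDESC Ω ι (fun v => v ∈ J ∧ 1 + v ∈ U) _ ?_ w ⟨hwJ, hwU⟩
  rintro v ⟨hvJ, hvU⟩
  by_cases h0 : v = 0
  · left
    simpa [h0] using hvU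
  right
  obtain ⟨μ, hμ, hf⟩ := exists_top h0
  have hd : v.totalDegree ≠ 0 := by
    intro hd
    have e := MvPolynomial.totalDegree_eq_zero_iff_eq_C.1 hd
    have := hC _ (e ▸ hvJ)
    rw [this, map_zero] at e
    exact h0 e
  have hμ0 : μ ≠ 0 := by
    rintro rfl
    exact hd (by rw [← hμ, map_zero])
  obtain ⟨t1, t2⟩ := hTRI Ω Ω ι τ l u v _ le_rfl
  have ha : (μ.prod fun i k => l i ^ k) * τ (MvPolynomial.coeff μ v) - MvPolynomial.coeff μ v ≠ 0 :=
    fun e => hf (h1 μ hμ0 _ (sub_eq_zero.1 e))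
  set c := MvPolynomial.coeff μ v /
    ((μ.prod fun i k => l i ^ k) * τ (MvPolynomial.coeff μ v) - MvPolynomial.coeff μ v) with hc
  refine ⟨μ, v - c • (Tm τ l u v - v), hμ, hf, ⟨?_, ?_⟩, ?_, ?_, ?_⟩
  · exact J.sub_mem hvJ (J.smul_mem _ (J.sub_mem (hJ v hvJ) hvJ))
  · have e : 1 + (v - c • (Tm τ l u v - v)) = (1 + v) - c • (Tm τ l u (1 + v) - (1 + v)) := by
      rw [map_add, map_one, add_sub_add_left_eq_sub, add_sub_assoc]
    rw [e]
    exact U.sub_mem hvU (U.smul_mem _ (U.sub_mem (hU _ hvU) hvU))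
  · refine (MvPolynomial.totalDegree_sub _ _).trans (max_le le_rfl ?_)
    refine (MvPolynomial.totalDegree_smul_le _ _).trans ?_
    exact (MvPolynomial.totalDegree_sub _ _).trans (max_le t1 le_rfl)
  · rw [MvPolynomial.coeff_sub, MvPolynomial.coeff_smul, MvPolynomial.coeff_sub, t2 μ hμ,
      smul_eq_mul, hc, div_mul_cancel₀ _ ha, sub_self]
  · intro ν hν e
    rw [MvPolynomial.coeff_sub, MvPolynomial.coeff_smul, MvPolynomial.coeff_sub, t2 ν hν, e]
    simp

end Pool.Agent.P.MP_657a03_nt.CW
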