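import Pool.Agent.P.MP_657a03_nt.CW.Iface

/-! Step TOP. -/

set_option autoImplicit false
set_option linter.unusedSectionVars false

namespace Pool.Agent.P.MP_657a03_nt.CW

open Polynomial
open scoped Classical

namespace TOPx

theorem coeff_aeval {B ι : Type} [CommRing B] (i : ι) (n : ℕ) (f : B[X]) :
    MvPolynomial.coeff (Finsupp.single i n)
      (Polynomial.aeval (MvPolynomial.X i : MvPolynomial ι B) f) = f.coeff n := by
  induction f using Polynomial.induction_on' with
  | add p q hp hq => simp [hp, hq]
  | monomial k a =>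
    rw [Polynomial.aeval_monomial, MvPolynomial.X_pow_eq_monomial, MvPolynomial.algebraMap_eq,
      MvPolynomial.C_mul_monomial, mul_one, MvPolynomial.coeff_monomial, Polynomial.coeff_monomial]
    by_cases h : k = n
    · simp [h]
    · rw [if_neg h, if_neg]
      intro h'
      exact h (Finsupp.single_injective i h')

theorem td_det {B ι G : Type} [CommRing B] [Fintype G] (M : Matrix G G (MvPolynomial ι B))
    (h : ∀ s t, (M s t).totalDegree ≤ 1) : M.det.totalDegree ≤ Fintype.card G := by
  rw [Matrix.det_apply']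
  refine (MvPolynomial.totalDegree_finsetSum _ _).trans (Finset.sup_le fun σ _ => ?_)
  refine (MvPolynomial.totalDegree_mul _ _).trans ?_
  have h1 : (((Equiv.Perm.sign σ : ℤˣ) : ℤ) : MvPolynomial ι B).totalDegree = 0 := by
    rw [← map_intCast (MvPolynomial.C : B →+* MvPolynomial ι B)]
    exact MvPolynomial.totalDegree_C _
  rw [h1, zero_add]
  refine (MvPolynomial.totalDegree_finsetProd _ _).trans ?_
  calc ∑ i : G, (M (σ i) i).totalDegree ≤ ∑ _i : G, 1 := Finset.sum_le_sum fun i _ => h _ _
    _ = Fintype.card G := by simp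

theorem det_sq {B G : Type} [CommRing B] [Group G] [Fintype G] :
    (Matrix.of fun s t : G => (-(if s * t = 1 then 1 else 0) : B)).det ^ 2 = 1 := by
  rw [sq, ← Matrix.det_mul]
  have : (Matrix.of fun s t : G => (-(if s * t = 1 then 1 else 0) : B)) *
      (Matrix.of fun s t : G => (-(if s * t = 1 then 1 else 0) : B)) = 1 := by
    ext s t
    rw [Matrix.mul_apply, Finset.sum_eq_single s⁻¹]
    · simp only [Matrix.of_apply, mul_inv_cancel, if_true, Matrix.one_apply, inv_mul_eq_one]
      split_ifs <;> simp
    · intro b _ hb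
      have : ¬ s * b = 1 := fun h => hb (eq_inv_of_mul_eq_one_right h)
      simp [this]
    · simp
  rw [this, Matrix.det_one]

end TOPx

theorem p_TOP (hTRI : S_TRI) :
    S_TOP := by
  intro B G _ _ _ Q W σ0
  set M : Matrix G G (MvPolynomial (G ⊕ G) B) := Matrix.of fun σ τ : G =>
    (MvPolynomial.C (Q (σ * τ)) + MvPolynomial.C W * MvPolynomial.X (Sum.inl (σ * τ)) -
      MvPolynomial.X (Sum.inr (σ0 * (σ * τ))) : MvPolynomial (G ⊕ G) B) with hM
  have hd : M.det.totalDegree ≤ Fintype.card G := by
    refine TOPx.td_det M fun s t => ?_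
    rw [hM, Matrix.of_apply]
    have hX : ∀ i : G ⊕ G, (MvPolynomial.X i : MvPolynomial (G ⊕ G) B).totalDegree ≤ 1 := by
      intro i
      rw [MvPolynomial.X]
      refine (MvPolynomial.totalDegree_monomial_le _ _).trans ?_
      simp
    refine (MvPolynomial.totalDegree_sub _ _).trans (max_le ?_ (hX _))
    refine (MvPolynomial.totalDegree_add _ _).trans (max_le ?_ ?_)
    · rw [MvPolynomial.totalDegree_C]; exact Nat.zero_le _
    · refine (MvPolynomial.totalDegree_mul _ _).trans ?_
      rw [MvPolynomial.totalDegree_C, zero_add]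
      exact hX _
  have h := (hTRI B B (G ⊕ G) (RingHom.id B) (fun i => if i = Sum.inr σ0 then 1 else 0)
    (fun _ => 0) M.det (Fintype.card G) hd).2 (Finsupp.single (Sum.inr σ0) (Fintype.card G))
    (by simp)
  rw [Finsupp.prod_single_index (by simp)] at h
  simp only [if_true, one_pow, one_mul, RingHom.id_apply] at h
  rw [← h]
  have h2 : Tm (RingHom.id B) (fun i => if i = Sum.inr σ0 then (1 : B) else 0) (fun _ => 0) M.det =
      Polynomial.aeval (MvPolynomial.X (Sum.inr σ0) : MvPolynomial (G ⊕ G) B)
        (Matrix.det ((X : B[X]) •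
          (Matrix.of fun s t : G => (-(if s * t = 1 then 1 else 0) : B)).map C +
          (Matrix.of fun s t : G => Q (s * t)).map C)) := by
    rw [RingHom.map_det, AlgHom.map_det]
    congr 1
    ext s t : 2
    simp only [hM, RingHom.mapMatrix_apply, AlgHom.mapMatrix_apply, Matrix.map_apply,
      Matrix.of_apply, Matrix.add_apply, Matrix.smul_apply, smul_eq_mul, map_sub, map_add, map_mul,
      Tm_C, Tm_X, RingHom.id_apply, Polynomial.aeval_X, Polynomial.aeval_C,
      MvPolynomial.algebraMap_eq]
    by_cases hst : s * t = 1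
    · simp [hst]
      ring
    · have : ¬ (σ0 * (s * t) = σ0) := fun h => hst (mul_eq_left.mp h)
      simp [hst, this]
  rw [h2, TOPx.coeff_aeval, Polynomial.coeff_det_X_add_C_card]
  exact TOPx.det_sq

end Pool.Agent.P.MP_657a03_nt.CW
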