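import Pool.Agent.P.MP_657a03_nt.CW.Iface

/-! Step TOR. -/

set_option autoImplicit false
set_option linter.unusedSectionVars false

namespace Pool.Agent.P.MP_657a03_nt.CW

open Polynomial
open scoped Classical

namespace TORx

/-- a sum over the coefficients as an additive map -/
noncomputable def Sm {R M : Type} [Semiring R] [AddCommMonoid M] (f : ℕ → R →+ M) : R[X] →+ M where
  toFun h := h.sum fun l c => f l c
  map_zero' := sum_zero_index _
  map_add' p q := sum_add_index p q _ (fun _ => map_zero _) fun _ a b => map_add _ a b

theorem Sm_mon {R M : Type} [Semiring R] [AddCommMonoid M] (f : ℕ → R →+ M) (l : ℕ) (c : R) :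
    Sm f (monomial l c) = f l c := sum_monomial_index c _ (map_zero _)

variable {F K : Type} [Field F] [Fintype F] [Field K] [Algebra F K]

/-- one residue class of exponents, evaluated at the operator -/
noncomputable def E (F : Type) [Field F] [Fintype F] [Algebra F K] (θ : K) (m i : ℕ) :
    K[X] →+ K :=
  Sm fun l => if l % m = i then (cT F θ ^ (l / m)).toAddMonoidHom else 0

/-- one residue class of exponents -/
noncomputable def A (F : Type) [Field F] (m i : ℕ) : F[X] →+ F[X] :=
  Sm fun l => if l % m = i then (monomial (l / m)).toAddMonoidHom else 0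

theorem E_mon (θ : K) (m i l : ℕ) (c : K) :
    E F θ m i (monomial l c) = if l % m = i then (cT F θ ^ (l / m)) c else 0 := by
  rw [E, Sm_mon]
  split_ifs <;> rfl

theorem A_mon (m i l : ℕ) (c : F) :
    A F m i (monomial l c) = if l % m = i then monomial (l / m) c else 0 := by
  rw [A, Sm_mon]
  split_ifs <;> rfl

theorem E_shift (θ : K) {m : ℕ} (hm : 1 ≤ m) (i : ℕ) (h : K[X]) :
    E F θ m i (h.map (fr F K)) = E F θ m i ((X ^ m - C θ) * h) := by
  induction h using Polynomial.induction_on' with
  | add p q hp hq => rw [Polynomial.map_add, mul_add, map_add, map_add, hp, hq]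
  | monomial l c =>
    rw [sub_mul, map_sub, X_pow_mul_monomial, C_mul_monomial, map_monomial, E_mon, E_mon, E_mon,
      Nat.add_mod_right, Nat.add_div_right _ hm]
    split_ifs
    · rw [pow_succ, Module.End.mul_apply, cT_apply, map_add, fr_apply, add_sub_cancel_left]
    · rw [sub_zero]

theorem E_map (θ : K) (m i : ℕ) (u : K) (a : F[X]) :
    E F θ m i (a.map (algebraMap F K) * C u) = carlitz θ (A F m i a) u := by
  induction a using Polynomial.induction_on' with
  | add p q hp hq => rw [Polynomial.map_add, add_mul, map_add, map_add, carlitz_add, hp, hq]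
  | monomial l c =>
    rw [map_monomial, monomial_mul_C, E_mon, A_mon]
    split_ifs
    · rw [carlitz_eq, aeval_monomial, Module.End.mul_apply, Module.algebraMap_end_apply,
        ← Algebra.smul_def, map_smul]
    · rw [carlitz_zero]

theorem A_coeff (m l : ℕ) (a : F[X]) : (A F m (l % m) a).coeff (l / m) = a.coeff l := by
  induction a using Polynomial.induction_on' with
  | add p q hp hq => rw [map_add, coeff_add, coeff_add, hp, hq]
  | monomial j c =>
    rw [A_mon, coeff_monomial]
    by_cases e : j = l
    · rw [e, if_pos rfl, if_pos rfl, coeff_monomial, if_pos rfl]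
    · rw [if_neg e]
      split_ifs with h
      · rw [coeff_monomial, if_neg fun h' => e (by
          rw [← Nat.div_add_mod j m, ← Nat.div_add_mod l m, h, h'])]
      · exact coeff_zero _

end TORx

open TORx in
theorem p_TOR :
    S_TOR := by
  intro F K G _ _ _ _ _ θ u m c h hI hm e
  funext g
  ext l
  have e1 := congrArg (E F θ m (l % m)) e
  rw [map_add, E_shift θ hm, add_eq_left, map_sum] at e1
  simp only [E_map] at e1
  have := congrFun (hI _ e1) g
  rw [← A_coeff m l (c g), this]
  rfl

end Pool.Agent.P.MP_657a03_nt.CW
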