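import Pool.Agent.P.MP_657a03_nt.CW.Iface

/-! Step TRI. -/

set_option autoImplicit false
set_option linter.unusedSectionVars false

namespace Pool.Agent.P.MP_657a03_nt.CW

open Polynomial
open scoped Classical

namespace TRIx

variable {R S ι : Type} [CommRing R] [CommRing S]

/-- All monomials have degree less than `j`. -/
def Low (j : ℕ) (B : MvPolynomial ι S) : Prop :=
  ∀ μ : ι →₀ ℕ, j ≤ Finsupp.degree μ → MvPolynomial.coeff μ B = 0

theorem Low.add {j : ℕ} {A B : MvPolynomial ι S} (hA : Low j A) (hB : Low j B) :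
    Low j (A + B) := fun μ hμ => by
  rw [MvPolynomial.coeff_add, hA μ hμ, hB μ hμ, add_zero]

theorem Low.C_mul {j : ℕ} {A : MvPolynomial ι S} (hA : Low j A) (c : S) :
    Low j (MvPolynomial.C c * A) := fun μ hμ => by
  rw [MvPolynomial.coeff_C_mul, hA μ hμ, mul_zero]

theorem Low.succ {j : ℕ} {A : MvPolynomial ι S} (hA : Low j A) : Low (j + 1) A :=
  fun μ hμ => hA μ (by omega)

theorem Low.mul_X {j : ℕ} {A : MvPolynomial ι S} (hA : Low j A) (i : ι) :
    Low (j + 1) (A * MvPolynomial.X i) := fun μ hμ => by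
  rw [MvPolynomial.coeff_mul_X']
  split_ifs with h
  · apply hA
    have h1 : Finsupp.single i 1 ≤ μ := by
      rw [Finsupp.single_le_iff]
      exact Nat.one_le_iff_ne_zero.2 (Finsupp.mem_support_iff.1 h)
    have h2 : μ - Finsupp.single i 1 + Finsupp.single i 1 = μ := tsub_add_cancel_of_le h1
    have h3 := congrArg Finsupp.degree h2
    rw [map_add, Finsupp.degree_single] at h3
    omega
  · rfl

theorem low_monomial (ν : ι →₀ ℕ) (c : S) {n : ℕ} (h : Finsupp.degree ν = n) :
    Low (n + 1) (MvPolynomial.monomial ν c) := fun μ hμ => by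
  rw [MvPolynomial.coeff_monomial, if_neg]
  rintro rfl
  omega

theorem key (τ : R →+* S) (l u : ι → S) (c : R) (n : ℕ) : ∀ ν : ι →₀ ℕ, Finsupp.degree ν = n →
    Low n (Tm τ l u (MvPolynomial.monomial ν c) -
      MvPolynomial.monomial ν ((ν.prod fun i k => l i ^ k) * τ c)) := by
  induction n with
  | zero =>
    intro ν hν
    rw [Finsupp.degree_eq_zero_iff] at hν
    subst hν
    intro μ _
    have : (MvPolynomial.monomial (0 : ι →₀ ℕ) c : MvPolynomial ι R) = MvPolynomial.C c := rfl
    rw [this, Tm_C]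
    have h2 : (MvPolynomial.monomial (0 : ι →₀ ℕ) (((0 : ι →₀ ℕ).prod fun i k => l i ^ k) * τ c) :
        MvPolynomial ι S) = MvPolynomial.C (τ c) := by
      rw [Finsupp.prod_zero_index, one_mul]; rfl
    rw [h2, sub_self, MvPolynomial.coeff_zero]
  | succ n ih =>
    intro ν hν
    have hν0 : ν ≠ 0 := by
      rintro rfl
      simp at hν
    obtain ⟨i, hi⟩ := Finsupp.support_nonempty_iff.2 hν0
    have h1 : Finsupp.single i 1 ≤ ν := by
      rw [Finsupp.single_le_iff]
      exact Nat.one_le_iff_ne_zero.2 (Finsupp.mem_support_iff.1 hi)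
    obtain ⟨ν', rfl⟩ : ∃ ν', ν = ν' + Finsupp.single i 1 := ⟨_, (tsub_add_cancel_of_le h1).symm⟩
    rw [map_add, Finsupp.degree_single] at hν
    have hν' : Finsupp.degree ν' = n := by omega
    have hB := ih ν' hν'
    have hprod : ((ν' + Finsupp.single i 1).prod fun i k => l i ^ k) =
        (ν'.prod fun i k => l i ^ k) * l i := by
      rw [Finsupp.prod_add_index' (by simp) (fun a b c => pow_add _ _ _),
        Finsupp.prod_single_index (by simp), pow_one]
    have hM := low_monomial ν' ((ν'.prod fun i k => l i ^ k) * τ c) hν'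
    have hmon : (MvPolynomial.monomial (ν' + Finsupp.single i 1)
        ((ν'.prod fun i k => l i ^ k) * l i * τ c) : MvPolynomial ι S) =
        MvPolynomial.C (l i) * (MvPolynomial.monomial ν' ((ν'.prod fun i k => l i ^ k) * τ c) *
          MvPolynomial.X i) := by
      rw [MvPolynomial.monomial_add_single, pow_one, ← mul_assoc, MvPolynomial.C_mul_monomial]
      congr 2
      ring
    rw [hprod, hmon, MvPolynomial.monomial_add_single, pow_one, map_mul, Tm_X]
    generalize Tm τ l u (MvPolynomial.monomial ν' c) = A at hB ⊢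
    generalize (MvPolynomial.monomial ν' ((ν'.prod fun i k => l i ^ k) * τ c) :
      MvPolynomial ι S) = M at hB hM ⊢
    have e : A * (MvPolynomial.C (l i) * MvPolynomial.X i + MvPolynomial.C (u i)) -
        MvPolynomial.C (l i) * (M * MvPolynomial.X i) =
        MvPolynomial.C (l i) * ((A - M) * MvPolynomial.X i) +
          (MvPolynomial.C (u i) * M + MvPolynomial.C (u i) * (A - M)) := by ring
    rw [e]
    exact ((hB.mul_X i).C_mul _).add ((hM.C_mul _).add (hB.succ.C_mul _))

theorem coeff_top (τ : R →+* S) (l u : ι → S) (v : MvPolynomial ι R) (μ : ι →₀ ℕ)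
    (h : v.totalDegree ≤ Finsupp.degree μ) : MvPolynomial.coeff μ (Tm τ l u v) =
      (μ.prod fun i k => l i ^ k) * τ (MvPolynomial.coeff μ v) := by
  conv_lhs => rw [MvPolynomial.as_sum v, map_sum, MvPolynomial.coeff_sum]
  have h1 : ∀ ν ∈ v.support, MvPolynomial.coeff μ
      (Tm τ l u (MvPolynomial.monomial ν (MvPolynomial.coeff ν v))) =
      if ν = μ then (ν.prod fun i k => l i ^ k) * τ (MvPolynomial.coeff ν v) else 0 := by
    intro ν hν
    have := key τ l u (MvPolynomial.coeff ν v) _ ν rfl μ ((degree_le_of_mem_support hν).trans h)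
    rw [MvPolynomial.coeff_sub, sub_eq_zero, MvPolynomial.coeff_monomial] at this
    exact this
  rw [Finset.sum_congr rfl h1, Finset.sum_ite_eq']
  split_ifs with h2
  · rfl
  · rw [MvPolynomial.notMem_support_iff.1 h2, map_zero, mul_zero]

end TRIx

theorem p_TRI :
    S_TRI := by
  intro R S ι _ _ τ l u v j hj
  refine ⟨totalDegree_le_iff.2 fun μ hμ => ?_, fun μ hμ => TRIx.coeff_top τ l u v μ (hμ ▸ hj)⟩
  by_contra hlt
  have hlt' : j < Finsupp.degree μ := not_le.1 hlt
  apply hμ
  rw [TRIx.coeff_top τ l u v μ (by omega), coeff_eq_zero_of_lt (by omega), map_zero, mul_zero]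

end Pool.Agent.P.MP_657a03_nt.CW
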