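import Pool.Agent.P.MP_657a03_nt.CW.Iface

/-! Step TW. -/

set_option autoImplicit false
set_option linter.unusedSectionVars false

namespace Pool.Agent.P.MP_657a03_nt.CW

open Polynomial
open scoped Classical

namespace TWx

theorem eval_map_fr (F : Type) {E : Type} [Field F] [Fintype F] [Field E] [Algebra F E] (θ : E)
    (r : ℕ) (b : E[X]) : (b.map (fr F E)).eval (pw (Fintype.card F) θ (r + 1)) =
      b.eval (pw (Fintype.card F) θ r) ^ Fintype.card F := by
  rw [pw_succ, ← fr_apply (F := F), eval_map_apply, fr_apply]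

theorem bd_Tm {E ι : Type} [CommRing E] (τ : E →+* E) (l u : ι → E[X])
    (hl : ∀ i, (l i).natDegree ≤ 1) (hu : ∀ i, (u i).natDegree ≤ 1) {n κ : ℕ}
    {v : MvPolynomial ι E[X]} (h : Bd n κ v) : Bd n (κ + n) (Tm (mapRingHom τ) l u v) := by
  have h1 : ∀ i, Bd 1 1 (Tm (mapRingHom τ) l u (MvPolynomial.X i)) := fun i => by
    rw [Tm_X]
    exact ((Bd.C (hl i)).mul (Bd.X i)).add ((Bd.C (hu i)).mono (by omega) le_rfl)
  rw [v.as_sum, map_sum]
  refine Bd.sum _ _ fun μ hμ => ?_
  rw [MvPolynomial.monomial_eq, map_mul, Tm_C, Finsupp.prod, map_prod]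
  have h2 := (degree_le_of_mem_support hμ).trans h.1
  rw [Finsupp.degree_apply] at h2
  have h3 := Bd.prod μ.support (fun i => Tm (mapRingHom τ) l u (MvPolynomial.X i ^ μ i))
    (fun i => μ i) (fun i => μ i) fun i _ => by
      rw [map_pow]
      simpa using (h1 i).pow (μ i)
  exact ((Bd.C (natDegree_map_le.trans (h.2 μ))).mul h3).mono (by omega) (by omega)

end TWx

open TWx in
theorem p_TW :
    S_TW := by
  intro F E G _ _ _ _ θ u w e
  refine ⟨fun r hr hne v => ?_, fun n κ v h => bd_Tm _ _ _ ?_ ?_ h⟩
  · have : (ev F θ u w e (r + 1)).comp (T2 F θ u e) = (fr F E).comp (ev F θ u w e r) := by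
      refine MvPolynomial.ringHom_ext (fun b => ?_) fun i => ?_
      · simp [T2, ev, eval_map_fr]
      · rcases i with g | g
        · have h1 := eval_map_fr F θ r (NP F θ (u g) e)
          have h2 : ((PP F θ e).map (fr F E)).eval (pw (Fintype.card F) θ (r + 1)) = 0 := by
            rw [eval_map_fr, eval_PP, pr_eq_zero _ _ (show r < e by omega) rfl,
              zero_pow Fintype.card_ne_zero]
          rw [map_NP] at h1
          simp only [eval_sub, eval_add, eval_mul, eval_C, eval_X, h2, eval_NP] at h1
          simp only [T2, ev, row, nn, RingHom.comp_apply, Tm_X, Sum.elim_inl, map_add, map_mul,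
            MvPolynomial.eval₂Hom_C, MvPolynomial.eval₂Hom_X', coe_evalRingHom, eval_sub, eval_C,
            eval_X, fr_apply]
          rw [← h1]
          ring
        · have h1 : Pd (Fintype.card F) θ r ≠ 0 :=
            Pd_ne_zero _ _ _ fun j a b => hne j a (by omega)
          have h2 := sub_ne_zero.2 (hne (r + 1) (by omega) le_rfl)
          simp only [T2, ev, row, RingHom.comp_apply, Tm_X, Sum.elim_inr, map_add, map_mul,
            MvPolynomial.eval₂Hom_C, MvPolynomial.eval₂Hom_X', coe_evalRingHom, eval_sub, eval_C,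
            eval_X, fr_apply, Bn, Pd, div_pow]
          field_simp
          ring
    exact RingHom.congr_fun this v
  · rintro (g | g) <;> exact natDegree_X_sub_C_le _
  · rintro (g | g) <;> simp

end Pool.Agent.P.MP_657a03_nt.CW
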