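import Pool.Agent.P.MP_657a03_nt.CW.Iface

/-! Step ZE. -/

set_option autoImplicit false
set_option linter.unusedSectionVars false

namespace Pool.Agent.P.MP_657a03_nt.CW

open Polynomial
open scoped Classical

namespace ZEx

theorem deg_pow {K : Type} [Field K] (D m : ℕ) :
    ∀ f ∈ (degreeLE K (D : WithBot ℕ)) ^ m, natDegree f ≤ m * D := by
  induction m with
  | zero =>
    intro f hf
    rw [pow_zero, Submodule.mem_one] at hf
    obtain ⟨c, rfl⟩ := hf
    simp
  | succ m ih =>
    intro f hf
    rw [pow_succ] at hf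
    refine Submodule.mul_induction_on hf (fun a ha b hb => ?_) fun a b ha hb => ?_
    · rw [Nat.succ_mul]
      exact natDegree_mul_le.trans (add_le_add (ih a ha)
        (natDegree_le_iff_degree_le.2 (mem_degreeLE.1 hb)))
    · exact natDegree_add_le_of_degree_le ha hb

theorem pw_inj {F K : Type} [Field F] [Fintype F] [Field K] [Algebra F K] (θ : K)
    (h : ∀ j, 0 < j → pw (Fintype.card F) θ j ≠ θ) :
    Function.Injective (pw (Fintype.card F) θ) := by
  have key : ∀ r r', r < r' → pw (Fintype.card F) θ r ≠ pw (Fintype.card F) θ r' := by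
    intro r r' hr e
    obtain ⟨j, rfl⟩ := Nat.exists_eq_add_of_lt hr
    rw [show r + j + 1 = (j + 1) + r by ring, pw_add] at e
    have e' : (fr F K)^[r] θ = (fr F K)^[r] (pw (Fintype.card F) θ (j + 1)) := by
      rw [fr_iter, fr_iter]; exact e
    exact h (j + 1) (Nat.succ_pos j) (((fr F K).injective.iterate r) e').symm
  intro r r' e
  rcases lt_trichotomy r r' with h1 | h1 | h1
  · exact (key _ _ h1 e).elim
  · exact h1
  · exact (key _ _ h1 e.symm).elim

end ZEx

theorem p_ZE (hMIN : S_MIN) (hZE1 : S_ZE1) (hTW : S_TW) :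
    S_ZE := by
  intro F K G _ _ _ _ _ θ u w e n κ S v g0 hind hne hS he hv hev
  by_contra hc
  have h0 : (0 : G ⊕ G →₀ ℕ) ∈ S := hS 0 (by simp)
  have hM : 1 ≤ S.card := Finset.card_pos.2 ⟨0, h0⟩
  have he1 : 1 ≤ e := hM.trans ((Nat.le_add_right _ _).trans he)
  obtain ⟨a0, a, ha0, ha⟩ := hZE1 F K G θ u e n S v g0 hind he1 hS hv.1 hc
  obtain ⟨hT1, hT2⟩ := hTW F K G θ u w e
  have hB : ∀ i, Bd n (κ + i * n) ((T2 F θ u e)^[i] v) := by
    intro i
    induction i with
    | zero => simpa using hv
    | succ i ih =>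
      rw [Function.iterate_succ_apply', Nat.succ_mul, ← add_assoc]
      exact hT2 n _ _ ih
  have hE : ∀ i r, i ≤ r → r ≤ e → ev F θ u w e r ((T2 F θ u e)^[i] v) = 0 := by
    intro i
    induction i with
    | zero => intro r _ hr; exact hev r hr
    | succ i ih =>
      intro r hir hr
      obtain ⟨r, rfl⟩ : ∃ r', r = r' + 1 := ⟨r - 1, by omega⟩
      rw [Function.iterate_succ_apply', hT1 r hr (fun j hj _ => hne j hj), ih r (by omega) (by omega)]
      exact zero_pow Fintype.card_ne_zero
  let Mx : Option (Fin S.card) → S → K[X] := fun i μ =>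
    match i with
    | none => if μ = ⟨0, h0⟩ then 1 else 0
    | some i => MvPolynomial.coeff μ.1 ((T2 F θ u e)^[i] v)
  let b : Option (Fin S.card) → K[X] := fun i =>
    match i with
    | none => 1
    | some _ => 0
  have hone : (1 : K[X]) ∈ degreeLE K ((κ + S.card * n : ℕ) : WithBot ℕ) :=
    mem_degreeLE.2 (natDegree_le_iff_degree_le.1 (by simp))
  obtain ⟨Δ, hΔ, hΔ0, hroot⟩ := hMIN K K[X] (Option (Fin S.card)) S Mx b
    (degreeLE K ((κ + S.card * n : ℕ) : WithBot ℕ)) hone
    (fun i μ => by
      rcases i with _ | i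
      · change (if μ = ⟨0, h0⟩ then 1 else 0 : K[X]) ∈ _
        split_ifs
        exacts [hone, Submodule.zero_mem _]
      · refine mem_degreeLE.2 (natDegree_le_iff_degree_le.1 (((hB i).2 μ.1).trans ?_))
        exact Nat.add_le_add_left (Nat.mul_le_mul_right _ i.2.le) _)
    (fun i => by
      rcases i with _ | i
      exacts [hone, Submodule.zero_mem _])
    (fun y y0 h => by
      have h1 : y ⟨0, h0⟩ = y0 := by
        have := h none
        simpa [Mx, b] using this
      have h2 : ∀ i : Fin S.card,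
          ∑ μ : S, MvPolynomial.coeff μ.1 ((T2 F θ u e)^[i] v) * y μ = 0 := fun i => by
        have := h (some i)
        simpa [Mx, b] using this
      have h3 : ∑ μ : S, MvPolynomial.coeff μ.1 (MvPolynomial.C a0 : MvPolynomial (G ⊕ G) K[X]) *
          y μ = a0 * y0 := by
        rw [Finset.sum_eq_single (⟨0, h0⟩ : S)]
        · rw [h1, MvPolynomial.coeff_C, if_pos rfl]
        · intro μ _ hμ
          rw [MvPolynomial.coeff_C, if_neg (fun e => hμ (Subtype.ext e.symm)), zero_mul]
        · intro h; exact (h (Finset.mem_univ _)).elim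
      have h4 : a0 * y0 = 0 := by
        rw [← h3, ha]
        simp only [MvPolynomial.coeff_sum, MvPolynomial.coeff_C_mul, Finset.sum_mul, mul_assoc]
        rw [Finset.sum_comm]
        refine Finset.sum_eq_zero fun i _ => ?_
        rw [← Finset.mul_sum, h2 i, mul_zero]
      exact (mul_eq_zero.1 h4).resolve_left ha0)
  have hdeg := ZEx.deg_pow _ _ Δ hΔ
  rw [Fintype.card_coe] at hdeg
  refine hΔ0 (eq_zero_of_natDegree_lt_card_of_eval_eq_zero' Δ
    ((Finset.Icc S.card e).image (pw (Fintype.card F) θ)) (fun t ht => ?_) ?_)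
  · obtain ⟨r, hr, rfl⟩ := Finset.mem_image.1 ht
    rw [Finset.mem_Icc] at hr
    refine hroot K (evalRingHom (pw (Fintype.card F) θ r))
      (fun μ => μ.1.prod fun i k => row F θ u w e r i ^ k) fun i => ?_
    rcases i with _ | i
    · rw [Finset.sum_eq_single (⟨0, h0⟩ : S)]
      · simp [Mx, b]
      · intro μ _ hμ
        simp [Mx, hμ]
      · intro h; exact (h (Finset.mem_univ _)).elim
    · have h1 := hE i r (i.2.le.trans hr.1) hr.2
      rw [ev, eval₂Hom_eq_sum _ _ hS (hB i).1, ← Finset.sum_coe_sort] at h1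
      exact h1.trans (map_zero _).symm
  · rw [Finset.card_image_of_injective _ (ZEx.pw_inj θ hne), Nat.card_Icc]
    omega

end Pool.Agent.P.MP_657a03_nt.CW
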