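import Pool.Agent.P.MP_657a03_nt.CW.Iface

/-! Step ZE1. -/

set_option autoImplicit false
set_option linter.unusedSectionVars false

namespace Pool.Agent.P.MP_657a03_nt.CW

open Polynomial
open scoped Classical

namespace ZE1x

theorem map_Tm {R Ω ι : Type} [CommRing R] [CommRing Ω] (al : R →+* Ω) (σ : R →+* R)
    (τ : Ω →+* Ω) (h : ∀ b, τ (al b) = al (σ b)) (l u : ι → R) (w : MvPolynomial ι R) :
    MvPolynomial.map al (Tm σ l u w) =
      Tm τ (fun i => al (l i)) (fun i => al (u i)) (MvPolynomial.map al w) := by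
  have : (MvPolynomial.map al).comp (Tm σ l u) =
      (Tm τ (fun i => al (l i)) (fun i => al (u i))).comp (MvPolynomial.map al) :=
    MvPolynomial.ringHom_ext (fun r => by simp [h]) fun i => by simp
  exact RingHom.congr_fun this w

theorem map_iter {R Ω ι : Type} [CommRing R] [CommRing Ω] (al : R →+* Ω) (σ : R →+* R)
    (τ : Ω →+* Ω) (h : ∀ b, τ (al b) = al (σ b)) (l u : ι → R) (w : MvPolynomial ι R) (i : ℕ) :
    MvPolynomial.map al ((Tm σ l u)^[i] w) =
      (Tm τ (fun i => al (l i)) (fun i => al (u i)))^[i] (MvPolynomial.map al w) := by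
  induction i with
  | zero => rfl
  | succ i ih => rw [Function.iterate_succ_apply', Function.iterate_succ_apply', map_Tm al σ τ h, ih]

theorem deg_pos {K ι : Type} [Field K] (c : ι → K) (μ : ι →₀ ℕ) (h : μ ≠ 0) :
    0 < (μ.prod fun i k => (X - C (c i)) ^ k).natDegree := by
  rw [Finsupp.prod, natDegree_prod_of_monic _ _ fun i _ => (monic_X_sub_C _).pow _]
  obtain ⟨i, hi⟩ := Finsupp.support_nonempty_iff.2 h
  refine Finset.sum_pos' (fun _ _ => Nat.zero_le _) ⟨i, hi, ?_⟩
  rw [(monic_X_sub_C _).natDegree_pow, natDegree_X_sub_C, mul_one]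
  exact Nat.pos_of_ne_zero (Finsupp.mem_support_iff.1 hi)

section
variable {F K G Ω : Type} [Field F] [Fintype F] [Field K] [Algebra F K] [CommRing Ω]

/-- the substitution over the larger ring -/
noncomputable def rO (F : Type) [Field F] [Fintype F] [Algebra F K] (al : K[X] →+* Ω) (θ : K)
    (u : G → K) (e : ℕ) : MvPolynomial (G ⊕ G) Ω →ₐ[Ω] MvPolynomial G Ω :=
  MvPolynomial.aeval (Sum.elim (fun g => MvPolynomial.C (al (NP F θ (u g) e)) +
    MvPolynomial.C (al (PP F θ e)) * MvPolynomial.X g) MvPolynomial.X)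

theorem rO_map (al : K[X] →+* Ω) (θ : K) (u : G → K) (e : ℕ) (w : MvPolynomial (G ⊕ G) K[X]) :
    rO F al θ u e (MvPolynomial.map al w) = MvPolynomial.map al (rho F θ u e w) := by
  have : (rO F al θ u e).toRingHom.comp (MvPolynomial.map al) =
      (MvPolynomial.map al).comp (rho F θ u e).toRingHom :=
    MvPolynomial.ringHom_ext (fun r => by simp [rO, rho]) fun i => by
      cases i <;> simp [rO, rho]
  exact RingHom.congr_fun this w

theorem rO_Tm (al : K[X] →+* Ω) (τ : Ω →+* Ω) (hτ : ∀ b, τ (al b) = al (b.map (fr F K))) (θ : K)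
    (u : G → K) (e : ℕ) (w : MvPolynomial (G ⊕ G) Ω) :
    rO F al θ u e (Tm τ
      (fun i => al (X - C (Sum.elim (fun _ => pw (Fintype.card F) θ e) (fun _ => θ) i)))
      (fun i => al (Sum.elim (fun g => C (pw (Fintype.card F) (u g) e)) (fun g => C (u g)) i)) w) =
      Tm τ (fun _ => al (X - C θ)) (fun g => al (C (u g))) (rO F al θ u e w) := by
  induction w using MvPolynomial.induction_on with
  | C r => simp [rO]
  | add v w h1 h2 => rw [map_add, map_add, map_add, map_add, h1, h2]
  | mul_X w i h =>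
    rw [map_mul, map_mul, map_mul, map_mul, h]
    congr 1
    cases i with
    | inl g =>
      have a1 := congrArg (fun b => (MvPolynomial.C (al b) : MvPolynomial G Ω))
        (map_NP F θ (u g) e)
      have a2 := congrArg (fun b => (MvPolynomial.C (al b) : MvPolynomial G Ω))
        (map_PP_mul F θ e)
      simp only [map_mul, map_add, map_sub] at a1 a2
      simp only [rO, Tm_X, Tm_C, map_add, map_mul, MvPolynomial.aeval_X, MvPolynomial.aeval_C,
        MvPolynomial.algebraMap_eq, Sum.elim_inl, hτ, map_sub]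
      linear_combination -a1 - a2 * MvPolynomial.X g
    | inr g => simp [rO]

end

end ZE1x

theorem p_ZE1 (hONE : S_ONE) (hHH : S_HH) (hDEN : S_DEN) (hRHO : S_RHO) :
    S_ZE1 := by
  intro F K G _ _ _ _ _ θ u e n S v g0 hI he hS hv h0
  obtain ⟨p, hp⟩ := CharP.exists F
  have : Fact p.Prime := ⟨CharP.char_is_prime F p⟩
  have : CharP K p := charP_of_injective_algebraMap (algebraMap F K).injective p
  obtain ⟨Ω, _, _, _⟩ : ∃ (Ω : Type) (_ : Field Ω) (_ : Algebra K[X] Ω), IsFractionRing K[X] Ω :=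
    ⟨FractionRing K[X], inferInstance, inferInstance, inferInstance⟩
  have ai : Function.Injective (algebraMap K[X] Ω) := IsFractionRing.injective K[X] Ω
  have : CharP Ω p :=
    charP_of_injective_ringHom (f := (algebraMap K[X] Ω).comp C) (RingHom.injective _) p
  obtain ⟨τ, hτ⟩ : ∃ τ : Ω →+* Ω,
      ∀ b : K[X], τ (algebraMap K[X] Ω b) = algebraMap K[X] Ω (b.map (fr F K)) :=
    have fi : Function.Injective ((algebraMap K[X] Ω).comp (mapRingHom (fr F K))) :=
      ai.comp (map_injective _ (fr F K).injective)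
    ⟨IsFractionRing.lift (A := K[X]) (K := Ω) fi, fun b => IsFractionRing.lift_algebraMap fi b⟩
  have hT : T2 F θ u e = Tm (mapRingHom (fr F K))
      (fun i => X - C (Sum.elim (fun _ => pw (Fintype.card F) θ e) (fun _ => θ) i))
      (Sum.elim (fun g => C (pw (Fintype.card F) (u g) e)) fun g => C (u g)) := by
    rw [T2]
    congr 1
    ext1 i
    cases i <;> rfl
  have e1 : ∀ μ : G ⊕ G →₀ ℕ, μ ≠ 0 → ∀ f, (μ.prod fun i k => algebraMap K[X] Ω
      (X - C (Sum.elim (fun _ => pw (Fintype.card F) θ e) (fun _ => θ) i)) ^ k) * τ f = f →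
      f = 0 := fun μ hμ f hf => by
    refine (hDEN F K Ω τ hτ).2.2 f _ (ZE1x.deg_pos
      (Sum.elim (fun _ => pw (Fintype.card F) θ e) fun _ => θ) μ hμ) ?_
    rw [map_finsuppProd]
    simp only [map_pow]
    exact hf
  have e2 : ZE1x.rO F (algebraMap K[X] Ω) θ u e (MvPolynomial.map (algebraMap K[X] Ω) v) ≠ 0 := by
    rw [ZE1x.rO_map, Ne, map_eq_zero_iff _ (MvPolynomial.map_injective _ ai)]
    exact hRHO F K G θ u e n v g0 he hv h0
  have e3 : (MvPolynomial.map (algebraMap K[X] Ω) v).totalDegree ≤ n :=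
    totalDegree_le_iff.2 fun μ hμ => totalDegree_le_iff.1 hv μ fun h =>
      hμ (by rw [MvPolynomial.coeff_map, h, map_zero])
  obtain ⟨a, ha⟩ := hONE Ω G (G ⊕ G) p τ _ _ _ _ _ n S _ (hHH F K G Ω p τ θ u hτ hI) e1
    (ZE1x.rO_Tm _ τ hτ θ u e) hS e3 e2
  obtain ⟨b, hb⟩ := IsLocalization.exist_integer_multiples_of_finite (nonZeroDivisors K[X]) a
  choose a' ha' using hb
  refine ⟨b, a', nonZeroDivisors.coe_ne_zero b, MvPolynomial.map_injective _ ai ?_⟩
  rw [map_sum, MvPolynomial.map_C, ← mul_one (MvPolynomial.C (algebraMap K[X] Ω b)), ha,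
    Finset.mul_sum]
  refine Finset.sum_congr rfl fun i _ => ?_
  rw [map_mul (MvPolynomial.map _), MvPolynomial.map_C, hT, ZE1x.map_iter _ _ τ hτ, ha' i,
    Algebra.smul_def, map_mul MvPolynomial.C, mul_assoc]

end Pool.Agent.P.MP_657a03_nt.CW
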