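import Pool.Agent.P.MP_657a03_nt.CW.TMIN
import Pool.Agent.P.MP_657a03_nt.CW.TTRI
import Pool.Agent.P.MP_657a03_nt.CW.TDESC
import Pool.Agent.P.MP_657a03_nt.CW.TEXP
import Pool.Agent.P.MP_657a03_nt.CW.TEV
import Pool.Agent.P.MP_657a03_nt.CW.TSTA
import Pool.Agent.P.MP_657a03_nt.CW.TSTB
import Pool.Agent.P.MP_657a03_nt.CW.TSTAB
import Pool.Agent.P.MP_657a03_nt.CW.TONE
import Pool.Agent.P.MP_657a03_nt.CW.TTOR
import Pool.Agent.P.MP_657a03_nt.CW.TINDP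
import Pool.Agent.P.MP_657a03_nt.CW.TDEN
import Pool.Agent.P.MP_657a03_nt.CW.THH
import Pool.Agent.P.MP_657a03_nt.CW.TTW
import Pool.Agent.P.MP_657a03_nt.CW.TRHO
import Pool.Agent.P.MP_657a03_nt.CW.TZE1
import Pool.Agent.P.MP_657a03_nt.CW.TZE
import Pool.Agent.P.MP_657a03_nt.CW.TTOP
import Pool.Agent.P.MP_657a03_nt.CW.TROWE
import Pool.Agent.P.MP_657a03_nt.CW.THB
import Pool.Agent.P.MP_657a03_nt.CW.TENT
import Pool.Agent.P.MP_657a03_nt.CW.TCORE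
import Pool.Agent.P.MP_657a03_nt.CW.THT
import Pool.Agent.P.MP_657a03_nt.CW.TSET
import Pool.Agent.P.MP_657a03_nt.CW.TROOT
import Pool.Agent.P.MP_657a03_nt.CW.TGLOB
import Pool.Agent.P.MP_657a03_nt.CW.TDER
import Pool.Agent.P.MP_657a03_nt.CW.TPACK
import Pool.Agent.P.MP_657a03_nt.CW.TFROB
import Pool.Agent.P.MP_657a03_nt.CW.TRAD
import Pool.Agent.P.MP_657a03_nt.CW.TKILL
import Pool.Agent.P.MP_657a03_nt.CW.TDIV
import Pool.Agent.P.MP_657a03_nt.CW.TPSI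
import Pool.Agent.P.MP_657a03_nt.CW.TNRM
import Pool.Agent.P.MP_657a03_nt.CW.TLOG1
import Pool.Agent.P.MP_657a03_nt.CW.TLOG
import Pool.Agent.P.MP_657a03_nt.CW.TRES
import Pool.Agent.P.MP_657a03_nt.CW.TBAD
import Pool.Agent.P.MP_657a03_nt.CW.TCNT
import Pool.Agent.P.MP_657a03_nt.CW.TASY
import Pool.Agent.P.MP_657a03_nt.CW.TMAIN

/-! All steps put together. -/

set_option autoImplicit false

namespace Pool.Agent.P.MP_657a03_nt.CW

theorem t_MIN : S_MIN := p_MIN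
theorem t_TRI : S_TRI := p_TRI
theorem t_DESC : S_DESC := p_DESC
theorem t_EXP : S_EXP := p_EXP
theorem t_EV : S_EV := p_EV t_TRI t_EXP
theorem t_STA : S_STA := p_STA t_TRI t_DESC t_EV
theorem t_STB : S_STB := p_STB t_TRI t_DESC
theorem t_STAB : S_STAB := p_STAB t_TRI
theorem t_ONE : S_ONE := p_ONE t_STA t_STB t_STAB
theorem t_TOR : S_TOR := p_TOR
theorem t_INDP : S_INDP := p_INDP
theorem t_DEN : S_DEN := p_DEN
theorem t_HH : S_HH := p_HH t_TOR t_INDP t_DEN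
theorem t_TW : S_TW := p_TW
theorem t_RHO : S_RHO := p_RHO t_TRI
theorem t_ZE1 : S_ZE1 := p_ZE1 t_ONE t_HH t_DEN t_RHO
theorem t_ZE : S_ZE := p_ZE t_MIN t_ZE1 t_TW
theorem t_TOP : S_TOP := p_TOP t_TRI
theorem t_ROWE : S_ROWE := p_ROWE t_TW t_TOP
theorem t_HB : S_HB := p_HB
theorem t_ENT : S_ENT := p_ENT
theorem t_CORE : S_CORE := p_CORE t_MIN t_ZE t_ROWE t_HB t_ENT
theorem t_HT : S_HT := p_HT
theorem t_SET : S_SET := p_SET
theorem t_ROOT : S_ROOT := p_ROOT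
theorem t_GLOB : S_GLOB := p_GLOB t_SET t_CORE t_HT t_ROOT
theorem t_DER : S_DER := p_DER
theorem t_PACK : S_PACK := p_PACK t_DER
theorem t_FROB : S_FROB := p_FROB t_ROOT
theorem t_RAD : S_RAD := p_RAD
theorem t_KILL : S_KILL := p_KILL t_ROOT
theorem t_DIV : S_DIV := p_DIV t_FROB t_RAD t_KILL
theorem t_PSI : S_PSI := p_PSI
theorem t_NRM : S_NRM := p_NRM
theorem t_LOG1 : S_LOG1 := p_LOG1
theorem t_LOG : S_LOG := p_LOG t_NRM t_LOG1
theorem t_RES : S_RES := p_RES t_NRM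
theorem t_BAD : S_BAD := p_BAD t_FROB t_ROOT t_DIV t_PSI t_LOG t_RES
theorem t_CNT : S_CNT := p_CNT
theorem t_ASY : S_ASY := p_ASY
theorem t_MAIN : S_MAIN := p_MAIN t_GLOB t_PACK t_BAD t_CNT t_ASY

end Pool.Agent.P.MP_657a03_nt.CW
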