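import Pool.Agent.P.MP_657a03_nt.CW.Defs

/-! Shared definitions and small lemmas. -/

set_option autoImplicit false
set_option linter.unusedSectionVars false

namespace Pool.Agent.P.MP_657a03_nt.CW

open Polynomial
open scoped Classical

/-! ### The Carlitz action -/

section carlitz
variable {F S : Type} [Field F] [Fintype F] [CommRing S] [Algebra F S]

/-- The `q`-th power map. -/
noncomputable def fr (F S : Type) [Field F] [Fintype F] [CommRing S] [Algebra F S] : S →+* S :=
  (FiniteField.frobeniusAlgHom F S).toRingHom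

@[simp] theorem fr_apply (x : S) : fr F S x = x ^ Fintype.card F := rfl

theorem fr_algebraMap (c : F) : (algebraMap F S c) ^ Fintype.card F = algebraMap F S c := by
  rw [← map_pow, FiniteField.pow_card]

theorem fr_iter (j : ℕ) (x : S) : (fr F S)^[j] x = x ^ Fintype.card F ^ j := by
  induction j with
  | zero => simp
  | succ j ih => rw [Function.iterate_succ_apply', ih, fr_apply, ← pow_mul, pow_succ]

/-- The action of the variable as a linear map. -/
noncomputable def cT (F : Type) {S : Type} [Field F] [Fintype F] [CommRing S] [Algebra F S]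
    (θ : S) : Module.End F S :=
  LinearMap.mulLeft F θ + (FiniteField.frobeniusAlgHom F S).toLinearMap

theorem cT_apply (θ x : S) : cT F θ x = θ * x + x ^ Fintype.card F := rfl

theorem carlitz_eq (θ : S) (g : F[X]) (x : S) : carlitz θ g x = aeval (cT F θ) g x := by
  rw [carlitz, aeval_endomorphism]
  refine Finset.sum_congr rfl fun i _ => ?_
  simp only [Module.End.pow_apply]
  rfl

theorem carlitz_zero (θ x : S) : carlitz θ (0 : F[X]) x = 0 := by simp [carlitz_eq]

theorem carlitz_zero_right (θ : S) (g : F[X]) : carlitz θ g (0 : S) = 0 := by simp [carlitz_eq]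

theorem carlitz_add (θ : S) (g h : F[X]) (x : S) :
    carlitz θ (g + h) x = carlitz θ g x + carlitz θ h x := by simp [carlitz_eq]

theorem carlitz_add_right (θ : S) (g : F[X]) (x y : S) :
    carlitz θ g (x + y) = carlitz θ g x + carlitz θ g y := by simp [carlitz_eq]

theorem carlitz_smul_right (θ : S) (g : F[X]) (c : F) (x : S) :
    carlitz θ g (c • x) = c • carlitz θ g x := by simp [carlitz_eq]

theorem carlitz_mul (θ : S) (g h : F[X]) (x : S) :
    carlitz θ (g * h) x = carlitz θ g (carlitz θ h x) := by simp [carlitz_eq]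

theorem carlitz_C (θ : S) (c : F) (x : S) : carlitz θ (C c) x = c • x := by
  simp [carlitz_eq, Module.algebraMap_end_apply]

theorem carlitz_X (θ x : S) : carlitz θ (X : F[X]) x = θ * x + x ^ Fintype.card F := by
  simp [carlitz_eq, cT_apply]

/-- A linear map that turns the action of the variable into an endomorphism `m`. -/
theorem carlitz_intertwine {N : Type} [AddCommGroup N] [Module F N] (θ : S) (ψ : S →ₗ[F] N)
    (m : Module.End F N) (h : ∀ x, ψ (θ * x + x ^ Fintype.card F) = m (ψ x)) (g : F[X]) (x : S) :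
    ψ (carlitz θ g x) = aeval m g (ψ x) := by
  induction g using Polynomial.induction_on generalizing x with
  | C c => simp [carlitz_C, Module.algebraMap_end_apply]
  | add g g' hg hg' => simp [carlitz_add, hg, hg']
  | monomial i c ih =>
    rw [pow_succ, ← mul_assoc, carlitz_mul, carlitz_X, ih, h, map_mul _ (C c * X ^ i) X, aeval_X,
      Module.End.mul_apply]

theorem map_carlitz {S' : Type} [CommRing S'] [Algebra F S'] (φ : S →ₐ[F] S') (θ : S) (g : F[X])
    (x : S) : φ (carlitz θ g x) = carlitz (φ θ) g (φ x) := by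
  rw [carlitz_eq (φ θ)]
  exact carlitz_intertwine θ φ.toLinearMap (cT F (φ θ)) (fun y => by simp [cT_apply]) g x

/-- Independence of a family of points under the Carlitz action. -/
def Indep (F : Type) {S G : Type} [Field F] [Fintype F] [CommRing S] [Algebra F S] [Fintype G]
    (θ : S) (u : G → S) : Prop :=
  ∀ a : G → F[X], ∑ g, carlitz θ (a g) (u g) = 0 → a = 0

end carlitz

/-! ### Horner sums -/

section horner
variable {S S' : Type} [CommRing S] [CommRing S']

/-- `hn x u t l = ∑ m < l, u m * ∏ m < j < l, (t - x j)`. -/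
def hn (x u : ℕ → S) (t : S) : ℕ → S
  | 0 => 0
  | l + 1 => hn x u t l * (t - x l) + u l

/-- `pr x t l = ∏ j < l, (t - x j)`. -/
def pr (x : ℕ → S) (t : S) (l : ℕ) : S := ∏ j ∈ Finset.range l, (t - x j)

@[simp] theorem hn_zero (x u : ℕ → S) (t : S) : hn x u t 0 = 0 := rfl
theorem hn_succ (x u : ℕ → S) (t : S) (l : ℕ) :
    hn x u t (l + 1) = hn x u t l * (t - x l) + u l := rfl
@[simp] theorem pr_zero (x : ℕ → S) (t : S) : pr x t 0 = 1 := rfl
theorem pr_succ (x : ℕ → S) (t : S) (l : ℕ) : pr x t (l + 1) = pr x t l * (t - x l) :=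
  Finset.prod_range_succ _ _
theorem pr_succ' (x : ℕ → S) (t : S) (l : ℕ) :
    pr x t (l + 1) = pr (fun j => x (j + 1)) t l * (t - x 0) := Finset.prod_range_succ' _ _

theorem pr_eq_zero (x : ℕ → S) (t : S) {l j : ℕ} (hj : j < l) (h : x j = t) : pr x t l = 0 :=
  Finset.prod_eq_zero (Finset.mem_range.2 hj) (by rw [h, sub_self])

theorem map_hn {Φ : Type} [FunLike Φ S S'] [RingHomClass Φ S S'] (φ : Φ) (x u : ℕ → S) (t : S)
    (l : ℕ) : φ (hn x u t l) = hn (fun j => φ (x j)) (fun j => φ (u j)) (φ t) l := by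
  induction l with
  | zero => simp
  | succ l ih => simp [hn_succ, ih]

theorem map_pr {Φ : Type} [FunLike Φ S S'] [RingHomClass Φ S S'] (φ : Φ) (x : ℕ → S) (t : S)
    (l : ℕ) : φ (pr x t l) = pr (fun j => φ (x j)) (φ t) l := by
  simp [pr]

theorem hn_add (x u : ℕ → S) (t : S) (l l' : ℕ) : hn x u t (l + l') =
    hn x u t l * pr (fun j => x (l + j)) t l' +
      hn (fun j => x (l + j)) (fun j => u (l + j)) t l' := by
  induction l' with
  | zero => simp
  | succ l' ih => rw [← add_assoc, hn_succ, ih, hn_succ, pr_succ]; ring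

theorem hn_shift (x u : ℕ → S) (t : S) (l : ℕ) :
    hn (fun j => x (j + 1)) (fun j => u (j + 1)) t l =
      hn x u t l * (t - x l) + u l - u 0 * pr (fun j => x (j + 1)) t l := by
  induction l with
  | zero => simp
  | succ l ih => rw [hn_succ, ih, hn_succ, pr_succ]; ring

theorem hn_step (x u : ℕ → S) (t : S) (l : ℕ) :
    hn x (fun m => x m * u m + u (m + 1)) t l = t * hn x u t l - u 0 * pr x t l + u l := by
  induction l with
  | zero => simp
  | succ l ih => rw [hn_succ, ih, hn_succ, pr_succ]; ring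

theorem hn_add_u (x u v : ℕ → S) (t : S) (l : ℕ) :
    hn x (fun m => u m + v m) t l = hn x u t l + hn x v t l := by
  induction l with
  | zero => simp
  | succ l ih => rw [hn_succ, ih, hn_succ, hn_succ]; ring

theorem hn_mul_u (x u : ℕ → S) (c t : S) (l : ℕ) :
    hn x (fun m => c * u m) t l = c * hn x u t l := by
  induction l with
  | zero => simp
  | succ l ih => rw [hn_succ, ih, hn_succ]; ring

/-- The sequence of `q ^ j`-th powers. -/
def pw (q : ℕ) (a : S) (j : ℕ) : S := a ^ q ^ j

@[simp] theorem pw_zero (q : ℕ) (a : S) : pw q a 0 = a := by simp [pw]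
theorem pw_succ (q : ℕ) (a : S) (j : ℕ) : pw q a (j + 1) = pw q a j ^ q := by
  rw [pw, pw, ← pow_mul, pow_succ]
theorem pw_add (q : ℕ) (a : S) (i j : ℕ) : pw q a (i + j) = pw q (pw q a i) j := by
  rw [pw, pw, pw, ← pow_mul, pow_add]
theorem map_pw {Φ : Type} [FunLike Φ S S'] [RingHomClass Φ S S'] (φ : Φ) (q : ℕ) (a : S) (j : ℕ) :
    φ (pw q a j) = pw q (φ a) j := by simp [pw]

/-- The denominators of the rows. -/
def Pd (q : ℕ) (θ : S) : ℕ → S
  | 0 => 1
  | r + 1 => (pw q θ (r + 1) - θ) * Pd q θ r ^ q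

/-- The numerators of the rows. -/
def Bn (q : ℕ) (θ u w : S) : ℕ → S
  | 0 => w
  | r + 1 => Bn q θ u w r ^ q - u * Pd q θ r ^ q

/-- The value of the truncated sum at `θ ^ q ^ r`. -/
def nn (q : ℕ) (θ u : S) (e r : ℕ) : S := hn (pw q θ) (pw q u) (pw q θ r) e

theorem map_Pd {Φ : Type} [FunLike Φ S S'] [RingHomClass Φ S S'] (φ : Φ) (q : ℕ) (θ : S) (r : ℕ) :
    φ (Pd q θ r) = Pd q (φ θ) r := by
  induction r with
  | zero => simp [Pd]
  | succ r ih => simp [Pd, ih, map_pw]

theorem map_Bn {Φ : Type} [FunLike Φ S S'] [RingHomClass Φ S S'] (φ : Φ) (q : ℕ) (θ u w : S)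
    (r : ℕ) : φ (Bn q θ u w r) = Bn q (φ θ) (φ u) (φ w) r := by
  induction r with
  | zero => simp [Bn]
  | succ r ih => simp [Bn, ih, map_Pd]

theorem map_nn {Φ : Type} [FunLike Φ S S'] [RingHomClass Φ S S'] (φ : Φ) (q : ℕ) (θ u : S)
    (e r : ℕ) : φ (nn q θ u e r) = nn q (φ θ) (φ u) e r := by
  simp only [nn, map_hn, map_pw]

theorem Pd_ne_zero [IsDomain S] (q : ℕ) (θ : S) (r : ℕ)
    (h : ∀ j, 0 < j → j ≤ r → pw q θ j ≠ θ) : Pd q θ r ≠ 0 := by
  induction r with
  | zero => exact one_ne_zero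
  | succ r ih =>
    exact mul_ne_zero (sub_ne_zero.2 (h _ (Nat.succ_pos r) le_rfl))
      (pow_ne_zero _ (ih fun j h1 h2 => h j h1 (h2.trans (Nat.le_succ r))))

end horner

/-! ### Twisting maps on polynomial rings -/

section twist

/-- The ring map that is `τ` on coefficients and sends `X i` to `l i * X i + u i`. -/
noncomputable def Tm {R S ι : Type} [CommRing R] [CommRing S] (τ : R →+* S) (l u : ι → S) :
    MvPolynomial ι R →+* MvPolynomial ι S :=
  MvPolynomial.eval₂Hom (MvPolynomial.C.comp τ)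
    fun i => MvPolynomial.C (l i) * MvPolynomial.X i + MvPolynomial.C (u i)

@[simp] theorem Tm_C {R S ι : Type} [CommRing R] [CommRing S] (τ : R →+* S) (l u : ι → S) (c : R) :
    Tm τ l u (MvPolynomial.C c) = MvPolynomial.C (τ c) := by simp [Tm]

@[simp] theorem Tm_X {R S ι : Type} [CommRing R] [CommRing S] (τ : R →+* S) (l u : ι → S) (i : ι) :
    Tm τ l u (MvPolynomial.X i) =
      MvPolynomial.C (l i) * MvPolynomial.X i + MvPolynomial.C (u i) := by simp [Tm]

/-- The hypotheses on a field with an endomorphism under which the stable subspaces are known. -/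
structure HD {Ω ι : Type} [Field Ω] [Fintype ι] (p : ℕ) (τ : Ω →+* Ω) (l : Ω) (u : ι → Ω) :
    Prop where
  ne : l ≠ 0
  h1 : ∀ (j : ℕ) (f : Ω), 1 ≤ j → l ^ j * τ f = f → f = 0
  h2 : ∀ (a : ℕ) (c : ι → Ω) (f : Ω), (∀ i, τ (c i) = c i) →
    τ f + ∑ i, c i * u i ^ p ^ a = l ^ p ^ a * f → ∀ i, c i = 0

/-- Total degree at most `a`, coefficients of degree at most `b`. -/
def Bd {E ι : Type} [CommRing E] (a b : ℕ) (v : MvPolynomial ι E[X]) : Prop :=
  v.totalDegree ≤ a ∧ ∀ μ, (MvPolynomial.coeff μ v).natDegree ≤ b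

section bd
variable {E ι : Type} [CommRing E] {a b a' b' : ℕ} {v v' : MvPolynomial ι E[X]}

theorem Bd.mono (h : Bd a b v) (ha : a ≤ a') (hb : b ≤ b') : Bd a' b' v :=
  ⟨h.1.trans ha, fun μ => (h.2 μ).trans hb⟩

theorem Bd.zero : Bd a b (0 : MvPolynomial ι E[X]) := ⟨by simp, by simp⟩

theorem Bd.C {c : E[X]} (h : c.natDegree ≤ b) : Bd 0 b (MvPolynomial.C c : MvPolynomial ι E[X]) :=
  ⟨by simp, fun μ => by rw [MvPolynomial.coeff_C]; split_ifs <;> simp [h]⟩

theorem Bd.one : Bd 0 0 (1 : MvPolynomial ι E[X]) := Bd.C (c := 1) (by simp)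

theorem Bd.X (i : ι) : Bd 1 0 (MvPolynomial.X i : MvPolynomial ι E[X]) :=
  ⟨(MvPolynomial.totalDegree_monomial_le _ _).trans (by simp), fun μ => by
    rw [MvPolynomial.coeff_X]; split_ifs <;> simp⟩

theorem Bd.add (h : Bd a b v) (h' : Bd a b v') : Bd a b (v + v') :=
  ⟨(MvPolynomial.totalDegree_add _ _).trans (max_le h.1 h'.1), fun μ => by
    rw [MvPolynomial.coeff_add]; exact natDegree_add_le_of_degree_le (h.2 μ) (h'.2 μ)⟩

theorem Bd.neg (h : Bd a b v) : Bd a b (-v) :=
  ⟨by rw [MvPolynomial.totalDegree_neg]; exact h.1, fun μ => by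
    rw [MvPolynomial.coeff_neg, natDegree_neg]; exact h.2 μ⟩

theorem Bd.sub (h : Bd a b v) (h' : Bd a b v') : Bd a b (v - v') := by
  rw [sub_eq_add_neg]; exact h.add h'.neg

theorem Bd.mul (h : Bd a b v) (h' : Bd a' b' v') : Bd (a + a') (b + b') (v * v') :=
  ⟨(MvPolynomial.totalDegree_mul _ _).trans (add_le_add h.1 h'.1), fun μ => by
    rw [MvPolynomial.coeff_mul]
    exact natDegree_sum_le_of_forall_le _ _ fun x _ =>
      natDegree_mul_le.trans (add_le_add (h.2 _) (h'.2 _))⟩

theorem Bd.pow (h : Bd a b v) (m : ℕ) : Bd (m * a) (m * b) (v ^ m) := by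
  induction m with
  | zero => simpa using Bd.one
  | succ m ih => rw [pow_succ, Nat.succ_mul, Nat.succ_mul]; exact ih.mul h

theorem Bd.sum {J : Type} (s : Finset J) (f : J → MvPolynomial ι E[X]) (h : ∀ j ∈ s, Bd a b (f j)) :
    Bd a b (∑ j ∈ s, f j) :=
  Finset.sum_induction f (Bd a b) (fun _ _ => Bd.add) Bd.zero h

theorem Bd.prod {J : Type} (s : Finset J) (f : J → MvPolynomial ι E[X]) (α β : J → ℕ)
    (h : ∀ j ∈ s, Bd (α j) (β j) (f j)) : Bd (∑ j ∈ s, α j) (∑ j ∈ s, β j) (∏ j ∈ s, f j) := by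
  induction s using Finset.induction_on with
  | empty => simpa using Bd.one
  | insert j s hj ih =>
    rw [Finset.sum_insert hj, Finset.sum_insert hj, Finset.prod_insert hj]
    exact (h j (Finset.mem_insert_self _ _)).mul
      (ih fun i hi => h i (Finset.mem_insert_of_mem hi))

end bd

variable (F : Type) {E G : Type} [Field F] [Fintype F] [Field E] [Algebra F E]

/-- The values of the variables on row `r`. -/
noncomputable def row (θ : E) (u w : G → E) (e r : ℕ) : G ⊕ G → E :=
  Sum.elim (fun g => nn (Fintype.card F) θ (u g) e r)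
    fun g => Bn (Fintype.card F) θ (u g) (w g) r / Pd (Fintype.card F) θ r

/-- Evaluation on row `r`. -/
noncomputable def ev (θ : E) (u w : G → E) (e r : ℕ) : MvPolynomial (G ⊕ G) E[X] →+* E :=
  MvPolynomial.eval₂Hom (evalRingHom (pw (Fintype.card F) θ r)) (row F θ u w e r)

/-- The twist that moves row `r` to row `r + 1`. -/
noncomputable def T2 (θ : E) (u : G → E) (e : ℕ) :
    MvPolynomial (G ⊕ G) E[X] →+* MvPolynomial (G ⊕ G) E[X] :=
  Tm (mapRingHom (fr F E))
    (Sum.elim (fun _ => X - C (pw (Fintype.card F) θ e)) fun _ => X - C θ)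
    (Sum.elim (fun g => C (pw (Fintype.card F) (u g) e)) fun g => C (u g))

/-- The truncated sum as a polynomial. -/
noncomputable def NP (θ u : E) (e : ℕ) : E[X] :=
  hn (fun j => C (pw (Fintype.card F) θ j)) (fun j => C (pw (Fintype.card F) u j)) X e

/-- The polynomial with the roots `θ ^ q ^ j`, `j < e`. -/
noncomputable def PP (θ : E) (e : ℕ) : E[X] := pr (fun j => C (pw (Fintype.card F) θ j)) X e

theorem eval_NP (θ u t : E) (e : ℕ) :
    (NP F θ u e).eval t = hn (pw (Fintype.card F) θ) (pw (Fintype.card F) u) t e := by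
  have := map_hn (evalRingHom t) (fun j => C (pw (Fintype.card F) θ j))
    (fun j => C (pw (Fintype.card F) u j)) X e
  simpa [NP] using this

theorem eval_PP (θ t : E) (e : ℕ) : (PP F θ e).eval t = pr (pw (Fintype.card F) θ) t e := by
  simp [PP, pr, eval_prod]

theorem map_PP (θ : E) (e : ℕ) :
    (PP F θ e).map (fr F E) = pr (fun j => C (pw (Fintype.card F) θ (j + 1))) X e := by
  have := map_pr (mapRingHom (fr F E)) (fun j => C (pw (Fintype.card F) θ j)) X e
  simp only [coe_mapRingHom, map_C, map_X, fr_apply, ← pw_succ] at this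
  exact this

theorem map_PP_mul (θ : E) (e : ℕ) : (PP F θ e).map (fr F E) * (X - C θ) =
    PP F θ e * (X - C (pw (Fintype.card F) θ e)) := by
  have h := pr_succ' (fun j => C (pw (Fintype.card F) θ j)) X e
  rw [pr_succ] at h
  rw [map_PP, PP, h, pw_zero]

theorem map_NP (θ u : E) (e : ℕ) : (NP F θ u e).map (fr F E) =
    NP F θ u e * (X - C (pw (Fintype.card F) θ e)) + C (pw (Fintype.card F) u e) -
      C u * (PP F θ e).map (fr F E) := by
  have := map_hn (mapRingHom (fr F E)) (fun j => C (pw (Fintype.card F) θ j))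
    (fun j => C (pw (Fintype.card F) u j)) X e
  simp only [coe_mapRingHom, map_C, map_X, fr_apply, ← pw_succ] at this
  have h := hn_shift (fun j => C (pw (Fintype.card F) θ j))
    (fun j => C (pw (Fintype.card F) u j)) X e
  rw [map_PP, NP, this, h, pw_zero]

/-- The substitution that removes the first family of variables. -/
noncomputable def rho (θ : E) (u : G → E) (e : ℕ) :
    MvPolynomial (G ⊕ G) E[X] →ₐ[E[X]] MvPolynomial G E[X] :=
  MvPolynomial.aeval (Sum.elim
    (fun g => MvPolynomial.C (NP F θ (u g) e) + MvPolynomial.C (PP F θ e) * MvPolynomial.X g)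
    MvPolynomial.X)

/-- The matrix whose determinant vanishes at the exceptional primes. -/
noncomputable def psiM [Group G] (θ : E) (u w : G → E) (σ0 : G) (d : ℕ) : Matrix G G E :=
  Matrix.of fun σ τ => hn (pw (Fintype.card F) θ) (pw (Fintype.card F) (u (σ * τ))) θ d -
    w (σ0 * (σ * τ))

/-- What holds in the residue field at an exceptional prime of degree `d`. -/
structure Exc [Group G] [Fintype G] (θ : E) (u w : G → E) (σ0 : G) (d : ℕ) : Prop where
  per : pw (Fintype.card F) θ d = θ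
  ne : ∀ j, 0 < j → j < d → pw (Fintype.card F) θ j ≠ θ
  frob : ∀ g, pw (Fintype.card F) (u g) d = u (σ0 * g)
  det : (psiM F θ u w σ0 d).det = 0

end twist

/-- The entries of the linear system, with the denominators cleared. -/
noncomputable def ent {S G : Type} [CommRing S] [Fintype G] (q : ℕ) (θ : S) (u w : G → S)
    (e r n : ℕ) (μ : G ⊕ G →₀ ℕ) (i : ℕ) : S :=
  pw q θ r ^ i * (∏ g, nn q θ (u g) e r ^ μ (Sum.inl g)) *
    (∏ g, Bn q θ (u g) (w g) r ^ μ (Sum.inr g)) * Pd q θ r ^ (n - ∑ g, μ (Sum.inr g))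

theorem map_ent {S S' G Φ : Type} [CommRing S] [CommRing S'] [Fintype G] [FunLike Φ S S']
    [RingHomClass Φ S S'] (φ : Φ) (q : ℕ) (θ : S) (u w : G → S) (e r n : ℕ) (μ : G ⊕ G →₀ ℕ)
    (i : ℕ) : φ (ent q θ u w e r n μ i) =
      ent q (φ θ) (fun g => φ (u g)) (fun g => φ (w g)) e r n μ i := by
  simp [ent, map_pw, map_nn, map_Bn, map_Pd]

theorem degree_le_of_mem_support {R ι : Type} [CommRing R] {v : MvPolynomial ι R} {μ : ι →₀ ℕ}
    (h : μ ∈ v.support) : Finsupp.degree μ ≤ v.totalDegree := by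
  rw [Finsupp.degree_apply]
  exact MvPolynomial.le_totalDegree h

theorem coeff_eq_zero_of_lt {R ι : Type} [CommRing R] {v : MvPolynomial ι R} {μ : ι →₀ ℕ}
    (h : v.totalDegree < Finsupp.degree μ) : MvPolynomial.coeff μ v = 0 := by
  by_contra h0
  exact absurd (degree_le_of_mem_support (MvPolynomial.mem_support_iff.2 h0)) (not_le.2 h)

theorem totalDegree_le_iff {R ι : Type} [CommRing R] {v : MvPolynomial ι R} {n : ℕ} :
    v.totalDegree ≤ n ↔ ∀ μ, MvPolynomial.coeff μ v ≠ 0 → Finsupp.degree μ ≤ n :=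
  ⟨fun h _ hμ => (degree_le_of_mem_support (MvPolynomial.mem_support_iff.2 hμ)).trans h,
    fun h => Finset.sup_le fun μ hμ => by
      have := h μ (MvPolynomial.mem_support_iff.1 hμ)
      rwa [Finsupp.degree_apply] at this⟩

theorem exists_top {R ι : Type} [CommRing R] {v : MvPolynomial ι R} (h : v ≠ 0) :
    ∃ μ, Finsupp.degree μ = v.totalDegree ∧ MvPolynomial.coeff μ v ≠ 0 := by
  obtain ⟨μ, hμ, e⟩ := Finset.exists_mem_eq_sup v.support
    (MvPolynomial.support_nonempty.2 h) fun s => s.sum fun _ e => e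
  exact ⟨μ, by rw [Finsupp.degree_apply]; exact e.symm, MvPolynomial.mem_support_iff.1 hμ⟩

theorem eval₂Hom_eq_sum {R E ι : Type} [CommRing R] [CommRing E] (φ : R →+* E) (z : ι → E)
    {n : ℕ} {S : Finset (ι →₀ ℕ)} (hS : ∀ μ, Finsupp.degree μ ≤ n → μ ∈ S)
    {v : MvPolynomial ι R} (hv : v.totalDegree ≤ n) : MvPolynomial.eval₂Hom φ z v =
      ∑ μ ∈ S, φ (MvPolynomial.coeff μ v) * μ.prod fun i k => z i ^ k := by
  rw [MvPolynomial.coe_eval₂Hom, MvPolynomial.eval₂_eq]
  refine Finset.sum_subset (fun μ hμ => hS μ ((degree_le_of_mem_support hμ).trans hv))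
    fun μ _ h => ?_
  rw [MvPolynomial.notMem_support_iff.1 h, map_zero, zero_mul]

/-- A prime ideal is the kernel of a map to a field. -/
theorem exists_resHom (F R : Type) [Field F] [CommRing R] [Algebra F R] (I : Ideal R)
    [I.IsPrime] : ∃ (E : Type) (_ : Field E) (_ : Algebra F E) (π : R →ₐ[F] E),
      ∀ x, π x = 0 ↔ x ∈ I :=
  ⟨I.ResidueField, inferInstance, inferInstance, IsScalarTower.toAlgHom F R I.ResidueField,
    fun _ => Ideal.algebraMap_residueField_eq_zero⟩

theorem aeval_theta {F K : Type} [Field F] [CommRing K] [Algebra F K] [Algebra F[X] K]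
    [IsScalarTower F F[X] K] (a : F[X]) : aeval (algebraMap F[X] K X) a = algebraMap F[X] K a := by
  rw [aeval_algebraMap_apply, aeval_X_left_apply]

/-- `R` is the integral closure of `F[X]` in `K` with `s` inverted, and it is stable under `D`. -/
structure Pack {F K : Type} [Field F] [Field K] [Algebra F K] [Algebra F[X] K]
    (R : Subalgebra F K) (s : F[X]) (D : Derivation F K K) : Prop where
  ne : s ≠ 0
  mem : ∀ x, x ∈ R ↔ ∃ H : ℕ, IsIntegral F[X] (algebraMap F[X] K s ^ H * x)
  dX : D (algebraMap F[X] K X) = 1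
  dint : ∀ x, IsIntegral F[X] x → IsIntegral F[X] (algebraMap F[X] K s * D x)
  dmem : ∀ x ∈ R, D x ∈ R

section pack
variable {F K : Type} [Field F] [Field K] [Algebra F K] [Algebra F[X] K]
  {R : Subalgebra F K} {s : F[X]} {D : Derivation F K K}

theorem Pack.mem_of_isIntegral (h : Pack R s D) {x : K} (hx : IsIntegral F[X] x) : x ∈ R :=
  (h.mem x).2 ⟨0, by simpa using hx⟩

theorem Pack.algebraMap_mem (h : Pack R s D) (a : F[X]) : algebraMap F[X] K a ∈ R :=
  h.mem_of_isIntegral isIntegral_algebraMap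

theorem Pack.exists_der (h : Pack R s D) : ∃ DR : Derivation F R R, ∀ x : R, (DR x : K) = D x :=
  ⟨Derivation.mk' ((D : K →ₗ[F] K).restrict (p := Subalgebra.toSubmodule R)
      (q := Subalgebra.toSubmodule R) h.dmem)
    (fun a b => Subtype.ext (D.leibniz (a : K) (b : K))), fun _ => rfl⟩

variable [Algebra (RatFunc F) K] [IsScalarTower F[X] (RatFunc F) K]

theorem gal_algebraMap (σ : K ≃ₐ[RatFunc F] K) (a : F[X]) :
    σ (algebraMap F[X] K a) = algebraMap F[X] K a := by
  rw [IsScalarTower.algebraMap_apply F[X] (RatFunc F) K, AlgEquiv.commutes]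

theorem algebraMap_inj : Function.Injective (algebraMap F[X] K) := by
  rw [IsScalarTower.algebraMap_eq F[X] (RatFunc F) K]
  exact (algebraMap (RatFunc F) K).injective.comp (IsFractionRing.injective F[X] (RatFunc F))

theorem Pack.gal_mem (h : Pack R s D) (σ : K ≃ₐ[RatFunc F] K) {x : K} (hx : x ∈ R) : σ x ∈ R := by
  obtain ⟨H, hH⟩ := (h.mem x).1 hx
  refine (h.mem _).2 ⟨H, ?_⟩
  have := hH.map ((σ : K →ₐ[RatFunc F] K).restrictScalars F[X])
  simpa [gal_algebraMap] using this

theorem Pack.exists_act [IsScalarTower F F[X] K] (h : Pack R s D) (σ : K ≃ₐ[RatFunc F] K) :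
    ∃ σR : R →ₐ[F] R, ∀ x : R, (σR x : K) = σ x := by
  let φ : K →ₐ[F] K := { (σ : K →+* K) with
    commutes' := fun c => by
      rw [IsScalarTower.algebraMap_apply F F[X] K]; exact gal_algebraMap σ _ }
  exact ⟨(φ.comp R.val).codRestrict R fun x => h.gal_mem σ x.2, fun _ => rfl⟩

end pack

/-- The normalised regulator of the family `z` of points in the domain of the logarithm. -/
noncomputable def regOf {L G : Type} [NormedField L] [Fintype G] (q : ℕ) (θ P Q : L)
    (z : G → G → L) : L :=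
  P⁻¹ ^ Fintype.card G * Matrix.det (Matrix.of fun σ τ => Q⁻¹ * clog q θ (z σ τ))

end Pool.Agent.P.MP_657a03_nt.CW
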