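import Mathlib

/-! The Carlitz module and the Carlitz logarithm. -/

set_option autoImplicit false

namespace Pool.Agent.P.MP_657a03_nt.CW

/-- The Carlitz action of `g` on `x`: the variable acts by `y ↦ θ * y + y ^ q`, `q = |F|`. -/
noncomputable def carlitz {F S : Type} [Field F] [Fintype F] [CommRing S] [Algebra F S]
    (θ : S) (g : Polynomial F) (x : S) : S :=
  g.sum fun i c => c • (fun y : S => θ * y + y ^ Fintype.card F)^[i] x

/-- The Carlitz logarithm series. -/
noncomputable def clog {L : Type} [NormedField L] (q : ℕ) (θ z : L) : L :=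
  ∑' i : ℕ, z ^ q ^ i / ∏ j ∈ Finset.range i, (θ - θ ^ q ^ (j + 1))

end Pool.Agent.P.MP_657a03_nt.CW
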