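import Pool.Agent.P.MP_657a03_nt.CW.Base

/-! The statements of the steps. -/

set_option autoImplicit false
set_option linter.unusedSectionVars false

namespace Pool.Agent.P.MP_657a03_nt.CW

open Polynomial
open scoped Classical

-- deps:
def S_MIN : Prop :=
  ∀ (F A I J : Type) [CommRing F] [CommRing A] [Nontrivial A] [Algebra F A] [Fintype J]
    (M : I → J → A) (b : I → A) (V : Submodule F A), (1 : A) ∈ V → (∀ i j, M i j ∈ V) →
    (∀ i, b i ∈ V) → (∀ (y : J → A) (y0 : A), (∀ i, ∑ j, M i j * y j = y0 * b i) → y0 = 0) →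
    ∃ Δ ∈ V ^ (Fintype.card J + 1), Δ ≠ 0 ∧ ∀ (E : Type) [CommRing E] (π : A →+* E) (y : J → E),
      (∀ i, ∑ j, π (M i j) * y j = π (b i)) → π Δ = 0

-- deps:
def S_TRI : Prop :=
  ∀ (R S ι : Type) [CommRing R] [CommRing S] (τ : R →+* S) (l u : ι → S) (v : MvPolynomial ι R)
    (j : ℕ), v.totalDegree ≤ j → (Tm τ l u v).totalDegree ≤ j ∧
      ∀ μ : ι →₀ ℕ, Finsupp.degree μ = j → MvPolynomial.coeff μ (Tm τ l u v) =
        (μ.prod fun i k => l i ^ k) * τ (MvPolynomial.coeff μ v)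

-- deps:
def S_DESC : Prop :=
  ∀ (Ω ι : Type) [CommRing Ω] (Pp : MvPolynomial ι Ω → Prop) (Γ : Prop),
    (∀ v, Pp v → Γ ∨ ∃ (μ : ι →₀ ℕ) (w : MvPolynomial ι Ω), Finsupp.degree μ = v.totalDegree ∧
      MvPolynomial.coeff μ v ≠ 0 ∧ Pp w ∧ w.totalDegree ≤ v.totalDegree ∧
      MvPolynomial.coeff μ w = 0 ∧ ∀ ν : ι →₀ ℕ, Finsupp.degree ν = v.totalDegree →
        MvPolynomial.coeff ν v = 0 → MvPolynomial.coeff ν w = 0) →
    ∀ v, Pp v → Γ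

-- deps:
def S_EXP : Prop :=
  ∀ (Ω ι : Type) [Field Ω] (p : ℕ) [Fact p.Prime] [CharP Ω p] (v : MvPolynomial ι Ω),
    (∀ i, MvPolynomial.pderiv i v = 0) → ∃ w : MvPolynomial ι Ω, v = MvPolynomial.expand p w

-- deps: TRI EXP
def S_EV : Prop :=
  ∀ (Ω ι : Type) [Field Ω] [Fintype ι] (p : ℕ) [Fact p.Prime] [CharP Ω p] (τ : Ω →+* Ω) (l : Ω)
    (u : ι → Ω), HD p τ l u → ∀ (v : MvPolynomial ι Ω) (κ : Ω),
    Tm τ (fun _ => l) u v = MvPolynomial.C κ * v → ∃ c, v = MvPolynomial.C c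

-- deps: TRI DESC EV
def S_STA : Prop :=
  ∀ (Ω ι : Type) [Field Ω] [Fintype ι] (p : ℕ) [Fact p.Prime] [CharP Ω p] (τ : Ω →+* Ω) (l : Ω)
    (u : ι → Ω) (U : Submodule Ω (MvPolynomial ι Ω)) (v : MvPolynomial ι Ω), HD p τ l u →
    (∀ w ∈ U, Tm τ (fun _ => l) u w ∈ U) → v ∈ U → v ≠ 0 → (1 : MvPolynomial ι Ω) ∈ U

-- deps: TRI DESC
def S_STB : Prop :=
  ∀ (Ω ι : Type) [Field Ω] (τ : Ω →+* Ω) (l u : ι → Ω) (U J : Submodule Ω (MvPolynomial ι Ω))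
    (w : MvPolynomial ι Ω),
    (∀ μ : ι →₀ ℕ, μ ≠ 0 → ∀ f, (μ.prod fun i k => l i ^ k) * τ f = f → f = 0) →
    (∀ v ∈ U, Tm τ l u v ∈ U) → (∀ v ∈ J, Tm τ l u v ∈ J) →
    (∀ c, MvPolynomial.C c ∈ J → c = 0) → w ∈ J → 1 + w ∈ U → (1 : MvPolynomial ι Ω) ∈ U

-- deps: TRI
def S_STAB : Prop :=
  ∀ (Ω ι : Type) [Field Ω] (τ : Ω →+* Ω) (l u : ι → Ω) (n : ℕ) (S : Finset (ι →₀ ℕ))
    (v : MvPolynomial ι Ω), (∀ μ, Finsupp.degree μ ≤ n → μ ∈ S) → v.totalDegree ≤ n →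
    ∃ U : Submodule Ω (MvPolynomial ι Ω), v ∈ U ∧ (∀ w ∈ U, Tm τ l u w ∈ U) ∧
      U ≤ Submodule.span Ω (Set.range fun i : Fin S.card => (Tm τ l u)^[i] v)

-- deps: STA STB STAB
def S_ONE : Prop :=
  ∀ (Ω ι ι' : Type) [Field Ω] [Fintype ι] (p : ℕ) [Fact p.Prime] [CharP Ω p] (τ : Ω →+* Ω) (l : Ω)
    (u : ι → Ω) (l' u' : ι' → Ω) (ρ : MvPolynomial ι' Ω →ₐ[Ω] MvPolynomial ι Ω) (n : ℕ)
    (S : Finset (ι' →₀ ℕ)) (v : MvPolynomial ι' Ω), HD p τ l u →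
    (∀ μ : ι' →₀ ℕ, μ ≠ 0 → ∀ f, (μ.prod fun i k => l' i ^ k) * τ f = f → f = 0) →
    (∀ w, ρ (Tm τ l' u' w) = Tm τ (fun _ => l) u (ρ w)) →
    (∀ μ, Finsupp.degree μ ≤ n → μ ∈ S) → v.totalDegree ≤ n → ρ v ≠ 0 →
    ∃ a : Fin S.card → Ω, 1 = ∑ i, MvPolynomial.C (a i) * (Tm τ l' u')^[i] v

-- deps:
def S_TOR : Prop :=
  ∀ (F K G : Type) [Field F] [Fintype F] [Field K] [Algebra F K] [Fintype G] (θ : K) (u : G → K)
    (m : ℕ) (c : G → F[X]) (h : K[X]), Indep F θ u → 1 ≤ m →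
    h.map (fr F K) + ∑ g, (c g).map (algebraMap F K) * C (u g) = (X ^ m - C θ) * h → c = 0

-- deps:
def S_INDP : Prop :=
  ∀ (F K G : Type) [Field F] [Fintype F] [Field K] [Algebra F K] [Fintype G] (p : ℕ)
    [Fact p.Prime] [CharP F p] (θ : K) (u : G → K), Indep F θ u →
    ∀ a : ℕ, Indep F (θ ^ p ^ a) fun g => u g ^ p ^ a

-- deps:
def S_DEN : Prop :=
  ∀ (F K Ω : Type) [Field F] [Fintype F] [Field K] [Algebra F K] [Field Ω] [Algebra K[X] Ω]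
    [IsFractionRing K[X] Ω] (τ : Ω →+* Ω),
    (∀ b : K[X], τ (algebraMap K[X] Ω b) = algebraMap K[X] Ω (b.map (fr F K))) →
    (∀ h : K[X], h.map (fr F K) = h → ∃ a : F[X], a.map (algebraMap F K) = h) ∧
    (∀ (f : Ω) (γ Λ : K[X]), τ f + algebraMap K[X] Ω γ = algebraMap K[X] Ω Λ * f →
      ∃ (b : F[X]) (h : K[X]), b ≠ 0 ∧
        f * algebraMap K[X] Ω (b.map (algebraMap F K)) = algebraMap K[X] Ω h) ∧
    ∀ (f : Ω) (Λ : K[X]), 0 < Λ.natDegree → algebraMap K[X] Ω Λ * τ f = f → f = 0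

-- deps: TOR INDP DEN
def S_HH : Prop :=
  ∀ (F K G Ω : Type) [Field F] [Fintype F] [Field K] [Algebra F K] [Fintype G] [Field Ω]
    [Algebra K[X] Ω] [IsFractionRing K[X] Ω] (p : ℕ) [Fact p.Prime] [CharP F p] (τ : Ω →+* Ω)
    (θ : K) (u : G → K),
    (∀ b : K[X], τ (algebraMap K[X] Ω b) = algebraMap K[X] Ω (b.map (fr F K))) → Indep F θ u →
    HD p τ (algebraMap K[X] Ω (X - C θ)) fun g => algebraMap K[X] Ω (C (u g))

-- deps:
def S_TW : Prop :=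
  ∀ (F E G : Type) [Field F] [Fintype F] [Field E] [Algebra F E] (θ : E) (u w : G → E) (e : ℕ),
    (∀ r, r + 1 ≤ e → (∀ j, 0 < j → j ≤ r + 1 → pw (Fintype.card F) θ j ≠ θ) → ∀ v,
      ev F θ u w e (r + 1) (T2 F θ u e v) = ev F θ u w e r v ^ Fintype.card F) ∧
    ∀ (n κ : ℕ) (v : MvPolynomial (G ⊕ G) E[X]), Bd n κ v → Bd n (κ + n) (T2 F θ u e v)

-- deps: TRI
def S_RHO : Prop :=
  ∀ (F E G : Type) [Field F] [Fintype F] [Field E] [Algebra F E] (θ : E) (u : G → E) (e n : ℕ)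
    (v : MvPolynomial (G ⊕ G) E[X]) (g0 : G), 1 ≤ e → v.totalDegree ≤ n →
    (MvPolynomial.coeff (Finsupp.single (Sum.inr g0) n) v).eval θ ≠ 0 → rho F θ u e v ≠ 0

-- deps: ONE HH DEN RHO
def S_ZE1 : Prop :=
  ∀ (F K G : Type) [Field F] [Fintype F] [Field K] [Algebra F K] [Fintype G] (θ : K) (u : G → K)
    (e n : ℕ) (S : Finset (G ⊕ G →₀ ℕ)) (v : MvPolynomial (G ⊕ G) K[X]) (g0 : G), Indep F θ u →
    1 ≤ e → (∀ μ, Finsupp.degree μ ≤ n → μ ∈ S) → v.totalDegree ≤ n →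
    (MvPolynomial.coeff (Finsupp.single (Sum.inr g0) n) v).eval θ ≠ 0 →
    ∃ (a0 : K[X]) (a : Fin S.card → K[X]), a0 ≠ 0 ∧
      MvPolynomial.C a0 = ∑ i, MvPolynomial.C (a i) * (T2 F θ u e)^[i] v

-- deps: MIN ZE1 TW
def S_ZE : Prop :=
  ∀ (F K G : Type) [Field F] [Fintype F] [Field K] [Algebra F K] [Fintype G] (θ : K)
    (u w : G → K) (e n κ : ℕ) (S : Finset (G ⊕ G →₀ ℕ)) (v : MvPolynomial (G ⊕ G) K[X]) (g0 : G),
    Indep F θ u → (∀ j, 0 < j → pw (Fintype.card F) θ j ≠ θ) →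
    (∀ μ, Finsupp.degree μ ≤ n → μ ∈ S) → S.card + (S.card + 1) * (κ + S.card * n) ≤ e →
    Bd n κ v → (∀ r ≤ e, ev F θ u w e r v = 0) →
    (MvPolynomial.coeff (Finsupp.single (Sum.inr g0) n) v).eval θ = 0

-- deps: TRI
def S_TOP : Prop :=
  ∀ (B G : Type) [CommRing B] [Group G] [Fintype G] (Q : G → B) (W : B) (σ0 : G),
    MvPolynomial.coeff (Finsupp.single (Sum.inr σ0) (Fintype.card G))
      (Matrix.det (Matrix.of fun σ τ : G => (MvPolynomial.C (Q (σ * τ)) +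
        MvPolynomial.C W * MvPolynomial.X (Sum.inl (σ * τ)) -
        MvPolynomial.X (Sum.inr (σ0 * (σ * τ))) : MvPolynomial (G ⊕ G) B))) ^ 2 = 1

-- deps: TW TOP
def S_ROWE : Prop :=
  ∀ (F E G : Type) [Field F] [Fintype F] [Field E] [Algebra F E] [Group G] [Fintype G] (θ : E)
    (u w : G → E) (σ0 : G) (e k : ℕ), 1 ≤ k → Exc F θ u w σ0 (e + k) →
    ∃ v : MvPolynomial (G ⊕ G) E[X], Bd (Fintype.card G) (Fintype.card G * k) v ∧
      (∀ r ≤ e, ev F θ u w e r v = 0) ∧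
      (MvPolynomial.coeff (Finsupp.single (Sum.inr σ0) (Fintype.card G)) v).eval θ ≠ 0

-- deps:
def S_HB : Prop :=
  ∀ (F R G : Type) [CommRing F] [CommRing R] [Algebra F R] [Fintype G] (V : Submodule F R) (q : ℕ)
    (θ : R) (u w : G → R) (e r n κ : ℕ) (μ : G ⊕ G →₀ ℕ) (i : ℕ), 1 ≤ q → (1 : R) ∈ V → θ ∈ V →
    (∀ g, u g ∈ V) → (∀ g, w g ∈ V) → r ≤ e → Finsupp.degree μ ≤ n → i ≤ κ →
    ent q θ u w e r n μ i ∈ V ^ ((κ + 2 * n) * ((e + 1) * q ^ e))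

-- deps:
def S_ENT : Prop :=
  ∀ (F E G : Type) [Field F] [Fintype F] [Field E] [Algebra F E] [Fintype G] (θ : E)
    (u w : G → E) (e n κ : ℕ) (S : Finset (G ⊕ G →₀ ℕ)), (∀ μ, μ ∈ S ↔ Finsupp.degree μ ≤ n) →
    (∀ (r : ℕ) (v : MvPolynomial (G ⊕ G) E[X]), Pd (Fintype.card F) θ r ≠ 0 → Bd n κ v →
      ∑ j : S × Fin (κ + 1), ent (Fintype.card F) θ u w e r n j.1 j.2 *
        (MvPolynomial.coeff j.1 v).coeff j.2 = Pd (Fintype.card F) θ r ^ n * ev F θ u w e r v) ∧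
    (∀ (μ0 : S) (v : MvPolynomial (G ⊕ G) E[X]), Bd n κ v →
      ∑ j : S × Fin (κ + 1), (if j.1 = μ0 then θ ^ (j.2 : ℕ) else 0) *
        (MvPolynomial.coeff j.1 v).coeff j.2 = (MvPolynomial.coeff μ0 v).eval θ) ∧
    ∀ z : S × Fin (κ + 1) → E, ∃ v : MvPolynomial (G ⊕ G) E[X], Bd n κ v ∧
      ∀ j : S × Fin (κ + 1), (MvPolynomial.coeff j.1 v).coeff j.2 = z j

-- deps: MIN ZE ROWE HB ENT
def S_CORE : Prop :=
  ∀ (F K G : Type) [Field F] [Fintype F] [Field K] [Algebra F K] [Group G] [Fintype G]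
    (R : Subalgebra F K) (θ : R) (u w : G → R) (V : Submodule F R) (σ0 : G) (e k : ℕ)
    (S : Finset (G ⊕ G →₀ ℕ)), Indep F (θ : K) (fun g => (u g : K)) →
    (∀ j, 0 < j → pw (Fintype.card F) (θ : K) j ≠ θ) →
    (∀ μ, μ ∈ S ↔ Finsupp.degree μ ≤ Fintype.card G) → 1 ≤ k →
    S.card + (S.card + 1) * (Fintype.card G * k + S.card * Fintype.card G) ≤ e →
    (1 : R) ∈ V → θ ∈ V → (∀ g, u g ∈ V) → (∀ g, w g ∈ V) →
    ∃ Δ ∈ V ^ ((Fintype.card G * k + 2 * Fintype.card G) * ((e + 1) * Fintype.card F ^ e) *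
        (S.card * (Fintype.card G * k + 1) + 1)), Δ ≠ 0 ∧
      ∀ (E : Type) [Field E] [Algebra F E] (π : R →ₐ[F] E),
        Exc F (π θ) (fun g => π (u g)) (fun g => π (w g)) σ0 (e + k) → π Δ = 0

-- deps:
def S_HT : Prop :=
  ∀ (F K : Type) [Field F] [Field K] [Algebra F K] [Algebra F[X] K] [IsScalarTower F F[X] K]
    [Algebra (RatFunc F) K] [IsScalarTower F[X] (RatFunc F) K] [FiniteDimensional (RatFunc F) K]
    (Z : Finset K), ∃ c : ℕ, ∀ (H : ℕ) (Δ : K), Δ ∈ Submodule.span F (Z : Set K) ^ H → Δ ≠ 0 →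
    ∃ (a : F[X]) (g : F[X][X]), a ≠ 0 ∧ a.natDegree ≤ c * H ∧
      algebraMap F[X] K a = Δ * aeval Δ g

-- deps:
def S_SET : Prop :=
  ∀ (ι : Type) [Fintype ι] (n : ℕ), ∃ S : Finset (ι →₀ ℕ),
    (∀ μ, μ ∈ S ↔ Finsupp.degree μ ≤ n) ∧ S.card ≤ (n + 1) ^ Fintype.card ι

-- deps:
def S_ROOT : Prop :=
  ∀ (F E : Type) [Field F] [Fintype F] [Field E] [Algebra F E] (θ : E) (P : F[X]), P.Monic →
    Irreducible P → aeval θ P = 0 → pw (Fintype.card F) θ P.natDegree = θ ∧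
      (∀ j, 0 < j → j < P.natDegree → pw (Fintype.card F) θ j ≠ θ) ∧
      P.map (algebraMap F E) = PP F θ P.natDegree ∧ aeval θ (derivative P) ≠ 0 ∧
      ∀ a : F[X], aeval θ a = 0 → P ∣ a

-- deps: SET CORE HT ROOT
def S_GLOB : Prop :=
  ∀ n : ℕ, ∃ c : ℕ, 1 ≤ c ∧ ∀ (F K G : Type) [Field F] [Fintype F] [Field K] [Algebra F K]
    [Algebra F[X] K] [IsScalarTower F F[X] K] [Algebra (RatFunc F) K]
    [IsScalarTower F[X] (RatFunc F) K] [FiniteDimensional (RatFunc F) K] [Group G] [Fintype G]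
    (R : Subalgebra F K) (θ : R) (u w : G → R), Fintype.card G = n →
    (θ : K) = algebraMap F[X] K X → Indep F (θ : K) (fun g => (u g : K)) →
    ∃ C d0 : ℕ, ∀ d, d0 ≤ d → ∃ a : F[X], a ≠ 0 ∧
      a.natDegree ≤ C * (d + 1) ^ 3 * Fintype.card F ^ (d - d / c) ∧
      ∀ (P : F[X]) (E : Type) [Field E] [Algebra F E] (π : R →ₐ[F] E) (σ0 : G), P.Monic →
        Irreducible P → aeval (π θ) P = 0 →
        Exc F (π θ) (fun g => π (u g)) (fun g => π (w g)) σ0 d → P ∣ a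

-- deps:
def S_DER : Prop :=
  ∀ (F K : Type) [Field F] [Field K] [Algebra F K] [Algebra F[X] K] [IsScalarTower F F[X] K]
    [Algebra (RatFunc F) K] [IsScalarTower F[X] (RatFunc F) K]
    [Algebra.IsSeparable (RatFunc F) K], ∃ D : Derivation F K K, D (algebraMap F[X] K X) = 1

-- deps: DER
def S_PACK : Prop :=
  ∀ (F K : Type) [Field F] [Field K] [Algebra F K] [Algebra F[X] K] [IsScalarTower F F[X] K]
    [Algebra (RatFunc F) K] [IsScalarTower F[X] (RatFunc F) K] [FiniteDimensional (RatFunc F) K]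
    [Algebra.IsSeparable (RatFunc F) K] (η : K),
    ∃ (R : Subalgebra F K) (s : F[X]) (D : Derivation F K K), Pack R s D ∧ η ∈ R

-- deps: ROOT
def S_FROB : Prop :=
  ∀ (F K : Type) [Field F] [Fintype F] [Field K] [Algebra F K] [Algebra F[X] K]
    [IsScalarTower F F[X] K] [Algebra (RatFunc F) K] [IsScalarTower F[X] (RatFunc F) K]
    [FiniteDimensional (RatFunc F) K] [IsGalois (RatFunc F) K] (R : Subalgebra F K) (s : F[X])
    (D : Derivation F K K) (θ : R) (P : F[X]) (E : Type) [Field E] [Algebra F E] (π : R →ₐ[F] E),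
    Pack R s D → (θ : K) = algebraMap F[X] K X → P.Monic → Irreducible P → ¬ P ∣ s →
    aeval (π θ) P = 0 → ∃ σ : K ≃ₐ[RatFunc F] K, ∀ x y : R, (y : K) = σ x →
      π y = pw (Fintype.card F) (π x) P.natDegree

-- deps:
def S_RAD : Prop :=
  ∀ (F K : Type) [Field F] [Fintype F] [Field K] [Algebra F K] [Algebra F[X] K]
    [IsScalarTower F F[X] K] [Algebra (RatFunc F) K] [IsScalarTower F[X] (RatFunc F) K]
    [FiniteDimensional (RatFunc F) K] [Algebra.IsSeparable (RatFunc F) K] (R : Subalgebra F K)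
    (s : F[X]) (D : Derivation F K K) (θ : R) (P : F[X]), Pack R s D →
    (θ : K) = algebraMap F[X] K X → Irreducible P → ¬ P ∣ s → ∀ x : R,
    (∀ I : Ideal R, I.IsPrime → aeval θ P ∈ I → x ∈ I) → ∃ y : R, x = aeval θ P * y

-- deps: ROOT
def S_KILL : Prop :=
  ∀ (F E : Type) [Field F] [Fintype F] [Field E] [Algebra F E] (θ a : E) (P : F[X]) (n : ℕ),
    P.Monic → Irreducible P → aeval θ P = 0 → 1 ≤ n →
    pw (Fintype.card F) a (P.natDegree * n) = a → carlitz θ (P ^ n - 1) a = 0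

-- deps: FROB RAD KILL
def S_DIV : Prop :=
  ∀ (F K : Type) [Field F] [Fintype F] [Field K] [Algebra F K] [Algebra F[X] K]
    [IsScalarTower F F[X] K] [Algebra (RatFunc F) K] [IsScalarTower F[X] (RatFunc F) K]
    [FiniteDimensional (RatFunc F) K] [IsGalois (RatFunc F) K] (R : Subalgebra F K) (s : F[X])
    (D : Derivation F K K) (θ : R) (P : F[X]), Pack R s D → (θ : K) = algebraMap F[X] K X →
    P.Monic → Irreducible P → ¬ P ∣ s → ∀ x : R, ∃ y : R,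
      carlitz θ (P ^ Fintype.card (K ≃ₐ[RatFunc F] K) - 1) x = aeval θ P * y

-- deps:
def S_PSI : Prop :=
  ∀ (F R E : Type) [Field F] [Fintype F] [CommRing R] [Algebra F R] [Field E] [Algebra F E]
    (θ u y : R) (D : Derivation F R R) (σ : R →ₐ[F] R) (π : R →ₐ[F] E) (P : F[X]) (d n : ℕ),
    D θ = 1 → σ θ = θ → 1 ≤ d → 1 ≤ n → aeval (π θ) P = 0 →
    (∀ x, π (σ x) = pw (Fintype.card F) (π x) d) → carlitz θ (P ^ n - 1) u = aeval θ P * y →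
    hn (pw (Fintype.card F) (π θ)) (pw (Fintype.card F) (π u)) (π θ) d - π (D (σ u)) =
      aeval (π θ) (derivative P) * pw (Fintype.card F) (π y) d

-- deps:
def S_NRM : Prop :=
  ∀ (F L : Type) [Field F] [Fintype F] [NormedField L] [IsUltrametricDist L] [Algebra F L] (θ : L)
    (P : F[X]), P.Monic → Irreducible P → ‖aeval θ P‖ < 1 → (∀ a : F[X], ‖aeval θ a‖ ≤ 1) ∧
      (∀ a : F[X], ¬ P ∣ a → ‖aeval θ a‖ = 1) ∧
      (∀ j, ‖aeval θ P‖ ≤ ‖θ - θ ^ Fintype.card F ^ (j + 1)‖) ∧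
      (2 ≤ P.natDegree → ‖θ - θ ^ Fintype.card F ^ (0 + 1)‖ = 1)

-- deps:
def S_LOG1 : Prop :=
  ∀ (L : Type) [NormedField L] [CompleteSpace L] [IsUltrametricDist L] (q : ℕ) (θ P y : L),
    2 ≤ q → P ≠ 0 → ‖P‖ < 1 → ‖y‖ ≤ 1 → (∀ j, ‖P‖ ≤ ‖θ - θ ^ q ^ (j + 1)‖) →
    ‖θ - θ ^ q ^ (0 + 1)‖ = 1 → ‖P⁻¹ * clog q θ (P * y) - y‖ < 1

-- deps: NRM LOG1
def S_LOG : Prop :=
  ∀ (F L G : Type) [Field F] [Fintype F] [NormedField L] [CompleteSpace L] [IsUltrametricDist L]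
    [Algebra F L] [Fintype G] [Nonempty G] (θ : L) (P : F[X]) (y : G → G → L), P.Monic →
    Irreducible P → 2 ≤ P.natDegree → ‖aeval θ P‖ < 1 → aeval θ P ≠ 0 → (∀ σ τ, ‖y σ τ‖ ≤ 1) →
    ‖regOf (Fintype.card F) θ (aeval θ P) (aeval θ (P ^ Fintype.card G - 1))
      fun σ τ => aeval θ P * y σ τ‖ ≠ 1 → ‖Matrix.det (Matrix.of y)‖ < 1

-- deps: NRM
def S_RES : Prop :=
  ∀ (F K L : Type) [Field F] [Fintype F] [Field K] [Algebra F K] [Algebra F[X] K]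
    [IsScalarTower F F[X] K] [NormedField L] [IsUltrametricDist L] [Algebra F L] (ι : K →ₐ[F] L)
    (R : Subalgebra F K) (s : F[X]) (D : Derivation F K K) (P : F[X]), Pack R s D → P.Monic →
    Irreducible P → ¬ P ∣ s → ‖aeval (ι (algebraMap F[X] K X)) P‖ < 1 →
    (∀ x : R, ‖ι x‖ ≤ 1) ∧ ∃ (E : Type) (_ : Field E) (_ : Algebra F E) (π : R →ₐ[F] E),
      ∀ x : R, π x = 0 ↔ ‖ι x‖ < 1

-- deps: FROB ROOT DIV PSI LOG RES
def S_BAD : Prop :=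
  ∀ (F K L : Type) [Field F] [Fintype F] [Field K] [Algebra F K] [Algebra F[X] K]
    [IsScalarTower F F[X] K] [Algebra (RatFunc F) K] [IsScalarTower F[X] (RatFunc F) K]
    [FiniteDimensional (RatFunc F) K] [IsGalois (RatFunc F) K] [NormedField L] [CompleteSpace L]
    [IsUltrametricDist L] (ι : K →+* L) (R : Subalgebra F K) (s : F[X]) (D : Derivation F K K)
    (η : K) (θ : R) (u w : (K ≃ₐ[RatFunc F] K) → R) (P : F[X]), Pack R s D →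
    (θ : K) = algebraMap F[X] K X → (∀ g, (u g : K) = g η) → (∀ g, (w g : K) = D (g η)) →
    P.Monic → Irreducible P → 2 ≤ P.natDegree → ¬ P ∣ s → ‖ι (aeval (θ : K) P)‖ < 1 →
    ‖regOf (Fintype.card F) (ι θ) (ι (aeval (θ : K) P))
      (ι (aeval (θ : K) (P ^ Fintype.card (K ≃ₐ[RatFunc F] K) - 1)))
      fun σ τ : K ≃ₐ[RatFunc F] K =>
        ι (carlitz (θ : K) (P ^ Fintype.card (K ≃ₐ[RatFunc F] K) - 1) ((σ * τ) η))‖ ≠ 1 →
    ∃ (E : Type) (_ : Field E) (_ : Algebra F E) (π : R →ₐ[F] E) (σ0 : K ≃ₐ[RatFunc F] K),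
      aeval (π θ) P = 0 ∧ Exc F (π θ) (fun g => π (u g)) (fun g => π (w g)) σ0 P.natDegree

-- deps:
def S_CNT : Prop :=
  ∀ (F : Type) [Field F] (a : F[X]) (T : Set F[X]), a ≠ 0 →
    (∀ P ∈ T, P.Monic ∧ Irreducible P ∧ P ∣ a) → T.ncard ≤ a.natDegree

-- deps:
def S_ASY : Prop :=
  ∀ c C q : ℕ, 1 ≤ c → 2 ≤ q → ∃ d0 : ℕ, ∀ d, d0 ≤ d →
    ((C * (d + 1) ^ 3 * q ^ (d - d / c) : ℕ) : ℝ) ≤ (q : ℝ) ^ ((1 - 1 / (2 * (c : ℝ))) * d)

-- deps: GLOB PACK BAD CNT ASY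
def S_MAIN : Prop :=
  ∀ n : ℕ, ∃ δ : ℝ, 0 < δ ∧ ∀ (F K : Type) [Field F] [Fintype F] [Field K] [Algebra F K]
    [Algebra (RatFunc F) K] [IsScalarTower F (RatFunc F) K] [FiniteDimensional (RatFunc F) K]
    [IsGalois (RatFunc F) K], Module.finrank (RatFunc F) K = n →
    ∀ θ η : K, θ = algebraMap (RatFunc F) K RatFunc.X →
    (∀ a : (K ≃ₐ[RatFunc F] K) → Polynomial F, ∑ σ, carlitz θ (a σ) (σ η) = 0 → a = 0) →
    ∃ d₀ : ℕ, ∀ d : ℕ, d₀ ≤ d →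
      (Set.ncard {P : Polynomial F | P.Monic ∧ Irreducible P ∧ P.natDegree = d ∧
        ∃ (L : Type) (_ : NormedField L) (_ : CompleteSpace L) (_ : IsUltrametricDist L)
          (ι : K →+* L), ‖ι (Polynomial.aeval θ P)‖ < 1 ∧
          ‖(ι (Polynomial.aeval θ P))⁻¹ ^ n * Matrix.det (Matrix.of fun σ τ : K ≃ₐ[RatFunc F] K =>
            (ι (Polynomial.aeval θ (P ^ n - 1)))⁻¹ *
              clog (Fintype.card F) (ι θ) (ι (carlitz θ (P ^ n - 1) ((σ * τ) η))))‖ ≠ 1} : ℝ) ≤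
        (Fintype.card F : ℝ) ^ ((1 - δ) * d)

end Pool.Agent.P.MP_657a03_nt.CW
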