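import Pool.Agent.P.MP_657a03_nt.CW.Defs

/-! The normalised regulator in the Carlitz model. -/

set_option autoImplicit false

namespace Pool.Agent.P.MP_657a03_nt.CW

open scoped Classical

/-- The normalised regulator at `P` of the family `u` indexed by a group of order `n`, computed
in `L` through `ι`. -/
noncomputable def reg {F K L G : Type} [Field F] [Fintype F] [Field K] [Algebra F K]
    [NormedField L] [Group G] [Fintype G] (ι : K →+* L) (θ : K) (u : G → K) (P : Polynomial F) :
    L :=
  (ι (Polynomial.aeval θ P))⁻¹ ^ Fintype.card G * Matrix.det (Matrix.of fun σ τ : G =>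
    (ι (Polynomial.aeval θ (P ^ Fintype.card G - 1)))⁻¹ *
      clog (Fintype.card F) (ι θ) (ι (carlitz θ (P ^ Fintype.card G - 1) (u (σ * τ)))))

/-- At some place above `P` the normalised regulator is not a unit. -/
def NonUnit {F K G : Type} [Field F] [Fintype F] [Field K] [Algebra F K] [Group G] [Fintype G]
    (θ : K) (u : G → K) (P : Polynomial F) : Prop :=
  ∃ (L : Type) (_ : NormedField L) (_ : CompleteSpace L) (_ : IsUltrametricDist L) (ι : K →+* L),
    ‖ι (Polynomial.aeval θ P)‖ < 1 ∧ ‖reg ι θ u P‖ ≠ 1

end Pool.Agent.P.MP_657a03_nt.CW
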