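import Pool.Agent.P.MP_657a03_nt.CW.Iface

/-! Step CORE. -/

set_option autoImplicit false
set_option linter.unusedSectionVars false

namespace Pool.Agent.P.MP_657a03_nt.CW

open Polynomial
open scoped Classical

theorem p_CORE (hMIN : S_MIN) (hZE : S_ZE) (hROWE : S_ROWE) (hHB : S_HB) (hENT : S_ENT) :
    S_CORE := by
  intro F K G _ _ _ _ _ _ R θ u w V σ0 e k S hI hne hS hk he h1 hθ hu hw
  have hq : 1 ≤ Fintype.card F := Fintype.card_pos
  have hμ0 : Finsupp.single (Sum.inr σ0 : G ⊕ G) (Fintype.card G) ∈ S :=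
    (hS _).2 (by rw [Finsupp.degree_single])
  have hle : ∀ a b : ℕ, a ≤ b → V ^ a ≤ V ^ b := fun a b h =>
    pow_le_pow_right' (Submodule.one_le.2 h1) h
  have hone : ∀ a : ℕ, (1 : R) ∈ V ^ a := fun a => by
    simpa using Submodule.pow_mem_pow V h1 a
  obtain ⟨Δ, hΔ, hΔ0, H⟩ := hMIN F R (Option (Fin (e + 1))) (S × Fin (Fintype.card G * k + 1))
    (fun i j => match i with
      | some r => ent (Fintype.card F) θ u w e r (Fintype.card G) j.1 j.2
      | none => if j.1 = ⟨_, hμ0⟩ then θ ^ (j.2 : ℕ) else 0)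
    (fun i => match i with
      | some _ => 0
      | none => 1)
    (V ^ ((Fintype.card G * k + 2 * Fintype.card G) * ((e + 1) * Fintype.card F ^ e)))
    (hone _)
    (by
      rintro (_ | r) j
      · dsimp only
        split_ifs
        · refine hle _ _ ?_ (Submodule.pow_mem_pow V hθ _)
          have a1 : 1 ≤ (e + 1) * Fintype.card F ^ e :=
            Nat.mul_pos (Nat.succ_pos e) (Nat.pow_pos hq)
          have a2 := Nat.lt_succ_iff.1 j.2.2
          exact a2.trans ((Nat.le_add_right _ _).trans (Nat.le_mul_of_pos_right _ a1))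
        · exact Submodule.zero_mem _
      · exact hHB F R G V _ θ u w e r _ _ _ _ hq h1 hθ hu hw (Nat.lt_succ_iff.1 r.2)
          ((hS _).1 j.1.2) (Nat.lt_succ_iff.1 j.2.2))
    (by
      rintro (_ | r)
      · exact hone _
      · exact Submodule.zero_mem _)
    (by
      intro y y0 hy
      obtain ⟨E1, E2, E3⟩ := hENT F K G θ (fun g => u g) (fun g => w g) e (Fintype.card G)
        (Fintype.card G * k) S hS
      obtain ⟨v, hv, hc⟩ := E3 fun j => (y j : K)
      have hz := hZE F K G θ (fun g => u g) (fun g => w g) e _ _ S v σ0 hI hne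
        (fun μ h => (hS μ).2 h) he hv (fun r hr => by
          have hP := Pd_ne_zero (Fintype.card F) (θ : K) r fun j a _ => hne j a
          have a1 := E1 r v hP hv
          have a2 := congrArg R.val (hy (some ⟨r, Nat.lt_succ_of_le hr⟩))
          simp only [map_sum, map_mul, map_ent, mul_zero, map_zero, Subalgebra.coe_val] at a2
          simp only [hc] at a1
          rw [a2] at a1
          exact (mul_eq_zero.1 a1.symm).resolve_left (pow_ne_zero _ hP))
      have a1 := E2 ⟨_, hμ0⟩ v hv
      have a2 := congrArg R.val (hy none)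
      simp only [map_sum, map_mul, mul_one, apply_ite R.val, map_pow, map_zero,
        Subalgebra.coe_val] at a2
      simp only [hc] at a1
      rw [a2, hz] at a1
      exact Subtype.ext a1)
  refine ⟨Δ, ?_, hΔ0, fun E _ _ π hE => ?_⟩
  · rwa [← pow_mul, Fintype.card_prod, Fintype.card_coe, Fintype.card_fin] at hΔ
  · obtain ⟨v, hv, hev, hc⟩ := hROWE F E G _ _ _ σ0 e k hk hE
    obtain ⟨E1, E2, -⟩ := hENT F E G (π θ) (fun g => π (u g)) (fun g => π (w g)) e
      (Fintype.card G) (Fintype.card G * k) S hS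
    refine H E π.toRingHom (fun j => (MvPolynomial.coeff j.1 v).coeff j.2 *
      ((MvPolynomial.coeff (Finsupp.single (Sum.inr σ0) (Fintype.card G)) v).eval (π θ))⁻¹) ?_
    rintro (_ | r)
    · have a1 := E2 ⟨_, hμ0⟩ v hv
      simp only [AlgHom.toRingHom_eq_coe, RingHom.coe_coe, apply_ite π, map_pow, map_zero,
        map_one, ← mul_assoc, ← Finset.sum_mul]
      rw [a1]
      exact mul_inv_cancel₀ hc
    · have hr := Nat.lt_succ_iff.1 r.2
      have a1 := E1 r v (Pd_ne_zero _ _ _ fun j a b => hE.ne j a (by omega)) hv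
      simp only [AlgHom.toRingHom_eq_coe, RingHom.coe_coe, map_ent, map_zero, ← mul_assoc,
        ← Finset.sum_mul]
      rw [a1, hev r hr, mul_zero, zero_mul]

end Pool.Agent.P.MP_657a03_nt.CW
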