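import Pool.Agent.P.MP_657a03_nt.CW.Iface

/-! Step INDP. -/

set_option autoImplicit false
set_option linter.unusedSectionVars false

namespace Pool.Agent.P.MP_657a03_nt.CW

open Polynomial
open scoped Classical

namespace INDPx

theorem frob {F K : Type} [Field F] [Fintype F] [Field K] [Algebra F K] (p : ℕ) [Fact p.Prime]
    [CharP F p] [CharP K p] (θ : K) (g : F[X]) (x : K) :
    carlitz θ g x ^ p = carlitz (θ ^ p) (g.map (frobenius F p)) (x ^ p) := by
  induction g using Polynomial.induction_on generalizing x with
  | C c => rw [map_C, carlitz_C, carlitz_C, _root_.smul_pow, frobenius_def]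
  | add g g' hg hg' => rw [Polynomial.map_add, carlitz_add, carlitz_add, add_pow_char, hg, hg']
  | monomial i c ih =>
    rw [pow_succ, ← mul_assoc, Polynomial.map_mul, map_X, carlitz_mul θ _ X,
      carlitz_mul (θ ^ p) _ X, ih, carlitz_X, carlitz_X, add_pow_char, mul_pow, pow_right_comm]

end INDPx

theorem p_INDP :
    S_INDP := by
  intro F K G _ _ _ _ _ p _ _ θ u h a
  have : CharP K p := charP_of_injective_algebraMap (algebraMap F K).injective p
  induction a with
  | zero => simpa using h
  | succ a ih =>
    intro b hb
    choose c hc using fun g => map_surjective (frobenius F p) (frobeniusEquiv F p).surjective (b g)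
    have e : c = 0 := ih c (eq_zero_of_pow_eq_zero (n := p) (by
      rw [sum_pow_char, ← hb]
      refine Finset.sum_congr rfl fun g _ => ?_
      simp only [INDPx.frob, hc, pow_succ, pow_mul]))
    funext g
    rw [← hc, e]
    simp

end Pool.Agent.P.MP_657a03_nt.CW
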