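import Pool.Agent.P.MP_657a03_nt.CW.Iface

/-! Step MIN. -/

set_option autoImplicit false
set_option linter.unusedSectionVars false

namespace Pool.Agent.P.MP_657a03_nt.CW

open Polynomial
open scoped Classical

namespace MINx

variable {F A I J : Type} [CommRing F] [CommRing A] [Algebra F A]

theorem det_mem (V : Submodule F A) (n : ℕ) (N : Matrix (Fin n) (Fin n) A)
    (h : ∀ a c, N a c ∈ V) : N.det ∈ V ^ n := by
  induction n with
  | zero =>
    rw [Matrix.det_fin_zero, pow_zero]
    exact Submodule.one_le.1 le_rfl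
  | succ n ih =>
    rw [Matrix.det_succ_row_zero, pow_succ']
    refine Submodule.sum_mem _ fun j _ => Submodule.mul_mem_mul ?_ (ih _ fun a c => h _ _)
    rcases neg_one_pow_eq_or A j with e | e
    · rw [e, one_mul]; exact h _ _
    · rw [e, neg_one_mul]; exact neg_mem (h _ _)

theorem pow_mono (V : Submodule F A) (h : (1 : A) ∈ V) {a c : ℕ} (e : a ≤ c) : V ^ a ≤ V ^ c := by
  induction e with
  | refl => exact le_rfl
  | step _ ih =>
    intro x hx
    rw [pow_succ, ← mul_one x]
    exact Submodule.mul_mem_mul (ih hx) h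

/-- A nonzero minor of size `s`. -/
def Good (M : I → J → A) (s : ℕ) : Prop :=
  ∃ (f : Fin s → I) (g : Fin s → J), (Matrix.of fun a c => M (f a) (g c)).det ≠ 0

theorem Good.le [Fintype J] {M : I → J → A} {s : ℕ} (h : Good M s) : s ≤ Fintype.card J := by
  obtain ⟨f, g, h⟩ := h
  have : Function.Injective g := fun c c' e => by
    by_contra n
    exact h (Matrix.det_zero_of_column_eq n fun k => congrArg (M (f k)) e)
  simpa using Fintype.card_le_of_injective g this

theorem ex_max [Nontrivial A] [Fintype J] (M : I → J → A) :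
    ∃ s, Good M s ∧ ¬Good M (s + 1) := by
  by_contra n
  have : ∀ s, Good M s := fun s => by
    induction s with
    | zero => exact ⟨Fin.elim0, Fin.elim0, by rw [Matrix.det_fin_zero]; exact one_ne_zero⟩
    | succ s ih => exact by_contra fun k => n ⟨s, ih, k⟩
  exact absurd (this _).le (Nat.not_succ_le_self _)

/-- The bordered matrix. -/
def bd (M : I → J → A) {t s : ℕ} (r : Fin t → I) (g : Fin s → J) (col : I → A) :
    Matrix (Fin t) (Fin (s + 1)) A :=
  Matrix.of fun a => Fin.cons (col (r a)) fun c => M (r a) (g c)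

theorem bd_col (M : I → J → A) {s : ℕ} (r : Fin (s + 1) → I) (g : Fin s → J) :
    ∃ k : Fin (s + 1) → A, ∀ col, (bd M r g col).det = ∑ a, col (r a) * k a :=
  ⟨fun a => (-1) ^ (a : ℕ) * (Matrix.of fun x y => M (r (a.succAbove x)) (g y)).det,
    fun col => by
      rw [Matrix.det_succ_column_zero]
      refine Finset.sum_congr rfl fun a _ => ?_
      rw [mul_left_comm, mul_assoc]
      rfl⟩

theorem bd_row (M : I → J → A) {s : ℕ} (f : Fin s → I) (g : Fin s → J) (b : I → A) :
    ∃ k : Fin s → A, ∀ i, (bd M (Fin.cons i f) g b).det =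
      b i * (Matrix.of fun a c => M (f a) (g c)).det + ∑ c, M i (g c) * k c :=
  ⟨fun c => (-1) ^ (c.succ : ℕ) * ((bd M f g b).submatrix id c.succ.succAbove).det, fun i => by
    rw [Matrix.det_succ_row_zero, Fin.sum_univ_succ]
    congr 1
    · rw [Fin.val_zero, pow_zero, one_mul]
      rfl
    · refine Finset.sum_congr rfl fun a _ => ?_
      rw [mul_left_comm, mul_assoc]
      rfl⟩

end MINx

open MINx in
theorem p_MIN :
    S_MIN := by
  intro F A I J _ _ _ _ _ M b V h1 hM hb hy
  obtain ⟨s, hs, hmax⟩ := ex_max M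
  have hle := hs.le
  obtain ⟨f, g, h0⟩ := hs
  obtain ⟨i, hi⟩ : ∃ i, (bd M (Fin.cons i f) g b).det ≠ 0 := by
    by_contra n
    obtain ⟨k, hk⟩ := bd_row M f g b
    refine h0 (hy (fun j => ∑ c, if g c = j then -k c else 0) _ fun i => ?_)
    have e : (bd M (Fin.cons i f) g b).det = 0 := by_contra fun e => n ⟨i, e⟩
    rw [hk] at e
    simp only [Finset.mul_sum, mul_ite, mul_zero]
    rw [Finset.sum_comm]
    simp only [Finset.sum_ite_eq, Finset.mem_univ, if_true, mul_neg, Finset.sum_neg_distrib]
    linear_combination -e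
  refine ⟨_, pow_mono V h1 (Nat.succ_le_succ hle) (det_mem V _ _ fun a c => ?_), hi,
    fun E _ π y h => ?_⟩
  · exact Fin.cases (hb _) (fun c => hM _ _) c
  · obtain ⟨k, hk⟩ := bd_col M (Fin.cons i f) g
    have z : ∀ j, ∑ a, π (M (Fin.cons (α := fun _ => I) i f a) j) * π (k a) = 0 := fun j => by
      have e : (bd M (Fin.cons i f) g fun x => M x j).det = 0 := by
        by_contra n
        refine hmax ⟨Fin.cons i f, Fin.cons j g, fun e => n (Eq.trans ?_ e)⟩
        congr 1
        ext a c
        exact Fin.cases rfl (fun _ => rfl) c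
      simpa only [map_sum, map_mul, map_zero] using congrArg π ((hk _).symm.trans e)
    rw [hk, map_sum]
    simp only [map_mul, ← h, Finset.sum_mul]
    rw [Finset.sum_comm]
    refine Finset.sum_eq_zero fun j _ => ?_
    simp only [mul_right_comm _ (y j)]
    rw [← Finset.sum_mul, z, zero_mul]

end Pool.Agent.P.MP_657a03_nt.CW
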