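import Pool.Agent.P.MP_657a03_nt.CW.Iface

/-! Step PSI. -/

set_option autoImplicit false
set_option linter.unusedSectionVars false

namespace Pool.Agent.P.MP_657a03_nt.CW

open Polynomial
open scoped Classical

namespace PSIx

variable {F R E : Type} [Field F] [Fintype F] [CommRing R] [Algebra F R] [Field E] [Algebra F E]

theorem pw_add' (a b : E) (j : ℕ) : pw (Fintype.card F) (a + b) j =
    pw (Fintype.card F) a j + pw (Fintype.card F) b j := by
  simp only [pw, ← fr_iter (F := F), iterate_map_add]

theorem pw_smul (c : F) (a : E) (j : ℕ) : pw (Fintype.card F) (c • a) j =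
    algebraMap F E c * pw (Fintype.card F) a j := by
  rw [Algebra.smul_def, pw, mul_pow, ← map_pow, FiniteField.pow_card_pow, pw]

/-- The linear map that turns the Carlitz action into multiplication. -/
noncomputable def psi (θ : R) (D : Derivation F R R) (σ : R →ₐ[F] R) (π : R →ₐ[F] E) (d : ℕ) :
    R →ₗ[F] E where
  toFun x := hn (pw (Fintype.card F) (π θ)) (pw (Fintype.card F) (π x)) (π θ) d - π (D (σ x))
  map_add' x y := by
    have e : pw (Fintype.card F) (π (x + y)) =
        fun m => pw (Fintype.card F) (π x) m + pw (Fintype.card F) (π y) m := by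
      funext m
      rw [map_add, pw_add']
    rw [e, hn_add_u, map_add, map_add, map_add]
    ring
  map_smul' c x := by
    have e : pw (Fintype.card F) (π (c • x)) =
        fun m => algebraMap F E c * pw (Fintype.card F) (π x) m := by
      funext m
      rw [map_smul, pw_smul]
    rw [e, hn_mul_u, map_smul, Derivation.map_smul, map_smul, RingHom.id_apply, Algebra.smul_def,
      Algebra.smul_def]
    ring

theorem aeval_mul (t z : E) (g : F[X]) : aeval (LinearMap.mulLeft F t) g z = aeval t g * z := by
  have := aeval_algHom_apply (Algebra.lmul F E) t g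
  exact LinearMap.congr_fun this z

end PSIx

theorem p_PSI :
    S_PSI := by
  intro F R E _ _ _ _ _ _ θ u y D σ π P d n hD hσ hd hn' hP hπ h
  have hq : ((Fintype.card F : ℕ) : R) = 0 := by
    rw [← map_natCast (algebraMap F R), FiniteField.cast_card_eq_zero, map_zero]
  have a1 : ∀ x, PSIx.psi θ D σ π d (θ * x + x ^ Fintype.card F) =
      LinearMap.mulLeft F (π θ) (PSIx.psi θ D σ π d x) := by
    intro x
    have e : pw (Fintype.card F) (π (θ * x + x ^ Fintype.card F)) = fun m =>
        pw (Fintype.card F) (π θ) m * pw (Fintype.card F) (π x) m +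
          pw (Fintype.card F) (π x) (m + 1) := by
      funext m
      rw [map_add, PSIx.pw_add', map_mul, map_pow, pw, mul_pow, pw, pw, pw, pw, ← pow_mul,
        ← pow_succ']
    have e2 : D (σ (θ * x + x ^ Fintype.card F)) = θ * D (σ x) + σ x := by
      rw [map_add, map_mul, map_pow, hσ, map_add, D.leibniz, D.leibniz_pow, hD, nsmul_eq_mul, hq]
      simp
    change hn _ _ _ _ - _ = π θ * (hn _ _ _ _ - _)
    rw [e, hn_step, pr_eq_zero _ _ hd (pw_zero _ _), e2, map_add, map_mul, hπ]
    ring
  have a2 := carlitz_intertwine θ _ _ a1 (P ^ n - 1) u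
  have a3 : π (aeval θ P) = 0 := by rw [← aeval_algHom_apply, hP]
  have a4 : pw (Fintype.card F) (π (aeval θ P * y)) = fun m => 0 * pw (Fintype.card F) (π y) m := by
    funext m
    rw [map_mul, a3, zero_mul, zero_mul, pw, zero_pow (pow_ne_zero _ Fintype.card_ne_zero)]
  rw [h, PSIx.aeval_mul, map_sub, map_pow, hP, zero_pow (by omega), map_one] at a2
  simp only [PSIx.psi, LinearMap.coe_mk, AddHom.coe_mk] at a2
  rw [a4, hn_mul_u, map_mul, ← aeval_algHom_apply, hσ, D.leibniz, Derivation.map_aeval, hD,
    smul_eq_mul, smul_eq_mul, smul_eq_mul, map_add, map_mul, map_mul, a3, hπ, mul_one,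
    ← aeval_algHom_apply] at a2
  linear_combination a2

end Pool.Agent.P.MP_657a03_nt.CW
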